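import Pool.Agent.PalSieve.Central2

/-!
# The central estimate as a property of the base and the level
-/

namespace Pool.Agent.PalL

open Finset Pool.Agent.Pal

/-- The central estimate (with a power saving in the modulus) holds in base `b` up to the level
`θ`: the conclusion of `central2` with `1 / 4 - ε` replaced by `θ`. -/
def HasCen (b : ℕ) (θ : ℝ) : Prop :=
  ∃ (σ δ C : ℝ), 0 < σ ∧ 0 < δ ∧ 0 < C ∧ ∀ Λ ℓ D : ℕ, ℓ ≤ Λ → 2 ≤ D →
    Real.log D ≤ θ * Real.log b * Λ → Bd2 b σ δ C Λ ℓ D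

end Pool.Agent.PalL
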