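import Pool.Agent.PalL.Hol
import Pool.Agent.PalL.HasCen

/-!
# The central estimate up to the level `1/2 - ε`
-/

namespace Pool.Agent.PalL

open Finset Pool.Agent.Pal

/-- Exponential form of the three-factor bound. -/
lemma T_three_exp {b M : ℕ} {e c : ℝ} (hG : Good b M e c) {η : ℝ} (hη : 0 < η) :
    ∃ C : ℝ, 0 < C ∧ ∀ ℓ k i0 D : ℕ, (ℓ + 1) / 2 = i0 + k + 1 → 1 ≤ D → (D : ℝ) ≤ (b : ℝ) ^ k →
      (b : ℝ) ^ k ≤ b * D → 2 * c * k + 1 ≤ (i0 : ℝ) →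
      (T b ℓ D) ^ 2 ≤ C * (D : ℝ) ^ 2 * Real.exp (-(2 / 3) * Real.log (500 / 499) * k +
        4 / 3 * η * (Real.log b * ((ℓ : ℝ) + 3))) := by
  obtain ⟨C, hC, hmain⟩ := T_three hG hη
  refine ⟨(1 + C) ^ 2, by positivity, ?_⟩
  intro ℓ k i0 D hm hD1 hD hkD hi0
  have h := hmain ℓ k i0 D hm hD1 hD hkD hi0
  have hb := hG.1
  have hDr : (1 : ℝ) ≤ D := by exact_mod_cast hD1
  have hDpos : (0 : ℝ) < D := by linarith
  set r := Real.log (500 / 499) with hr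
  set E : ℝ := (-r * k + 2 * η * (Real.log b * ((ℓ : ℝ) + 3))) / 3 with hE
  have e1 : ((499 : ℝ) / 500) ^ k = Real.exp (-r * k) := by
    have : Real.log (499 / 500 : ℝ) = -r := by
      rw [hr, ← Real.log_inv]; norm_num
    rw [← this, mul_comm, Real.exp_nat_mul, Real.exp_log (by norm_num)]
  have e2 : (((b : ℝ) ^ (ℓ + 3)) ^ η) ^ 2 = Real.exp (2 * η * (Real.log b * ((ℓ : ℝ) + 3))) := by
    rw [pow_eq_exp hb, ← Real.exp_mul, ← Real.exp_nat_mul]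
    congr 1
    push_cast
    ring
  have e3 : (T b ℓ D) ^ 3 ≤ ((1 + C) * D * Real.exp E) ^ 3 := by
    refine h.trans ?_
    have e4 : Real.exp E ^ 3 = (499 / 500 : ℝ) ^ k * (((b : ℝ) ^ (ℓ + 3)) ^ η) ^ 2 := by
      rw [e1, e2, ← Real.exp_add, ← Real.exp_nat_mul]
      congr 1
      rw [hE]
      push_cast
      ring
    have e5 : C ≤ (1 + C) ^ 3 := by nlinarith [sq_nonneg C, pow_pos hC 3]
    calc C * (D : ℝ) ^ 3 * (499 / 500) ^ k * (((b : ℝ) ^ (ℓ + 3)) ^ η) ^ 2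
        = C * ((D : ℝ) ^ 3 * Real.exp E ^ 3) := by rw [e4]; ring
      _ ≤ (1 + C) ^ 3 * ((D : ℝ) ^ 3 * Real.exp E ^ 3) :=
          mul_le_mul_of_nonneg_right e5 (by positivity)
      _ = _ := by ring
  have e6 : T b ℓ D ≤ (1 + C) * D * Real.exp E :=
    (pow_le_pow_iff_left₀ (T_nonneg _ _ _) (by positivity) (by norm_num)).mp e3
  calc (T b ℓ D) ^ 2 ≤ ((1 + C) * D * Real.exp E) ^ 2 := pow_le_pow_left₀ (T_nonneg _ _ _) e6 2
    _ = (1 + C) ^ 2 * (D : ℝ) ^ 2 * (Real.exp E) ^ 2 := by ring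
    _ = _ := by
      rw [← Real.exp_nat_mul]
      congr 2
      rw [hE]
      push_cast
      ring

/-- Exponential form of the bound from the mean. -/
lemma T_one_exp {b M : ℕ} {e c : ℝ} (hG : Good b M e c) :
    ∃ C : ℝ, 0 < C ∧ ∀ ℓ k k' i0 D : ℕ, (ℓ + 1) / 2 = i0 + k' + 1 → k' ≤ k → 2 ≤ D →
      (b : ℝ) ^ k ≤ b * D →
      (T b ℓ D) ^ 2 ≤ C * (D : ℝ) ^ 2 * Real.exp (2 * Real.log D -
        2 * (1 - c) * (Real.log b * k')) := by
  obtain ⟨C, hC, hmain⟩ := T_one hG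
  refine ⟨C ^ 2, by positivity, ?_⟩
  intro ℓ k k' i0 D hm hk' hD hkD
  have h := hmain ℓ k k' i0 D hm hk' hkD
  have hb := hG.1
  have hbp : (0 : ℝ) < b := by
    have : 0 < b := by omega
    exact_mod_cast this
  have e1 : (b : ℝ) ^ (-((1 - c) * k')) = Real.exp (-((1 - c) * (Real.log b * k'))) := by
    rw [Real.rpow_def_of_pos hbp]
    congr 1
    ring
  rw [e1] at h
  calc (T b ℓ D) ^ 2 ≤ (C * (D : ℝ) ^ 2 * Real.exp (-((1 - c) * (Real.log b * k')))) ^ 2 :=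
        pow_le_pow_left₀ (T_nonneg _ _ _) h 2
    _ = C ^ 2 * (D : ℝ) ^ 2 * ((D : ℝ) ^ 2 * (Real.exp (-((1 - c) * (Real.log b * k')))) ^ 2) := by
        ring
    _ = _ := by
        rw [sq_eq_exp hD, ← Real.exp_nat_mul, ← Real.exp_add]
        congr 2
        push_cast
        ring

/-- Short products. -/
lemma cen_short {b : ℕ} (hb : 2 ≤ b) {ε : ℝ} (hε : 0 < ε) (hε4 : ε ≤ 1 / 4) :
    ∃ (σ δ C : ℝ), 0 < σ ∧ 0 < δ ∧ 0 < C ∧
    ∀ Λ ℓ D : ℕ, 2 ≤ D → Real.log D ≤ (1 / 2 - ε) * Real.log b * Λ →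
      (ℓ : ℝ) ≤ ε * Λ → Bd2 b σ δ C Λ ℓ D := by
  have hL := log_pos_b hb
  have hBp := BB_pos hb
  refine ⟨ε * Real.log b / 4, ε / 2, (2 * BB b) ^ 2, by positivity, by positivity, by positivity, ?_⟩
  intro Λ ℓ D hD hDL hℓ
  refine Bd2_of_exp hb (by positivity) (E := 2 * Real.log D) ?_ ?_
  · have h1 := T_le_trivial b ℓ D
    calc (T b ℓ D) ^ 2 ≤ (2 * BB b * (D : ℝ) ^ 2) ^ 2 := pow_le_pow_left₀ (T_nonneg _ _ _) h1 2
      _ = (2 * BB b) ^ 2 * (D : ℝ) ^ 2 * (D : ℝ) ^ 2 := by ring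
      _ = _ := by rw [← sq_eq_exp hD]
  · have h2 := sqrt_nat_le Λ
    have h3 : Real.log b * ℓ ≤ Real.log b * (ε * Λ) := mul_le_mul_of_nonneg_left hℓ hL.le
    have h4 : ε * Real.log b / 4 * Real.sqrt Λ ≤ ε * Real.log b / 4 * Λ :=
      mul_le_mul_of_nonneg_left h2 (by positivity)
    have h5 : 0 ≤ ε * Real.log b * Λ := by positivity
    have h6 : ε / 2 * Real.log D ≤ ε / 2 * (1 / 2 * Real.log b * Λ) := by
      refine mul_le_mul_of_nonneg_left ?_ (by positivity)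
      linarith
    nlinarith

/-- Long products and large moduli. -/
lemma cen_long_large {b M : ℕ} {e ε c0 : ℝ} (hε : 0 < ε) (hε4 : ε ≤ 1 / 4) (hc0 : 0 < c0)
    (hG : Good b M e (ε / 8)) :
    ∃ (σ δ C : ℝ) (Λ0 : ℕ), 0 < σ ∧ 0 < δ ∧ 0 < C ∧
    ∀ Λ ℓ D : ℕ, Λ0 ≤ Λ → ℓ ≤ Λ → 2 ≤ D → Real.log D ≤ (1 / 2 - ε) * Real.log b * Λ →
      (1 - ε) * Λ < (ℓ : ℝ) → c0 * Real.log b * Λ ≤ Real.log D → Bd2 b σ δ C Λ ℓ D := by
  have hb := hG.1
  have hL := log_pos_b hb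
  set L := Real.log b with hLdef
  set r := Real.log (500 / 499) with hr
  have hr0 : 0 < r := Real.log_pos (by norm_num)
  obtain ⟨C, hC, hmain⟩ := T_three_exp hG (η := r * c0 / (16 * L)) (by positivity)
  obtain ⟨Λ0, hΛ0⟩ := exists_nat_ge (max 3 (11 / ε))
  refine ⟨r * c0 / 6, r * c0 / (6 * L), C, Λ0, by positivity, by positivity, hC, ?_⟩
  intro Λ ℓ D hΛ hℓΛ hD hDL hℓ1 hDc
  have hΛr : max 3 (11 / ε) ≤ (Λ : ℝ) := hΛ0.trans (by exact_mod_cast hΛ)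
  have hΛ3 : (3 : ℝ) ≤ Λ := (le_max_left _ _).trans hΛr
  have hΛε : 11 ≤ ε * Λ := by
    have := (le_max_right _ _).trans hΛr
    rwa [div_le_iff₀ hε, mul_comm] at this
  obtain ⟨k1, k2, k3, k4⟩ := clog_bounds hb hD
  set k := Nat.clog b D with hk
  have hℓΛr : (ℓ : ℝ) ≤ Λ := by exact_mod_cast hℓΛ
  have hm : (ℓ : ℝ) / 2 ≤ (((ℓ + 1) / 2 : ℕ) : ℝ) := by
    have : ℓ ≤ 2 * ((ℓ + 1) / 2) := by omega
    have : (ℓ : ℝ) ≤ 2 * (((ℓ + 1) / 2 : ℕ) : ℝ) := by exact_mod_cast this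
    linarith
  have hkup : (k : ℝ) ≤ 1 + (1 / 2 - ε) * Λ := by
    have : L * k ≤ L * (1 + (1 / 2 - ε) * Λ) := by linarith
    exact le_of_mul_le_mul_left this hL
  have hklo : c0 * Λ ≤ k := by
    have : L * (c0 * Λ) ≤ L * k := by linarith
    exact le_of_mul_le_mul_left this hL
  have hε8 : ε / 8 * k ≤ ε / 8 * (1 + Λ / 2) := by
    refine mul_le_mul_of_nonneg_left ?_ (by positivity)
    have : 0 ≤ ε * Λ := by positivity
    linarith
  have hkm : (k : ℝ) + 1 + (2 * (ε / 8) * k + 1) ≤ (((ℓ + 1) / 2 : ℕ) : ℝ) := by nlinarith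
  have hkm' : k + 1 ≤ (ℓ + 1) / 2 := by
    have h1 : 0 ≤ 2 * (ε / 8) * (k : ℝ) := by positivity
    have : (k : ℝ) + 1 ≤ (((ℓ + 1) / 2 : ℕ) : ℝ) := by linarith
    exact_mod_cast this
  obtain ⟨i0, hi0⟩ : ∃ i0, (ℓ + 1) / 2 = i0 + k + 1 := ⟨(ℓ + 1) / 2 - (k + 1), by omega⟩
  have hi0r : 2 * (ε / 8) * k + 1 ≤ (i0 : ℝ) := by
    rw [hi0] at hkm
    push_cast at hkm
    linarith
  have h := hmain ℓ k i0 D hi0 (by omega) k1 k2 hi0r
  refine Bd2_of_exp hb hC.le h ?_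
  have h2 := sqrt_nat_le Λ
  have h4 : r * c0 / 6 * Real.sqrt Λ ≤ r * c0 / 6 * Λ :=
    mul_le_mul_of_nonneg_left h2 (by positivity)
  have h5 : 4 / 3 * (r * c0 / (16 * L)) * (L * ((ℓ : ℝ) + 3)) = r * c0 / 12 * ((ℓ : ℝ) + 3) := by
    field_simp
    ring
  rw [h5]
  have h6 : r * c0 / 12 * ((ℓ : ℝ) + 3) ≤ r * c0 / 12 * (2 * Λ) :=
    mul_le_mul_of_nonneg_left (by linarith) (by positivity)
  have h7 : L * (ℓ : ℝ) ≤ L * Λ := mul_le_mul_of_nonneg_left hℓΛr hL.le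
  have h8 : r * (c0 * Λ) ≤ r * k := mul_le_mul_of_nonneg_left hklo hr0.le
  have h9 : r * c0 / (6 * L) * Real.log D ≤ r * c0 / (6 * L) * (1 / 2 * L * Λ) := by
    refine mul_le_mul_of_nonneg_left ?_ (by positivity)
    have : 0 ≤ ε * L * Λ := by positivity
    linarith
  have h10 : r * c0 / (6 * L) * (1 / 2 * L * Λ) = r * c0 * Λ / 12 := by field_simp; ring
  have h11 : 0 ≤ r * c0 * Λ := by positivity
  linarith

/-- Products that are not long. -/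
lemma cen_mid {b M : ℕ} {e ε : ℝ} (hε : 0 < ε) (hε4 : ε ≤ 1 / 4) (hG : Good b M e (ε / 8)) :
    ∃ (σ δ C : ℝ) (Λ0 : ℕ), 0 < σ ∧ 0 < δ ∧ 0 < C ∧
    ∀ Λ ℓ D : ℕ, Λ0 ≤ Λ → ℓ ≤ Λ → 2 ≤ D → Real.log D ≤ (1 / 2 - ε) * Real.log b * Λ →
      ε * Λ < (ℓ : ℝ) → (ℓ : ℝ) ≤ (1 - ε) * Λ → Bd2 b σ δ C Λ ℓ D := by
  have hb := hG.1
  have hL := log_pos_b hb
  set L := Real.log b with hLdef
  set r := Real.log (500 / 499) with hr
  have hr0 : 0 < r := Real.log_pos (by norm_num)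
  obtain ⟨C, hC, hmain⟩ := T_three_exp hG (η := ε / 16) (by positivity)
  obtain ⟨C1, hC1, hone⟩ := T_one_exp hG
  obtain ⟨Λ0, hΛ0⟩ := exists_nat_ge (max 3 (40 / ε))
  refine ⟨ε * L / 4, ε / 2, C + C1, Λ0, by positivity, by positivity, by positivity, ?_⟩
  intro Λ ℓ D hΛ hℓΛ hD hDL hℓ0 hℓ1
  have hΛr : max 3 (40 / ε) ≤ (Λ : ℝ) := hΛ0.trans (by exact_mod_cast hΛ)
  have hΛ3 : (3 : ℝ) ≤ Λ := (le_max_left _ _).trans hΛr
  have hΛε : 40 ≤ ε * Λ := by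
    have := (le_max_right _ _).trans hΛr
    rwa [div_le_iff₀ hε, mul_comm] at this
  obtain ⟨k1, k2, k3, k4⟩ := clog_bounds hb hD
  set k := Nat.clog b D with hk
  have hℓΛr : (ℓ : ℝ) ≤ Λ := by exact_mod_cast hℓΛ
  have hm : (ℓ : ℝ) / 2 ≤ (((ℓ + 1) / 2 : ℕ) : ℝ) := by
    have : ℓ ≤ 2 * ((ℓ + 1) / 2) := by omega
    have : (ℓ : ℝ) ≤ 2 * (((ℓ + 1) / 2 : ℕ) : ℝ) := by exact_mod_cast this
    linarith
  have h2 := sqrt_nat_le Λ
  have hsq : ε * L / 4 * Real.sqrt Λ ≤ ε * L / 4 * Λ :=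
    mul_le_mul_of_nonneg_left h2 (by positivity)
  have hδ : ε / 2 * Real.log D ≤ ε / 2 * (1 / 2 * L * Λ) := by
    refine mul_le_mul_of_nonneg_left ?_ (by positivity)
    have : 0 ≤ ε * L * Λ := by positivity
    linarith
  have hLl : L * (ℓ : ℝ) ≤ L * ((1 - ε) * Λ) := mul_le_mul_of_nonneg_left hℓ1 hL.le
  have hεL : 0 ≤ ε * L * Λ := by positivity
  have hm1 : 1 ≤ (ℓ + 1) / 2 := by
    have : (1 : ℝ) < ℓ := by linarith
    have : 1 < ℓ := by exact_mod_cast this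
    omega
  by_cases hcase : k + 1 ≤ (ℓ + 1) / 2 ∧
      2 * (ε / 8) * k + 1 ≤ (((ℓ + 1) / 2 - (k + 1) : ℕ) : ℝ)
  · obtain ⟨c1, c2⟩ := hcase
    have h := hmain ℓ k ((ℓ + 1) / 2 - (k + 1)) D (by omega) (by omega) k1 k2 c2
    refine (Bd2_of_exp hb hC.le h (σ := ε * L / 4) (δ := ε / 2) ?_).mono le_rfl le_rfl (by omega)
      hC.le (by linarith)
    have h5 : 4 / 3 * (ε / 16) * (L * ((ℓ : ℝ) + 3)) ≤ 4 / 3 * (ε / 16) * (L * (2 * Λ)) := by
      refine mul_le_mul_of_nonneg_left ?_ (by positivity)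
      exact mul_le_mul_of_nonneg_left (by linarith) hL.le
    have h6 : 0 ≤ 2 / 3 * r * (k : ℝ) := by positivity
    linarith
  · -- use the mean bound
    have hε8 : ε / 8 * (L * k) ≤ ε / 8 * (L + 1 / 2 * L * Λ) := by
      refine mul_le_mul_of_nonneg_left ?_ (by positivity)
      linarith
    have hεL2 : 40 * L ≤ ε * Λ * L := mul_le_mul_of_nonneg_right hΛε hL.le
    set k' := min k ((ℓ + 1) / 2 - 1) with hk'
    have hk'k : k' ≤ k := min_le_left _ _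
    have hk'm : k' ≤ (ℓ + 1) / 2 - 1 := min_le_right _ _
    have h := hone ℓ k k' ((ℓ + 1) / 2 - 1 - k') D (by omega) hk'k hD k2
    refine (Bd2_of_exp hb hC1.le h (σ := ε * L / 4) (δ := ε / 2) ?_).mono le_rfl le_rfl (by omega)
      hC1.le (by linarith)
    have hℓm : (ℓ : ℝ) ≤ 2 * (((ℓ + 1) / 2 : ℕ) : ℝ) := by linarith
    rcases Nat.lt_or_ge k ((ℓ + 1) / 2) with hkm | hkm
    · -- `k' = k`
      have e1 : k' = k := by rw [hk']; exact min_eq_left (by omega)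
      rw [e1]
      have hnot : (((ℓ + 1) / 2 - (k + 1) : ℕ) : ℝ) < 2 * (ε / 8) * k + 1 := by
        by_contra hge
        push Not at hge
        exact hcase ⟨by omega, hge⟩
      have e2 : (((ℓ + 1) / 2 - (k + 1) : ℕ) : ℝ) = (((ℓ + 1) / 2 : ℕ) : ℝ) - (k + 1) := by
        rw [Nat.cast_sub (by omega)]
        push_cast
        ring
      rw [e2] at hnot
      have e3 : (ℓ : ℝ) ≤ 2 * (k + 1 + (2 * (ε / 8) * k + 1)) := by linarith
      have e4 : L * (ℓ : ℝ) ≤ L * (2 * (k + 1 + (2 * (ε / 8) * k + 1))) :=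
        mul_le_mul_of_nonneg_left e3 hL.le
      have e5 : L * (2 * ((k : ℝ) + 1 + (2 * (ε / 8) * k + 1))) =
          2 * (L * k) + 4 * L + 4 * (ε / 8 * (L * k)) := by ring
      rw [e5] at e4
      have e6 : 2 * (1 - ε / 8) * (L * (k : ℝ)) = 2 * (L * k) - 2 * (ε / 8 * (L * k)) := by ring
      rw [e6]
      have e7 : ε / 8 * (L + 1 / 2 * L * Λ) ≤ L + ε / 8 * (1 / 2 * L * Λ) := by nlinarith
      nlinarith
    · have e1 : k' = (ℓ + 1) / 2 - 1 := by rw [hk']; exact min_eq_right (by omega)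
      rw [e1]
      have e2 : (((ℓ + 1) / 2 - 1 : ℕ) : ℝ) = (((ℓ + 1) / 2 : ℕ) : ℝ) - 1 := by
        rw [Nat.cast_sub hm1]
        push_cast
        ring
      rw [e2]
      set m : ℝ := (((ℓ + 1) / 2 : ℕ) : ℝ) with hmdef
      have e3 : L * (ℓ : ℝ) ≤ L * (2 * m) := mul_le_mul_of_nonneg_left hℓm hL.le
      have e4 : ε / 8 * (L * m) ≤ ε / 8 * (L * k) := by
        refine mul_le_mul_of_nonneg_left ?_ (by positivity)
        refine mul_le_mul_of_nonneg_left ?_ hL.le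
        rw [hmdef]
        exact_mod_cast hkm
      have e5 : 2 * (1 - ε / 8) * (L * (m - 1)) = 2 * (L * m) - 2 * (ε / 8 * (L * m)) -
          2 * (1 - ε / 8) * L := by ring
      rw [e5]
      have e7 : ε / 8 * (L + 1 / 2 * L * Λ) ≤ L + ε / 8 * (1 / 2 * L * Λ) := by nlinarith
      nlinarith

/-- **The central estimate up to the level `1/2 - ε`**, in good bases. -/
theorem cen {b M : ℕ} {e ε : ℝ} (hε : 0 < ε) (hε4 : ε ≤ 1 / 4) (hG : Good b M e (ε / 8)) :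
    HasCen b (1 / 2 - ε) := by
  have hb := hG.1
  have hL := log_pos_b hb
  obtain ⟨σ1, δ1, C1, hσ1, hδ1, hC1, h1⟩ := cen_short hb hε hε4
  obtain ⟨σ2, δ2, C2, Λ2, hσ2, hδ2, hC2, h2⟩ := cen_mid hε hε4 hG
  obtain ⟨σ3, δ3, C3, c, Λ3, hσ3, hδ3, hC3, hc, h3⟩ := case_long_small2 hb hε hε4
  obtain ⟨σ4, δ4, C4, c0, Λ4, hσ4, hδ4, hC4, hc0, h4⟩ := case_long_mid2 hb hε hε4 hc
  obtain ⟨σ5, δ5, C5, Λ5, hσ5, hδ5, hC5, h5⟩ := cen_long_large hε hε4 hc0 hG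
  obtain ⟨C6, hC6, h6⟩ := case_bounded2 hb (Λ2 + Λ3 + Λ4 + Λ5)
  have key : ∀ a1 a2 a3 a4 a5 : ℝ,
      min a1 (min a2 (min a3 (min a4 (min a5 1)))) ≤ a1 ∧
      min a1 (min a2 (min a3 (min a4 (min a5 1)))) ≤ a2 ∧
      min a1 (min a2 (min a3 (min a4 (min a5 1)))) ≤ a3 ∧
      min a1 (min a2 (min a3 (min a4 (min a5 1)))) ≤ a4 ∧
      min a1 (min a2 (min a3 (min a4 (min a5 1)))) ≤ a5 ∧
      min a1 (min a2 (min a3 (min a4 (min a5 1)))) ≤ 1 := by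
    intro a1 a2 a3 a4 a5
    refine ⟨min_le_left _ _, (min_le_right _ _).trans (min_le_left _ _),
      (min_le_right _ _).trans ((min_le_right _ _).trans (min_le_left _ _)),
      (min_le_right _ _).trans ((min_le_right _ _).trans
        ((min_le_right _ _).trans (min_le_left _ _))),
      (min_le_right _ _).trans ((min_le_right _ _).trans ((min_le_right _ _).trans
        ((min_le_right _ _).trans (min_le_left _ _)))),
      (min_le_right _ _).trans ((min_le_right _ _).trans ((min_le_right _ _).trans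
        ((min_le_right _ _).trans (min_le_right _ _))))⟩
  obtain ⟨m1, m2, m3, m4, m5, m6⟩ := key σ1 σ2 σ3 σ4 σ5
  obtain ⟨n1, n2, n3, n4, n5, n6⟩ := key δ1 δ2 δ3 δ4 δ5
  refine ⟨min σ1 (min σ2 (min σ3 (min σ4 (min σ5 1)))),
    min δ1 (min δ2 (min δ3 (min δ4 (min δ5 1)))), C1 + C2 + C3 + C4 + C5 + C6,
    by positivity, by positivity, by positivity, ?_⟩
  intro Λ ℓ D hℓ hD hDL
  have hD1 : 1 ≤ D := by omega
  rcases Nat.lt_or_ge Λ (Λ2 + Λ3 + Λ4 + Λ5) with hΛ | hΛ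
  · refine (h6 Λ ℓ D hΛ.le hℓ hD ?_).mono m6 n6 hD1 hC6.le (by linarith)
    have : 0 ≤ (1 / 2 + ε) * Real.log b * Λ := by positivity
    linarith
  · rcases le_or_gt (ℓ : ℝ) (ε * Λ) with a1 | a1
    · exact (h1 Λ ℓ D hD hDL a1).mono m1 n1 hD1 hC1.le (by linarith)
    · rcases le_or_gt (ℓ : ℝ) ((1 - ε) * Λ) with a2 | a2
      · exact (h2 Λ ℓ D (by omega) hℓ hD hDL a1 a2).mono m2 n2 hD1 hC2.le (by linarith)
      · rcases le_or_gt (Real.log D) (c * Real.sqrt Λ) with a3 | a3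
        · exact (h3 Λ ℓ D (by omega) hℓ hD a2 a3).mono m3 n3 hD1 hC3.le (by linarith)
        · rcases le_or_gt (Real.log D) (c0 * Real.log b * Λ) with a4 | a4
          · exact (h4 Λ ℓ D (by omega) hℓ hD a2 a4 a3.le).mono m4 n4 hD1 hC4.le (by linarith)
          · exact (h5 Λ ℓ D (by omega) hℓ hD hDL a2 a4.le).mono m5 n5 hD1 hC5.le (by linarith)

/-- Bound for the mean of the averaged kernel. -/
lemma gbar_le (M : ℕ) : gbar M ≤ (1 + Real.log M) / M := by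
  unfold gbar
  refine div_le_div_of_nonneg_right ?_ (Nat.cast_nonneg _)
  have h := harmonic_le_one_add_log M
  unfold harmonic at h
  push_cast at h
  simpa only [one_div] using h

/-- A base is good once a power of it is larger than the losses. -/
theorem good_of {b : ℕ} {c : ℝ} (hb2 : 390000 ^ 2 ≤ b)
    (hbig : 261000 * (1 + Real.log b) ^ 2 ≤ (b : ℝ) ^ c) :
    ∃ (M : ℕ) (e : ℝ), Good b M e c := by
  have hbr : (390000 : ℝ) ^ 2 ≤ b := by exact_mod_cast hb2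
  have hb1r : (1 : ℝ) ≤ b := by linarith
  have hbp : (0 : ℝ) < b := by linarith
  have hlog0 : 0 ≤ Real.log b := Real.log_nonneg hb1r
  set s : ℝ := 130000 * (1 + Real.log b) with hs
  have hs0 : 0 < s := by positivity
  have hs1 : 130000 ≤ s := by rw [hs]; linarith
  -- `s ≤ b`
  have hsb : s ≤ b := by
    have e1 := Real.log_le_rpow_div hbp.le (by norm_num : (0 : ℝ) < 1 / 2)
    rw [← Real.sqrt_eq_rpow] at e1
    have e2 : (390000 : ℝ) ≤ Real.sqrt b := by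
      rw [Real.le_sqrt' (by norm_num)]
      exact hbr
    have e3 : Real.sqrt b * Real.sqrt b = b := Real.mul_self_sqrt hbp.le
    have e4 : Real.sqrt b / (1 / 2) = 2 * Real.sqrt b := by ring
    rw [e4] at e1
    nlinarith
  have hinv : 1 ≤ (b : ℝ) / s := (one_le_div hs0).mpr hsb
  set M : ℕ := ⌊(b : ℝ) / s⌋₊ with hM
  have hM1 : 1 ≤ M := by rw [hM, Nat.le_floor_iff (by positivity)]; simpa using hinv
  have hMr : (M : ℝ) ≤ b / s := Nat.floor_le (by positivity)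
  have hMr2 : (b : ℝ) / s < M + 1 := Nat.lt_floor_add_one _
  have hM1r : (1 : ℝ) ≤ M := by exact_mod_cast hM1
  have hMlow : (b : ℝ) / s ≤ 2 * M := by linarith
  have hMpos : (0 : ℝ) < M := by linarith
  have hMb : (M : ℝ) ≤ b := by
    refine hMr.trans ?_
    rw [div_le_iff₀ hs0]
    nlinarith
  have hlogM : Real.log M ≤ Real.log b := Real.log_le_log hMpos hMb
  have hg := gbar_le M
  have hg0 := gbar_nonneg M
  have hgM : gbar M * M ≤ 1 + Real.log b := by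
    rw [le_div_iff₀ hMpos] at hg
    linarith
  refine ⟨M, 2 * (250 * (M : ℝ) / b) ^ 3, by omega, hM1, ?_, by positivity, ?_, ?_, ?_⟩
  · have e1 : (M : ℝ) * s ≤ b := by rwa [le_div_iff₀ hs0] at hMr
    nlinarith
  · exact le_of_eq (by ring)
  · -- `e * gbar M ≤ 1 / (256 b)`
    have e1 : (M : ℝ) * s ≤ b := by rwa [le_div_iff₀ hs0] at hMr
    have e2 : 2 * (250 * (M : ℝ) / b) ^ 3 * gbar M = 31250000 * ((M : ℝ) ^ 2 * (gbar M * M)) / b ^ 3 := by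
      ring
    rw [e2, div_le_div_iff₀ (by positivity) (by positivity), one_mul]
    have e3 : (M : ℝ) ^ 2 * (gbar M * M) ≤ (M : ℝ) ^ 2 * (1 + Real.log b) :=
      mul_le_mul_of_nonneg_left hgM (by positivity)
    have e4 : ((M : ℝ) * s) ^ 2 ≤ (b : ℝ) ^ 2 := pow_le_pow_left₀ (by positivity) e1 2
    have e5 : (M : ℝ) ^ 2 * (130000 ^ 2 * (1 + Real.log b)) ≤ (b : ℝ) ^ 2 := by
      refine le_trans ?_ e4
      rw [mul_pow, hs, mul_pow]
      refine mul_le_mul_of_nonneg_left ?_ (by positivity)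
      refine mul_le_mul_of_nonneg_left ?_ (by positivity)
      nlinarith
    have e6 : 31250000 * ((M : ℝ) ^ 2 * (gbar M * M)) * 256 ≤ (b : ℝ) ^ 2 := by
      nlinarith
    calc 31250000 * ((M : ℝ) ^ 2 * (gbar M * M)) * (256 * b) =
          (31250000 * ((M : ℝ) ^ 2 * (gbar M * M)) * 256) * b := by ring
      _ ≤ (b : ℝ) ^ 2 * b := mul_le_mul_of_nonneg_right e6 hbp.le
      _ = b ^ 3 := by ring
  · -- `(601/600) b gbar M ≤ b ^ c`
    have e1 : (b : ℝ) ≤ 2 * M * s := by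
      rw [div_le_iff₀ hs0] at hMlow
      exact hMlow
    have e2 : b * gbar M ≤ 2 * s * (1 + Real.log b) := by
      calc b * gbar M ≤ (2 * M * s) * gbar M := mul_le_mul_of_nonneg_right e1 hg0
        _ = 2 * s * (gbar M * M) := by ring
        _ ≤ _ := mul_le_mul_of_nonneg_left hgM (by positivity)
    have e3 : (1 + 1 / 600) * (b * gbar M) ≤ 261000 * (1 + Real.log b) ^ 2 := by
      have : 2 * s * (1 + Real.log b) = 260000 * (1 + Real.log b) ^ 2 := by rw [hs]; ring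
      rw [this] at e2
      have h0 : 0 ≤ (1 + Real.log b) ^ 2 := by positivity
      nlinarith
    exact e3.trans hbig

/-- All large bases are good. -/
theorem exists_good {c : ℝ} (hc : 0 < c) :
    ∃ b0 : ℕ, ∀ b : ℕ, b0 ≤ b → ∃ (M : ℕ) (e : ℝ), Good b M e c := by
  have hcast : Filter.Tendsto (fun n : ℕ => (n : ℝ)) Filter.atTop Filter.atTop :=
    tendsto_natCast_atTop_atTop
  have h1 := ((tendsto_rpow_atTop (by positivity : 0 < c / 2)).comp hcast).eventually_ge_atTop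
    (261000 * (1 + 4 / c) ^ 2)
  obtain ⟨b1, hb1⟩ := Filter.eventually_atTop.mp h1
  refine ⟨max b1 (390000 ^ 2), ?_⟩
  intro b hb
  have hbig := hb1 b ((le_max_left _ _).trans hb)
  simp only [Function.comp_apply] at hbig
  have hb2 : 390000 ^ 2 ≤ b := (le_max_right _ _).trans hb
  refine good_of hb2 ?_
  have hbr : (390000 : ℝ) ^ 2 ≤ b := by exact_mod_cast hb2
  have hb1r : (1 : ℝ) ≤ b := by linarith
  have hbp : (0 : ℝ) < b := by linarith
  have hlog0 : 0 ≤ Real.log b := Real.log_nonneg hb1r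
  have e4 : 1 + Real.log b ≤ (1 + 4 / c) * (b : ℝ) ^ (c / 4) := by
    have e5 := Real.log_le_rpow_div hbp.le (by positivity : 0 < c / 4)
    have e6 : (1 : ℝ) ≤ (b : ℝ) ^ (c / 4) := Real.one_le_rpow hb1r (by positivity)
    have e7 : (b : ℝ) ^ (c / 4) / (c / 4) = 4 / c * (b : ℝ) ^ (c / 4) := by field_simp
    rw [e7] at e5
    linarith
  have e5 : (1 + Real.log b) ^ 2 ≤ (1 + 4 / c) ^ 2 * (b : ℝ) ^ (c / 2) := by
    calc (1 + Real.log b) ^ 2 ≤ ((1 + 4 / c) * (b : ℝ) ^ (c / 4)) ^ 2 :=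
          pow_le_pow_left₀ (by positivity) e4 2
      _ = (1 + 4 / c) ^ 2 * (b : ℝ) ^ (c / 2) := by
          rw [mul_pow, ← Real.rpow_natCast ((b : ℝ) ^ (c / 4)), ← Real.rpow_mul hbp.le]
          congr 2
          push_cast
          ring
  calc 261000 * (1 + Real.log b) ^ 2 ≤ 261000 * ((1 + 4 / c) ^ 2 * (b : ℝ) ^ (c / 2)) :=
        mul_le_mul_of_nonneg_left e5 (by norm_num)
    _ = (261000 * (1 + 4 / c) ^ 2) * (b : ℝ) ^ (c / 2) := by ring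
    _ ≤ (b : ℝ) ^ (c / 2) * (b : ℝ) ^ (c / 2) :=
        mul_le_mul_of_nonneg_right hbig (by positivity)
    _ = (b : ℝ) ^ c := by
        rw [← Real.rpow_add hbp]
        congr 1
        ring

/-- **The central estimate up to the level `1/2 - ε` in all large bases.** -/
theorem exists_cen {ε : ℝ} (hε : 0 < ε) : ∃ b0 : ℕ, ∀ b : ℕ, b0 ≤ b → HasCen b (1 / 2 - ε) := by
  set ε' := min ε (1 / 4) with hε'
  have hε'0 : 0 < ε' := by positivity
  obtain ⟨b0, hb0⟩ := exists_good (c := ε' / 8) (by positivity)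
  refine ⟨b0, fun b hb => ?_⟩
  obtain ⟨M, e, hG⟩ := hb0 b hb
  obtain ⟨σ, δ, C, h1, h2, h3, h4⟩ := cen hε'0 (min_le_right _ _) hG
  refine ⟨σ, δ, C, h1, h2, h3, fun Λ ℓ D hℓ hD hDL => h4 Λ ℓ D hℓ hD (hDL.trans ?_)⟩
  have hL := log_pos_b hG.1
  have : ε' ≤ ε := min_le_left _ _
  have h5 : 0 ≤ Real.log b * (Λ : ℝ) := by positivity
  nlinarith

end Pool.Agent.PalL
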