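import Pool.Agent.PalSieve.SqMain

/-!
# The first moment over square denominators as a property of the base and the level
-/

namespace Pool.Agent.PalL

open Finset Pool.Agent.Pal

/-- The first moment over the square denominators `p ^ 2`, `P ≤ p < 2 P`, has a power saving in
base `b` for all `P` up to the level `θ`: the conclusion of `central_sq` with `1 / 4 - ε` replaced
by `θ`. -/
def HasSq (b : ℕ) (θ : ℝ) : Prop :=
  ∀ c0 : ℝ, 0 < c0 → ∃ (σ C : ℝ) (Λ0 : ℕ), 0 < σ ∧ 0 < C ∧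
    ∀ Λ ℓ P : ℕ, Λ0 ≤ Λ → ℓ ≤ Λ → 2 ≤ P → Real.log P ≤ θ * Real.log b * Λ →
      c0 * Real.log b * Λ ≤ Real.log P → BdS b σ C Λ ℓ P

end Pool.Agent.PalL
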