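import Pool.Agent.PalSieve.SqTotal
import Pool.Agent.PalL.WeightedC
import Pool.Agent.PalL.HasSq

/-!
# Palindromes divisible by squares of primes, at a general level
-/

namespace Pool.Agent.PalL

open Finset Pool.Agent.Pal

/-- The majorant summed over the fractions with square denominators. -/
lemma sum_S_sq_leC {b : ℕ} (hb : 2 ≤ b) {θ c0 : ℝ} (hθ : θ < 1 / 2) (hsq : HasSq b θ)
    (hc0 : 0 < c0) :
    ∃ (σ C : ℝ) (Λ0 : ℕ), 0 < σ ∧ 0 < C ∧ ∀ Λ ℓ P : ℕ, Λ0 ≤ Λ → ℓ ≤ Λ → 2 ≤ P →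
      Real.log P ≤ θ * Real.log b * Λ → c0 * Real.log b * Λ ≤ Real.log P →
      ∑ x ∈ JS b P, S b ℓ (pt b x) ≤
        C * Real.sqrt ((b : ℝ) ^ Λ) * (P : ℝ) ^ 2 * ((Λ : ℝ) + 1) * Real.exp (-σ * Λ) := by
  obtain ⟨σ, C, Λ0, hσ, hC, hmain⟩ := hsq c0 hc0
  set ε : ℝ := 1 / 2 - θ with hεdef
  have hε : 0 < ε := by rw [hεdef]; linarith
  have hθε : θ = 1 / 2 - ε := by rw [hεdef]; ring
  have hb0 : (2 : ℝ) ≤ b := by exact_mod_cast hb
  have hbp : (0 : ℝ) < b := by linarith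
  have hb1 : (1 : ℝ) ≤ b := by linarith
  have hL := log_pos_b hb
  have hBp := BB_pos hb
  set σ' : ℝ := min (σ / 2) (ε * Real.log b) with hσ'
  have hσ'0 : 0 < σ' := by positivity
  refine ⟨σ', b * (4 * BB b) + b ^ 2 * Real.sqrt C, Λ0, hσ'0, by positivity, ?_⟩
  intro Λ ℓ P hΛ hℓ hP hPL hPc
  have hPp : (0 : ℝ) < P := by
    have : 0 < P := by omega
    exact_mod_cast this
  set M : ℝ := Real.sqrt ((b : ℝ) ^ Λ) * (P : ℝ) ^ 2 * Real.exp (-σ' * Λ) with hM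
  have hM0 : 0 < M := by positivity
  have hT : ∀ ℓ' : ℕ, ℓ' ≤ Λ → (b : ℝ) ^ (ℓ' / 2 + 2) * TS b ℓ' P ≤ b ^ 2 * Real.sqrt C * M := by
    intro ℓ' hℓ'
    have h1 := hmain Λ ℓ' P hΛ hℓ' hP hPL hPc
    unfold BdS at h1
    have h2 : ((b : ℝ) ^ (ℓ' / 2) * TS b ℓ' P) ^ 2 ≤ C * (b : ℝ) ^ Λ * (P : ℝ) ^ 4 *
        Real.exp (-σ * Λ) := by
      refine le_trans ?_ h1
      rw [mul_pow]
      refine mul_le_mul_of_nonneg_right ?_ (by positivity)
      rw [← pow_mul]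
      exact pow_le_pow_right₀ hb1 (by omega)
    have h3 : (b : ℝ) ^ (ℓ' / 2) * TS b ℓ' P ≤ Real.sqrt C * Real.sqrt ((b : ℝ) ^ Λ) *
        (P : ℝ) ^ 2 * Real.exp (-(σ / 2) * Λ) := by
      refine le_of_sq_le_sq ?_ (by positivity)
      refine h2.trans (le_of_eq ?_)
      rw [mul_pow, mul_pow, mul_pow, Real.sq_sqrt hC.le, Real.sq_sqrt (by positivity),
        ← Real.exp_nat_mul, ← pow_mul]
      congr 2
      push_cast; ring
    have h4 : Real.exp (-(σ / 2) * Λ) ≤ Real.exp (-σ' * Λ) := by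
      rw [Real.exp_le_exp]
      have : (0 : ℝ) ≤ Λ := Nat.cast_nonneg _
      have h5 : σ' ≤ σ / 2 := min_le_left _ _
      nlinarith
    calc (b : ℝ) ^ (ℓ' / 2 + 2) * TS b ℓ' P = b ^ 2 * ((b : ℝ) ^ (ℓ' / 2) * TS b ℓ' P) := by
          rw [pow_add]; ring
      _ ≤ b ^ 2 * (Real.sqrt C * Real.sqrt ((b : ℝ) ^ Λ) * (P : ℝ) ^ 2 *
          Real.exp (-(σ / 2) * Λ)) := mul_le_mul_of_nonneg_left h3 (by positivity)
      _ ≤ b ^ 2 * (Real.sqrt C * Real.sqrt ((b : ℝ) ^ Λ) * (P : ℝ) ^ 2 *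
          Real.exp (-σ' * Λ)) := by gcongr
      _ = _ := by rw [hM]; ring
  have hJ : (b : ℝ) * ((JS b P).card : ℝ) ≤ b * (4 * BB b) * M := by
    have h1 := card_JS_le (b := b) (P := P)
    have h2 : (P : ℝ) ≤ Real.sqrt ((b : ℝ) ^ Λ) * Real.exp (-σ' * Λ) := by
      have h3 : Real.sqrt ((b : ℝ) ^ Λ) = Real.exp (Real.log b * Λ / 2) := by
        rw [Real.sqrt_eq_iff_mul_self_eq (by positivity) (Real.exp_pos _).le, ← Real.exp_add,
          pow_eq_exp hb]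
        congr 1; ring
      rw [h3, ← Real.exp_add]
      nth_rewrite 1 [← Real.exp_log hPp]
      rw [Real.exp_le_exp]
      have h6 : σ' * Λ ≤ ε * Real.log b * Λ :=
        mul_le_mul_of_nonneg_right (min_le_right _ _) (Nat.cast_nonneg _)
      rw [hθε] at hPL
      linarith
    calc (b : ℝ) * ((JS b P).card : ℝ) ≤ b * (4 * BB b * (P : ℝ) ^ 3) :=
          mul_le_mul_of_nonneg_left h1 hbp.le
      _ = b * (4 * BB b) * ((P : ℝ) ^ 2 * P) := by ring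
      _ ≤ b * (4 * BB b) * ((P : ℝ) ^ 2 * (Real.sqrt ((b : ℝ) ^ Λ) * Real.exp (-σ' * Λ))) := by
          gcongr
      _ = _ := by rw [hM]; ring
  have hfam := fam_JS hb P
  have hrec : ∀ ℓ' : ℕ, ℓ' ≤ Λ → ∑ x ∈ JS b P, S b ℓ' (pt b x) ≤
      b * (4 * BB b) * M + ℓ' * (b ^ 2 * Real.sqrt C * M) := by
    intro ℓ'
    induction ℓ' using two_step_induction with
    | h0 =>
      intro _
      have : ∑ x ∈ JS b P, S b 0 (pt b x) = (b : ℝ) * ((JS b P).card : ℝ) := by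
        show ∑ x ∈ JS b P, (b : ℝ) = _
        rw [sum_const, nsmul_eq_mul, mul_comm]
      rw [this]
      simpa using hJ
    | h1 =>
      intro _
      have : ∑ x ∈ JS b P, S b 1 (pt b x) = (b : ℝ) * ((JS b P).card : ℝ) := by
        show ∑ x ∈ JS b P, (b : ℝ) = _
        rw [sum_const, nsmul_eq_mul, mul_comm]
      rw [this]
      have : 0 ≤ ((1 : ℕ) : ℝ) * (b ^ 2 * Real.sqrt C * M) := by positivity
      linarith
    | h2 ℓ' ih =>
      intro hℓ'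
      have h1 := ih (by omega)
      have h2 := hT ℓ' (by omega)
      have h3 : ∑ x ∈ JS b P, S b (ℓ' + 2) (pt b x) =
          (b : ℝ) ^ (ℓ' / 2 + 2) * TS b ℓ' P + ∑ x ∈ JS b P, S b ℓ' (pt b x) := by
        have h4 : ∀ x ∈ JS b P, S b (ℓ' + 2) (pt b x) =
            (b : ℝ) ^ (ℓ' / 2 + 2) * blk b ℓ' 0 ((ℓ' + 1) / 2) ((b : ℝ) ^ 1 * pt b x) +
              S b ℓ' ((b : ℝ) ^ 1 * pt b x) := by
          intro x _
          rw [pow_one]
          rfl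
        rw [Finset.sum_congr rfl h4, Finset.sum_add_distrib, ← Finset.mul_sum,
          hfam.perm 1 (fun y => blk b ℓ' 0 ((ℓ' + 1) / 2) y) (fun y n => blk_add_int _ _ _ _ _ _),
          hfam.perm 1 (S b ℓ') (S_add_int b ℓ')]
        rfl
      rw [h3]
      push_cast
      have h5 : 0 ≤ b ^ 2 * Real.sqrt C * M := by positivity
      linarith
  refine (hrec ℓ hℓ).trans ?_
  have hℓr : (ℓ : ℝ) ≤ Λ := by exact_mod_cast hℓ
  have hΛ0 : (0 : ℝ) ≤ Λ := Nat.cast_nonneg _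
  calc b * (4 * BB b) * M + ℓ * (b ^ 2 * Real.sqrt C * M)
      ≤ b * (4 * BB b) * M * ((Λ : ℝ) + 1) + ((Λ : ℝ) + 1) * (b ^ 2 * Real.sqrt C * M) := by
        refine add_le_add ?_ ?_
        · have : 0 ≤ b * (4 * BB b) * M := by positivity
          nlinarith
        · refine mul_le_mul_of_nonneg_right (by linarith) (by positivity)
    _ = _ := by rw [hM]; ring

/-- Palindromes divisible by squares of primes, one dyadic block. -/
theorem sq_blockC {b : ℕ} (hb : 2 ≤ b) {θ c0 : ℝ} (hθ : θ < 1 / 2) (hcen : HasCen b θ)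
    (hsq : HasSq b θ) (hc0 : 0 < c0) :
    ∃ (σ C : ℝ) (Λ0 : ℕ), 0 < σ ∧ 0 < C ∧ ∀ Λ P H : ℕ, Λ0 ≤ Λ → b + 2 ≤ P → H ≤ b ^ (Λ / 2 + 1) →
      Real.log P ≤ θ * Real.log b * Λ → c0 * Real.log b * Λ ≤ Real.log P →
      ∑ p ∈ (Ico P (2 * P)).filter Nat.Prime, (cnt b Λ H (p ^ 2) 0 : ℝ) ≤
        C * Real.sqrt ((b : ℝ) ^ Λ) * ((Λ : ℝ) + 1) * Real.exp (-σ * Λ) := by
  obtain ⟨σ1, C1, Λ1, hσ1, hC1, h1⟩ := sum_S_sq_leC hb hθ hsq hc0
  obtain ⟨σ2, δ2, C2, hσ2, hδ2, hC2, h2⟩ := sum_S_leC hb hθ hcen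
  have hb0 : (2 : ℝ) ≤ b := by exact_mod_cast hb
  have hbp : (0 : ℝ) < b := by linarith
  have hb1 : (1 : ℝ) ≤ b := by linarith
  have hL := log_pos_b hb
  set L := Real.log b with hLdef
  set σ' : ℝ := min σ1 (c0 * L) with hσ'
  refine ⟨σ', C1 + C2 + b, Λ1, by positivity, by positivity, ?_⟩
  intro Λ P H hΛ hP hH hPL hPc
  have hPp : (0 : ℝ) < P := by
    have : 0 < P := by omega
    exact_mod_cast this
  have hΛn : (0 : ℝ) ≤ Λ := Nat.cast_nonneg _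
  -- each prime is coprime to `b (b^2-1)`
  have hcop : ∀ p ∈ (Ico P (2 * P)).filter Nat.Prime, p.Coprime b ∧ p.Coprime (b ^ 2 - 1) := by
    intro p hp
    rw [mem_filter, mem_Ico] at hp
    have hpp := hp.2
    constructor
    · rw [hpp.coprime_iff_not_dvd]
      intro h
      have := Nat.le_of_dvd (by omega) h
      omega
    · rw [hpp.coprime_iff_not_dvd]
      intro h
      have h3 : b ^ 2 - 1 = (b + 1) * (b - 1) := by
        have := Nat.sq_sub_sq b 1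
        simpa using this
      rw [h3, hpp.dvd_mul] at h
      rcases h with h | h
      · have := Nat.le_of_dvd (by omega) h
        omega
      · have := Nat.le_of_dvd (by omega) h
        omega
  have hterm : ∀ p ∈ (Ico P (2 * P)).filter Nat.Prime, (cnt b Λ H (p ^ 2) 0 : ℝ) ≤
      (H : ℝ) / (P : ℝ) ^ 2 + 1 / (P : ℝ) ^ 2 *
        ∑ c ∈ (range (p ^ 2)).filter (fun c => ¬ p ^ 2 ∣ (b ^ 2 - 1) * c),
          S b Λ ((c : ℝ) / ((p ^ 2 : ℕ) : ℝ)) := by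
    intro p hp
    have hc := hcop p hp
    rw [mem_filter, mem_Ico] at hp
    have hp0 : 0 < p := hp.2.pos
    have h3 := cnt_diff_le hb (ℓ := Λ) (H := H) (q := p ^ 2) (by positivity) hH 0
    have h4 : Nat.gcd (p ^ 2) (b ^ 2 - 1) = 1 := Nat.Coprime.pow_left 2 hc.2
    rw [h4] at h3
    have h5 : (cnt b Λ H 1 0 : ℝ) ≤ H := by
      unfold cnt
      have := card_filter_le (range H) (fun h => (pal b Λ h : ℤ) ≡ 0 [ZMOD (1 : ℕ)])
      rw [card_range] at this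
      exact_mod_cast this
    have hPp2 : (P : ℝ) ^ 2 ≤ ((p ^ 2 : ℕ) : ℝ) := by
      push_cast
      exact pow_le_pow_left₀ hPp.le (by exact_mod_cast hp.1.1) 2
    have h6 : (1 : ℝ) / ((p ^ 2 : ℕ) : ℝ) ≤ 1 / (P : ℝ) ^ 2 :=
      one_div_le_one_div_of_le (by positivity) hPp2
    have hS0 : 0 ≤ ∑ c ∈ (range (p ^ 2)).filter (fun c => ¬ p ^ 2 ∣ (b ^ 2 - 1) * c),
          S b Λ ((c : ℝ) / ((p ^ 2 : ℕ) : ℝ)) := Finset.sum_nonneg fun _ _ => S_nonneg _ _ _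
    have h7 := (abs_le.mp h3).2
    have h8 : ((1 : ℕ) : ℝ) / ((p ^ 2 : ℕ) : ℝ) * (cnt b Λ H 1 0 : ℝ) ≤ 1 / (P : ℝ) ^ 2 * H := by
      push_cast at h6 ⊢
      exact mul_le_mul h6 h5 (Nat.cast_nonneg _) (by positivity)
    calc (cnt b Λ H (p ^ 2) 0 : ℝ) ≤ ((1 : ℕ) : ℝ) / ((p ^ 2 : ℕ) : ℝ) * (cnt b Λ H 1 0 : ℝ) +
          1 / ((p ^ 2 : ℕ) : ℝ) *
          ∑ c ∈ (range (p ^ 2)).filter (fun c => ¬ p ^ 2 ∣ (b ^ 2 - 1) * c),
          S b Λ ((c : ℝ) / ((p ^ 2 : ℕ) : ℝ)) := by linarith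
      _ ≤ 1 / (P : ℝ) ^ 2 * H + 1 / (P : ℝ) ^ 2 *
          ∑ c ∈ (range (p ^ 2)).filter (fun c => ¬ p ^ 2 ∣ (b ^ 2 - 1) * c),
          S b Λ ((c : ℝ) / ((p ^ 2 : ℕ) : ℝ)) :=
          add_le_add h8 (mul_le_mul_of_nonneg_right h6 hS0)
      _ = _ := by ring
  refine (Finset.sum_le_sum hterm).trans ?_
  rw [Finset.sum_add_distrib, ← Finset.mul_sum, sum_const, nsmul_eq_mul]
  have hfil : (Ico P (2 * P)).filter Nat.Prime =
      (Ico P (2 * P)).filter (fun p => p.Prime ∧ p.Coprime b) := by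
    refine Finset.filter_congr fun p hp => ?_
    constructor
    · intro h
      exact ⟨h, (hcop p (mem_filter.mpr ⟨hp, h⟩)).1⟩
    · exact fun h => h.1
  have hcard : (((Ico P (2 * P)).filter Nat.Prime).card : ℝ) ≤ P := by
    have h3 : ((Ico P (2 * P)).filter Nat.Prime).card ≤ P := by
      refine (card_filter_le _ _).trans ?_
      rw [Nat.card_Ico]; omega
    exact_mod_cast h3
  have hexpP : 1 / (P : ℝ) ≤ Real.exp (-σ' * Λ) := by
    have h3 : 1 / (P : ℝ) = Real.exp (-Real.log P) := by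
      rw [Real.exp_neg, Real.exp_log hPp, one_div]
    rw [h3, Real.exp_le_exp]
    have h4 : σ' * Λ ≤ c0 * L * Λ := mul_le_mul_of_nonneg_right (min_le_right _ _) hΛn
    linarith
  have hsq : (b : ℝ) ^ (Λ / 2) ≤ Real.sqrt ((b : ℝ) ^ Λ) := by
    rw [Real.le_sqrt (by positivity) (by positivity), ← pow_mul]
    exact pow_le_pow_right₀ hb1 (by omega)
  have t1 : (((Ico P (2 * P)).filter Nat.Prime).card : ℝ) * ((H : ℝ) / (P : ℝ) ^ 2) ≤
      b * Real.sqrt ((b : ℝ) ^ Λ) * ((Λ : ℝ) + 1) * Real.exp (-σ' * Λ) := by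
    have hHr : (H : ℝ) ≤ (b : ℝ) ^ (Λ / 2 + 1) := by exact_mod_cast hH
    calc (((Ico P (2 * P)).filter Nat.Prime).card : ℝ) * ((H : ℝ) / (P : ℝ) ^ 2)
        ≤ P * ((b : ℝ) ^ (Λ / 2 + 1) / (P : ℝ) ^ 2) := by gcongr
      _ = b * (b : ℝ) ^ (Λ / 2) * (1 / (P : ℝ)) := by rw [pow_succ]; field_simp
      _ ≤ b * Real.sqrt ((b : ℝ) ^ Λ) * Real.exp (-σ' * Λ) := by gcongr
      _ = b * Real.sqrt ((b : ℝ) ^ Λ) * 1 * Real.exp (-σ' * Λ) := by ring
      _ ≤ b * Real.sqrt ((b : ℝ) ^ Λ) * ((Λ : ℝ) + 1) * Real.exp (-σ' * Λ) := by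
        gcongr; linarith
  have t2 : 1 / (P : ℝ) ^ 2 * ∑ p ∈ (Ico P (2 * P)).filter Nat.Prime,
        ∑ c ∈ (range (p ^ 2)).filter (fun c => ¬ p ^ 2 ∣ (b ^ 2 - 1) * c),
          S b Λ ((c : ℝ) / ((p ^ 2 : ℕ) : ℝ)) ≤
      (C1 + C2) * Real.sqrt ((b : ℝ) ^ Λ) * ((Λ : ℝ) + 1) * Real.exp (-σ' * Λ) := by
    rw [hfil]
    have h3 := sum_frac_sq_le hb (S b Λ) (S_nonneg b Λ) P
    have h4 := h1 Λ Λ P hΛ le_rfl (by omega) hPL hPc
    have h5 := h2 Λ Λ P le_rfl (by omega) hPL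
    have h6 : ∑ x ∈ JS b P, S b Λ (pt b x) ≤ C1 * Real.sqrt ((b : ℝ) ^ Λ) * (P : ℝ) ^ 2 *
        ((Λ : ℝ) + 1) * Real.exp (-σ' * Λ) := by
      refine h4.trans ?_
      have : Real.exp (-σ1 * Λ) ≤ Real.exp (-σ' * Λ) := by
        rw [Real.exp_le_exp]
        have : σ' * Λ ≤ σ1 * Λ := mul_le_mul_of_nonneg_right (min_le_left _ _) hΛn
        linarith
      gcongr
    have h7 : ∑ x ∈ J b P, S b Λ (pt b x) ≤ C2 * Real.sqrt ((b : ℝ) ^ Λ) * (P : ℝ) ^ 2 *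
        ((Λ : ℝ) + 1) * Real.exp (-σ' * Λ) := by
      refine h5.trans ?_
      have h8 : Real.exp (-σ2 * Real.sqrt Λ - δ2 * Real.log P) ≤ 1 := by
        rw [Real.exp_le_one_iff]
        have h9 := Real.sqrt_nonneg (Λ : ℝ)
        have h10 : 0 ≤ Real.log P := Real.log_nonneg (by
          have : 1 ≤ P := by omega
          exact_mod_cast this)
        have : 0 ≤ σ2 * Real.sqrt Λ := by positivity
        have : 0 ≤ δ2 * Real.log P := by positivity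
        linarith
      calc C2 * Real.sqrt ((b : ℝ) ^ Λ) * P * ((Λ : ℝ) + 1) *
            Real.exp (-σ2 * Real.sqrt Λ - δ2 * Real.log P)
          ≤ C2 * Real.sqrt ((b : ℝ) ^ Λ) * P * ((Λ : ℝ) + 1) * 1 := by gcongr
        _ = C2 * Real.sqrt ((b : ℝ) ^ Λ) * (P : ℝ) ^ 2 * ((Λ : ℝ) + 1) * (1 / P) := by
            field_simp
        _ ≤ _ := by gcongr
    have h8 := h3.trans (add_le_add h6 h7)
    rw [one_div, inv_mul_le_iff₀ (by positivity)]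
    refine h8.trans (le_of_eq ?_)
    ring
  calc _ ≤ b * Real.sqrt ((b : ℝ) ^ Λ) * ((Λ : ℝ) + 1) * Real.exp (-σ' * Λ) +
        (C1 + C2) * Real.sqrt ((b : ℝ) ^ Λ) * ((Λ : ℝ) + 1) * Real.exp (-σ' * Λ) := add_le_add t1 t2
    _ = _ := by ring


/-- Palindromes with `Λ + 1` digits divisible by squares of primes in a long range. -/
theorem sq_totalC {b : ℕ} (hb : 2 ≤ b) {θ c0 : ℝ} (hθ : θ < 1 / 2) (hcen : HasCen b θ)
    (hsq0 : HasSq b θ) (hc0 : 0 < c0) :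
    ∃ (σ C : ℝ) (Λ0 : ℕ), 0 < σ ∧ 0 < C ∧ ∀ Λ u v H : ℕ, Λ0 ≤ Λ → b + 2 ≤ u →
      H ≤ b ^ (Λ / 2 + 1) →
      Real.log v ≤ θ * Real.log b * Λ → c0 * Real.log b * Λ ≤ Real.log u →
      ∑ p ∈ (Ico u v).filter Nat.Prime, (cnt b Λ H (p ^ 2) 0 : ℝ) ≤
        C * Real.sqrt ((b : ℝ) ^ Λ) * Real.exp (-σ * Λ) := by
  obtain ⟨σ, C, Λ0, hσ, hC, hmain⟩ := sq_blockC hb hθ hcen hsq0 hc0
  obtain ⟨C', hC', hpoly⟩ := exists_poly_mul_exp_le hσ 2
  have hL := log_pos_b hb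
  set L := Real.log b with hLdef
  refine ⟨σ / 2, 2 * (1 + L) * C * C', Λ0, by positivity, by positivity, ?_⟩
  intro Λ u v H hΛ hu hH hv hu'
  have hΛn : (0 : ℝ) ≤ Λ := Nat.cast_nonneg _
  set J := Nat.log 2 v + 1 with hJ
  have hJv : v ≤ u * 2 ^ J := by
    have h1 : v < 2 ^ J := Nat.lt_pow_succ_log_self (by norm_num) _
    calc v ≤ 2 ^ J := h1.le
      _ = 1 * 2 ^ J := (one_mul _).symm
      _ ≤ u * 2 ^ J := Nat.mul_le_mul_right _ (by omega)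
  have h0 := dyadic_le (fun p => if p.Prime then (cnt b Λ H (p ^ 2) 0 : ℝ) else 0)
    (fun n => by split_ifs <;> positivity) (u := u) (v := v) (J := J) (by omega) hJv
  simp only [← Finset.sum_filter] at h0
  refine h0.trans ?_
  set W : ℝ := C * Real.sqrt ((b : ℝ) ^ Λ) * ((Λ : ℝ) + 1) * Real.exp (-σ * Λ) with hW
  have hW0 : 0 ≤ W := by positivity
  have h1 : ∀ j ∈ (range J).filter (fun j => u * 2 ^ j < v),
      ∑ p ∈ (Ico (u * 2 ^ j) (2 * (u * 2 ^ j))).filter Nat.Prime, (cnt b Λ H (p ^ 2) 0 : ℝ) ≤ W := by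
    intro j hj
    rw [mem_filter] at hj
    have h2j : 1 ≤ 2 ^ j := Nat.one_le_two_pow
    have hPu : u ≤ u * 2 ^ j := Nat.le_mul_of_pos_right _ h2j
    refine hmain Λ (u * 2 ^ j) H hΛ (by omega) hH ?_ ?_
    · refine (Real.log_le_log ?_ ?_).trans hv
      · have : 0 < u * 2 ^ j := by omega
        exact_mod_cast this
      · exact_mod_cast hj.2.le
    · refine hu'.trans (Real.log_le_log ?_ ?_)
      · have : 0 < u := by omega
        exact_mod_cast this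
      · exact_mod_cast hPu
  refine (Finset.sum_le_sum h1).trans ?_
  rw [sum_const, nsmul_eq_mul]
  have hcard : (((range J).filter (fun j => u * 2 ^ j < v)).card : ℝ) ≤ 2 * (1 + L) * ((Λ : ℝ) + 1) := by
    have h2 : (((range J).filter (fun j => u * 2 ^ j < v)).card : ℝ) ≤ J := by
      have := card_filter_le (range J) (fun j => u * 2 ^ j < v)
      rw [card_range] at this
      exact_mod_cast this
    refine h2.trans ?_
    rcases Nat.eq_zero_or_pos v with h | h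
    · rw [hJ, h]
      simp only [Nat.log_zero_right]
      push_cast
      nlinarith
    · have h3 : 2 ^ Nat.log 2 v ≤ v := Nat.pow_log_le_self 2 (by omega)
      have h4 : ((2 : ℝ)) ^ Nat.log 2 v ≤ v := by exact_mod_cast h3
      have h5 := Real.log_le_log (by positivity) h4
      rw [Real.log_pow] at h5
      have h6 : (1 : ℝ) / 2 ≤ Real.log 2 := by
        have := Real.log_two_gt_d9; linarith
      have h7 : (Nat.log 2 v : ℝ) * (1 / 2) ≤ (Nat.log 2 v : ℝ) * Real.log 2 :=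
        mul_le_mul_of_nonneg_left h6 (Nat.cast_nonneg _)
      have h8 : θ * L * Λ ≤ L * Λ := by
        have : 0 ≤ (1 - θ) * (L * Λ) := mul_nonneg (by linarith) (by positivity)
        linarith
      rw [hJ]
      push_cast
      nlinarith
  calc (((range J).filter (fun j => u * 2 ^ j < v)).card : ℝ) * W
      ≤ 2 * (1 + L) * ((Λ : ℝ) + 1) * W := mul_le_mul_of_nonneg_right hcard hW0
    _ = 2 * (1 + L) * C * Real.sqrt ((b : ℝ) ^ Λ) * (((Λ : ℝ) + 1) ^ 2 * Real.exp (-σ * Λ)) := by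
        rw [hW]; ring
    _ ≤ 2 * (1 + L) * C * Real.sqrt ((b : ℝ) ^ Λ) * (C' * Real.exp (-(σ / 2) * Λ)) := by
        have := hpoly Λ
        gcongr
    _ = _ := by ring

end Pool.Agent.PalL
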