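import Pool.Agent.PalSieve.PresPal
import Pool.Agent.PalL.WMainR
import Pool.Agent.PalL.SqC

/-!
# The family of palindromes at a general level
-/

namespace Pool.Agent.PalL

open Finset Pool.Agent.Pal

/-- The total error. -/
lemma Etot_leC {b : ℕ} (hb : 2 ≤ b) {K w : ℕ} (hK : 0 < K) (hKb : K.Coprime b) (hbw : b ≤ w)
    {θ : ℝ} (hθ : θ < 1 / 2) (hcen : HasCen b θ) :
    ∃ σ C : ℝ, 0 < σ ∧ 0 < C ∧ ∀ m D : ℕ, 1 ≤ m → 1 ≤ D →
      Real.log ((K * (b ^ 2 - 1) * D : ℕ) : ℝ) ≤ θ * Real.log b * ((2 * m : ℕ) : ℝ) →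
      Sv.Etot w D (rr b m K) ≤ C * (b : ℝ) ^ m * Real.exp (-σ * Real.sqrt ((2 * m : ℕ) : ℝ)) := by
  obtain ⟨σ, C, hσ, hC, hmain⟩ := sum_moduli_weightedC hb hθ hcen 3
  refine ⟨σ, 2 * C, hσ, by positivity, ?_⟩
  intro m D hm hD hlog
  have hB3 := sq_sub_one_pos hb
  have hB0 : 0 < b ^ 2 - 1 := by omega
  set B := b ^ 2 - 1 with hB
  have hBb : B.Coprime b := by
    have hb1 : 1 ≤ b ^ 2 := Nat.one_le_pow _ _ (by omega)
    have h2 : b ^ 2 - 1 + 1 = b ^ 2 := Nat.sub_add_cancel hb1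
    have h3 : (b ^ 2 - 1).Coprime (b ^ 2) := by
      rw [← h2]; simp
    exact Nat.Coprime.coprime_dvd_right (dvd_pow_self b two_ne_zero) h3
  have h1 := hmain (2 * m) (2 * m) (K * B * D) (by omega) le_rfl (by
    have : 0 < K * B * D := by positivity
    omega) hlog
  have h2 : Real.sqrt ((b : ℝ) ^ (2 * m)) = (b : ℝ) ^ m := by
    rw [mul_comm, pow_mul, Real.sqrt_sq (by positivity)]
  rw [h2] at h1
  have h3 : Sv.Etot w D (rr b m K) ≤ 2 * ∑ q ∈ (Icc 1 (K * B * D)).filter (fun q => q.Coprime b),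
      (q.divisors.card : ℝ) ^ 3 * (1 / (q : ℝ) *
        ∑ c ∈ (range q).filter (fun c => ¬ q ∣ (b ^ 2 - 1) * c), S b (2 * m) ((c : ℝ) / q)) := by
    unfold Sv.Etot
    have hinj : Set.InjOn (fun q => K * B * q) (Sv.MM w D : Set ℕ) := by
      intro x _ y _ hxy
      exact Nat.eq_of_mul_eq_mul_left (by positivity) hxy
    have e1 : ∀ q ∈ Sv.MM w D, (q.divisors.card : ℝ) ^ 3 * rr b m K q ≤
        2 * (((K * B * q).divisors.card : ℝ) ^ 3 * (1 / ((K * B * q : ℕ) : ℝ) *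
          ∑ c ∈ (range (K * B * q)).filter (fun c => ¬ K * B * q ∣ (b ^ 2 - 1) * c),
            S b (2 * m) ((c : ℝ) / ((K * B * q : ℕ) : ℝ)))) := by
      intro q hq
      unfold Sv.MM at hq
      rw [mem_filter, mem_Ico] at hq
      have e2 : q.divisors.card ≤ (K * B * q).divisors.card := by
        refine card_le_card (Nat.divisors_subset_of_dvd ?_ (Dvd.intro_left _ rfl))
        have : 0 < K * B * q := by
          have := hq.1.1
          positivity
        omega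
      have e3 : (q.divisors.card : ℝ) ^ 3 ≤ ((K * B * q).divisors.card : ℝ) ^ 3 :=
        pow_le_pow_left₀ (Nat.cast_nonneg _) (by exact_mod_cast e2) 3
      calc (q.divisors.card : ℝ) ^ 3 * rr b m K q ≤
            ((K * B * q).divisors.card : ℝ) ^ 3 * rr b m K q :=
            mul_le_mul_of_nonneg_right e3 (rr_nonneg _ _ _ _)
        _ = _ := by unfold rr; ring
    refine (Finset.sum_le_sum e1).trans ?_
    rw [← Finset.mul_sum]
    refine mul_le_mul_of_nonneg_left ?_ (by norm_num)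
    rw [← sum_image (f := fun q : ℕ => (q.divisors.card : ℝ) ^ 3 * (1 / (q : ℝ) *
        ∑ c ∈ (range q).filter (fun c => ¬ q ∣ (b ^ 2 - 1) * c), S b (2 * m) ((c : ℝ) / q))) hinj]
    refine sum_le_sum_of_subset_of_nonneg ?_ fun q _ _ => ?_
    · intro x hx
      obtain ⟨q, hq, rfl⟩ := mem_image.mp hx
      unfold Sv.MM at hq
      rw [mem_filter, mem_Ico] at hq
      rw [mem_filter, mem_Icc]
      refine ⟨⟨?_, Nat.mul_le_mul_left _ hq.1.2.le⟩, ?_⟩
      · have : 0 < K * B * q := by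
          have := hq.1.1
          positivity
        omega
      · refine Nat.Coprime.mul_left (Nat.Coprime.mul_left hKb hBb) ?_
        refine Nat.Coprime.symm (Nat.Coprime.symm ?_)
        rw [Nat.coprime_iff_gcd_eq_one]
        by_contra hne
        obtain ⟨p, hp, hpd⟩ := Nat.exists_prime_and_dvd hne
        have p1 : p ∣ q := hpd.trans (Nat.gcd_dvd_left _ _)
        have p2 : p ∣ b := hpd.trans (Nat.gcd_dvd_right _ _)
        have p3 := hq.2 p (Nat.mem_primeFactors.mpr ⟨hp, p1, by omega⟩)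
        have p4 := Nat.le_of_dvd (by omega) p2
        omega
    · have : 0 ≤ ∑ c ∈ (range q).filter (fun c => ¬ q ∣ (b ^ 2 - 1) * c),
          S b (2 * m) ((c : ℝ) / q) := Finset.sum_nonneg fun _ _ => S_nonneg _ _ _
      positivity
  calc Sv.Etot w D (rr b m K) ≤ 2 * (C * (b : ℝ) ^ m * Real.exp (-σ * Real.sqrt ((2 * m : ℕ) : ℝ))) :=
        h3.trans (mul_le_mul_of_nonneg_left h1 (by norm_num))
    _ = _ := by ring


/-- The parameter `Y`. -/
lemma exists_YE {E : ℕ} (hE : E ≠ 0) (b m : ℕ) : ∃ Y : ℕ, b ^ (5 * (2 * m + 1)) < Y ^ E :=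
  ⟨b ^ (5 * (2 * m + 1)) + 1, (Nat.lt_succ_self _).trans_le (Nat.le_self_pow hE _)⟩

/-- The parameter `Y`. -/
def YE {E : ℕ} (hE : E ≠ 0) (b m : ℕ) : ℕ := Nat.find (exists_YE hE b m)

lemma YE_spec {E : ℕ} (hE : E ≠ 0) (b m : ℕ) : b ^ (5 * (2 * m + 1)) < (YE hE b m) ^ E :=
  Nat.find_spec (exists_YE hE b m)

lemma YE_min {E : ℕ} (hE : E ≠ 0) {b m Z : ℕ} (h : Z < YE hE b m) :
    Z ^ E ≤ b ^ (5 * (2 * m + 1)) := by
  have := Nat.find_min (exists_YE hE b m) h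
  omega

lemma YE_ge {E : ℕ} (hE : E ≠ 0) {b m Y0 : ℕ} (hb : 2 ≤ b) (hm : Y0 ^ E ≤ m) : Y0 ≤ YE hE b m := by
  by_contra hlt
  push Not at hlt
  have h1 := YE_spec hE b m
  have h2 : (YE hE b m) ^ E ≤ Y0 ^ E := Nat.pow_le_pow_left hlt.le _
  have h3 : m < b ^ (5 * (2 * m + 1)) :=
    (Nat.lt_pow_self (by omega : 1 < b)).trans_le (Nat.pow_le_pow_right (by omega) (by omega))
  omega

lemma log_YE_gt {E : ℕ} (hE : E ≠ 0) {b m : ℕ} (hb : 2 ≤ b) (hY : 2 ≤ YE hE b m) :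
    5 * (2 * (m : ℝ) + 1) * Real.log b / E < Real.log (YE hE b m) := by
  have h1 : ((b ^ (5 * (2 * m + 1)) : ℕ) : ℝ) < (((YE hE b m) ^ E : ℕ) : ℝ) := by
    exact_mod_cast YE_spec hE b m
  push_cast at h1
  have hb0 : (0 : ℝ) < b := by
    have : (2 : ℝ) ≤ b := by exact_mod_cast hb
    linarith
  have h2 := Real.log_lt_log (by positivity) h1
  rw [Real.log_pow, Real.log_pow] at h2
  push_cast at h2
  have hEr : (0 : ℝ) < E := by
    have : 0 < E := Nat.pos_of_ne_zero hE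
    exact_mod_cast this
  rw [div_lt_iff₀ hEr]
  linarith

lemma log_YE_le {E : ℕ} (hE : E ≠ 0) {b m : ℕ} (hb : 2 ≤ b) (hY : 2 ≤ YE hE b m) :
    Real.log (YE hE b m) ≤ Real.log 2 + 5 * (2 * (m : ℝ) + 1) * Real.log b / E := by
  have h1 : (((YE hE b m - 1) ^ E : ℕ) : ℝ) ≤ ((b ^ (5 * (2 * m + 1)) : ℕ) : ℝ) := by
    exact_mod_cast YE_min hE (b := b) (m := m) (Z := YE hE b m - 1) (by omega)
  have hb0 : (0 : ℝ) < b := by
    have : (2 : ℝ) ≤ b := by exact_mod_cast hb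
    linarith
  have hZ : (1 : ℝ) ≤ ((YE hE b m - 1 : ℕ) : ℝ) := by
    have : 1 ≤ YE hE b m - 1 := by omega
    exact_mod_cast this
  have h3 : ((YE hE b m : ℕ) : ℝ) ≤ 2 * ((YE hE b m - 1 : ℕ) : ℝ) := by
    have : YE hE b m ≤ 2 * (YE hE b m - 1) := by omega
    exact_mod_cast this
  have hY0 : (0 : ℝ) < (YE hE b m : ℝ) := by
    have : 0 < YE hE b m := by omega
    exact_mod_cast this
  rw [Nat.cast_pow, Nat.cast_pow] at h1
  have h2 := Real.log_le_log (by positivity) h1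
  rw [Real.log_pow, Real.log_pow] at h2
  have h4 := Real.log_le_log hY0 h3
  rw [Real.log_mul (by norm_num) (by linarith)] at h4
  push_cast at h2
  have hEr : (0 : ℝ) < E := by
    have : 0 < E := Nat.pos_of_ne_zero hE
    exact_mod_cast this
  have h5 : Real.log ((YE hE b m - 1 : ℕ) : ℝ) ≤ 5 * (2 * (m : ℝ) + 1) * Real.log b / E := by
    rw [le_div_iff₀ hEr]
    linarith
  linarith

/-- The property of `h` that is counted. -/
def GdE (b m r E h : ℕ) : Prop :=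
  ArithmeticFunction.cardFactors (pal b (2 * m) h) ≤ r ∧
    ∀ p ∈ (pal b (2 * m) h).primeFactors, b ^ (40 * (2 * m + 1)) ≤ p ^ E

open Classical in
/-- The set of `h` that are counted. -/
noncomputable def GGE (b m r E : ℕ) : Finset ℕ :=
  (Ico (b ^ m) (2 * b ^ m)).filter (fun h => GdE b m r E h)

open Classical in
lemma GoodE_subset {E : ℕ} (hE : E ≠ 0) {b m K r : ℕ} :
    Sv.GoodR r (YE hE b m) (Ifam b m K) (pal b (2 * m)) ⊆ GGE b m r E := by
  intro h hh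
  unfold Sv.GoodR Ifam at hh
  unfold GGE
  rw [mem_filter, mem_filter] at hh
  rw [mem_filter]
  refine ⟨hh.1.1, hh.2.1, fun p hp => ?_⟩
  have h1 := hh.2.2 p hp
  calc b ^ (40 * (2 * m + 1)) = (b ^ (5 * (2 * m + 1))) ^ 8 := by
        rw [← pow_mul]; congr 1; ring
    _ ≤ (YE hE b m ^ E) ^ 8 := Nat.pow_le_pow_left (YE_spec hE b m).le _
    _ = (YE hE b m ^ 8) ^ E := by rw [← pow_mul, ← pow_mul, mul_comm]
    _ ≤ p ^ E := Nat.pow_le_pow_left h1 _

end Pool.Agent.PalL
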