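import Pool.Agent.PalL.Sums

/-!
# The first moment through a product of three factors
-/

namespace Pool.Agent.PalL

open Finset Pool.Agent.Pal

/-- The parameters of the argument in base `b`. -/
def Good (b M : ℕ) (e c : ℝ) : Prop :=
  2 ≤ b ∧ 1 ≤ M ∧ 250 * (M : ℝ) ≤ b ∧ 0 ≤ e ∧ (250 * (M : ℝ) / b) ^ 3 ≤ e / 2 ∧
    e * gbar M ≤ 1 / (256 * b) ∧ (1 + 1 / 600) * (b * gbar M) ≤ (b : ℝ) ^ c

/-- The weights `psi` dominate the auxiliary functions `hh`. -/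
lemma prod_hh_le {b ℓ i0 k : ℕ} (hb : 2 ≤ b) (h : i0 + k ≤ ℓ) (α : ℝ) :
    ∏ i ∈ Ico i0 (i0 + k + 1), hh b (α * wt b ℓ i) ≤
      ∏ i ∈ Ico i0 (i0 + k), psi (uu b ℓ i α) := by
  have hnn : ∀ s : Finset ℕ, 0 ≤ ∏ i ∈ s, hh b (α * wt b ℓ i) := fun s =>
    Finset.prod_nonneg fun _ _ => hh_nonneg _ _
  have hpn : 0 ≤ ∏ i ∈ Ico i0 (i0 + k), psi (uu b ℓ i α) :=
    Finset.prod_nonneg fun _ _ => psi_nonneg _
  refine (pow_le_pow_iff_left₀ (hnn _) hpn two_ne_zero).mp ?_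
  set H : ℝ := ∏ i ∈ Ico i0 (i0 + k + 1), hh b (α * wt b ℓ i) with hH
  have e1 : H = (∏ i ∈ Ico i0 (i0 + k), hh b (α * wt b ℓ i)) * hh b (α * wt b ℓ (i0 + k)) := by
    rw [hH, Finset.prod_Ico_succ_top (by omega)]
  have e2 : H = hh b (α * wt b ℓ i0) * ∏ i ∈ Ico i0 (i0 + k), hh b (α * wt b ℓ (i + 1)) := by
    rw [hH, Finset.prod_eq_prod_Ico_succ_bot (by omega)]
    congr 1
    rw [Finset.prod_Ico_add' (fun i => hh b (α * wt b ℓ i)) i0 (i0 + k) 1]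
  have h1 : H ≤ ∏ i ∈ Ico i0 (i0 + k), hh b (α * wt b ℓ i) := by
    rw [e1]
    exact mul_le_of_le_one_right (hnn _) (hh_le_one _ _)
  have h2 : H ≤ ∏ i ∈ Ico i0 (i0 + k), hh b (α * wt b ℓ (i + 1)) := by
    rw [e2]
    exact mul_le_of_le_one_left (Finset.prod_nonneg fun _ _ => hh_nonneg _ _) (hh_le_one _ _)
  calc H ^ 2 = H * H := sq _
    _ ≤ (∏ i ∈ Ico i0 (i0 + k), hh b (α * wt b ℓ i)) *
        ∏ i ∈ Ico i0 (i0 + k), hh b (α * wt b ℓ (i + 1)) :=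
        mul_le_mul h1 h2 (hnn _) (hnn _)
    _ = ∏ i ∈ Ico i0 (i0 + k), (hh b (α * wt b ℓ i) * hh b (α * wt b ℓ (i + 1))) := by
        rw [Finset.prod_mul_distrib]
    _ ≤ ∏ i ∈ Ico i0 (i0 + k), psi (uu b ℓ i α) ^ 2 := by
        refine Finset.prod_le_prod (fun i _ => mul_nonneg (hh_nonneg _ _) (hh_nonneg _ _)) ?_
        intro i hi
        rw [mem_Ico] at hi
        exact hh_mul_le hb _ _ _ (uu_eq (by omega) (by omega) α)
    _ = _ := by rw [Finset.prod_pow]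

/-- Assembly of the factors. -/
lemma assemble {P0 P1 p A c G H E h Pp W : ℝ} (nA : 0 ≤ A) (n1 : 0 ≤ P1) (n2 : 0 ≤ p) (nG : 0 ≤ G)
    (nH : 0 ≤ H) (nE : 0 ≤ E) (nc : 0 ≤ c) (nh : 0 ≤ h) (a1 : P0 ≤ A)
    (a2 : P1 ≤ c * (G * (H * E))) (a3 : p ≤ h) (a4 : H * h ≤ Pp) (a5 : Pp * E ≤ W) :
    P0 * (P1 * p) ≤ c * (A * (G * W)) := by
  have e1 : P1 * p ≤ (c * (G * (H * E))) * h := mul_le_mul a2 a3 n2 (by positivity)
  have e2 : (c * (G * (H * E))) * h = c * (G * ((H * h) * E)) := by ring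
  have e3 : (H * h) * E ≤ W := (mul_le_mul_of_nonneg_right a4 nE).trans a5
  have e4 : P1 * p ≤ c * (G * W) := by
    rw [e2] at e1
    refine e1.trans (mul_le_mul_of_nonneg_left (mul_le_mul_of_nonneg_left e3 nG) nc)
  calc P0 * (P1 * p) ≤ A * (P1 * p) := mul_le_mul_of_nonneg_right a1 (mul_nonneg n1 n2)
    _ ≤ A * (c * (G * W)) := mul_le_mul_of_nonneg_left e4 nA
    _ = _ := by ring

/-- The pointwise inequality. -/
theorem pointwise {b ℓ i0 k M : ℕ} (hb : 2 ≤ b) (hM1 : 1 ≤ M) (h : i0 + k ≤ ℓ) {e : ℝ}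
    (he : 0 ≤ e) (hMe : (250 * (M : ℝ) / b) ^ 3 ≤ e / 2) (α : ℝ) :
    (blk b ℓ 0 (i0 + k + 1) α) ^ 3 ≤ (1 + 1 / 600) ^ k *
      ((∏ i ∈ Ico 0 i0, phi b (α * wt b ℓ i) ^ 2) *
      ((∏ i ∈ Ico i0 (i0 + k), gg M (α * wt b ℓ i)) ^ 2 *
      ∏ i ∈ Ico i0 (i0 + k), (1 * (phi b (α * wt b ℓ i) ^ 2 * psi (uu b ℓ i α)) +
        e * gg M (α * wt b ℓ i)))) := by
  set x : ℕ → ℝ := fun i => α * wt b ℓ i with hx
  have hsplit : (blk b ℓ 0 (i0 + k + 1) α) ^ 3 = (∏ i ∈ Ico 0 i0, phi b (x i) ^ 3) *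
      ((∏ i ∈ Ico i0 (i0 + k), phi b (x i) ^ 3) * phi b (x (i0 + k)) ^ 3) := by
    unfold blk
    rw [← Finset.prod_Ico_consecutive _ (Nat.zero_le i0) (by omega : i0 ≤ i0 + k + 1),
      Finset.prod_Ico_succ_top (by omega : i0 ≤ i0 + k), mul_pow, mul_pow, ← Finset.prod_pow,
      ← Finset.prod_pow]
  rw [hsplit]
  have p0 : ∀ i, 0 ≤ phi b (x i) := fun i => phi_nonneg _ _
  have p1 : ∀ i, phi b (x i) ≤ 1 := fun i => phi_le_one _ _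
  have g0 : ∀ i, 0 ≤ gg M (x i) := fun i => gg_nonneg _ _
  have a1 : ∏ i ∈ Ico 0 i0, phi b (x i) ^ 3 ≤ ∏ i ∈ Ico 0 i0, phi b (x i) ^ 2 := by
    refine Finset.prod_le_prod (fun i _ => pow_nonneg (p0 i) 3) fun i _ => ?_
    exact pow_le_pow_of_le_one (p0 i) (p1 i) (by norm_num)
  have a2 : ∏ i ∈ Ico i0 (i0 + k), phi b (x i) ^ 3 ≤
      (1 + 1 / 600) ^ k * ((∏ i ∈ Ico i0 (i0 + k), gg M (x i)) ^ 2 *
        ((∏ i ∈ Ico i0 (i0 + k), hh b (x i)) *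
          ∏ i ∈ Ico i0 (i0 + k), (phi b (x i) ^ 2 + e * gg M (x i)))) := by
    have h1 : ∏ i ∈ Ico i0 (i0 + k), phi b (x i) ^ 3 ≤ ∏ i ∈ Ico i0 (i0 + k),
        ((1 + 1 / 600) * (gg M (x i) ^ 2 * (hh b (x i) * (phi b (x i) ^ 2 + e * gg M (x i))))) :=
      Finset.prod_le_prod (fun i _ => pow_nonneg (p0 i) 3)
        fun i _ => site (by omega) hM1 he hMe (x i)
    refine h1.trans (le_of_eq ?_)
    rw [Finset.prod_mul_distrib, Finset.prod_mul_distrib, Finset.prod_mul_distrib, prod_const,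
      Nat.card_Ico, Finset.prod_pow, Nat.add_sub_cancel_left]
  have a3 : phi b (x (i0 + k)) ^ 3 ≤ hh b (x (i0 + k)) := by
    refine le_trans ?_ (phi_le_hh _ _)
    exact pow_le_of_le_one (p0 _) (p1 _) (by norm_num)
  have a4 := prod_hh_le (i0 := i0) (k := k) hb h α
  rw [Finset.prod_Ico_succ_top (by omega : i0 ≤ i0 + k)] at a4
  have a5 : (∏ i ∈ Ico i0 (i0 + k), psi (uu b ℓ i α)) *
      ∏ i ∈ Ico i0 (i0 + k), (phi b (x i) ^ 2 + e * gg M (x i)) ≤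
      ∏ i ∈ Ico i0 (i0 + k), (1 * (phi b (x i) ^ 2 * psi (uu b ℓ i α)) + e * gg M (x i)) := by
    rw [← Finset.prod_mul_distrib]
    refine Finset.prod_le_prod (fun i _ => ?_) fun i _ => ?_
    · have := psi_nonneg (uu b ℓ i α)
      have := g0 i
      positivity
    · have h1 := psi_le_one (uu b ℓ i α)
      have h2 : 0 ≤ e * gg M (x i) := mul_nonneg he (g0 i)
      nlinarith
  have n0 : 0 ≤ ∏ i ∈ Ico 0 i0, phi b (x i) ^ 2 := Finset.prod_nonneg fun i _ => sq_nonneg _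
  have n1 : 0 ≤ ∏ i ∈ Ico i0 (i0 + k), phi b (x i) ^ 3 :=
    Finset.prod_nonneg fun i _ => pow_nonneg (p0 i) 3
  have n2 : 0 ≤ phi b (x (i0 + k)) ^ 3 := pow_nonneg (p0 _) 3
  have n3 : 0 ≤ (∏ i ∈ Ico i0 (i0 + k), gg M (x i)) ^ 2 := sq_nonneg _
  have n4 : 0 ≤ ∏ i ∈ Ico i0 (i0 + k), hh b (x i) := Finset.prod_nonneg fun i _ => hh_nonneg _ _
  have n5 : 0 ≤ ∏ i ∈ Ico i0 (i0 + k), (phi b (x i) ^ 2 + e * gg M (x i)) :=
    Finset.prod_nonneg fun i _ => add_nonneg (sq_nonneg _) (mul_nonneg he (g0 i))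
  have nc : (0 : ℝ) ≤ (1 + 1 / 600) ^ k := by positivity
  exact assemble n0 n1 n2 n3 n4 n5 nc (hh_nonneg b (x (i0 + k))) a1 a2 a3 a4 a5

/-- Arithmetic and geometric means. -/
lemma amgm3 {f x y z : ℝ} (hx : 0 ≤ x) (hy : 0 ≤ y) (hz : 0 ≤ z)
    (h : f ^ 3 ≤ x * y * z) : f ≤ (x + y + z) / 3 := by
  have h1 : x * y * z ≤ ((x + y + z) / 3) ^ 3 := by
    nlinarith [mul_nonneg hx (sq_nonneg (y - z)), mul_nonneg hy (sq_nonneg (x - z)),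
      mul_nonneg hz (sq_nonneg (x - y)), mul_nonneg hx (sq_nonneg (x - y)),
      mul_nonneg hx (sq_nonneg (x - z)), mul_nonneg hy (sq_nonneg (x - y)),
      mul_nonneg hy (sq_nonneg (y - z)), mul_nonneg hz (sq_nonneg (x - z)),
      mul_nonneg hz (sq_nonneg (y - z))]
  by_contra hlt
  push Not at hlt
  have h2 : 0 ≤ (x + y + z) / 3 := by positivity
  have h3 : ((x + y + z) / 3) ^ 3 < f ^ 3 := pow_lt_pow_left₀ hlt h2 (by norm_num)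
  linarith

/-- Three-factor Hölder inequality. -/
lemma holder3 {ι : Type*} (s : Finset ι) (F G1 G2 W : ι → ℝ) {K A B C : ℝ} (hK : 0 < K)
    (hA : 0 < A) (hB : 0 < B) (hC : 0 < C) (hF : ∀ x ∈ s, 0 ≤ F x)
    (h1 : ∀ x ∈ s, 0 ≤ G1 x) (h2 : ∀ x ∈ s, 0 ≤ G2 x) (h3 : ∀ x ∈ s, 0 ≤ W x)
    (h : ∀ x ∈ s, F x ^ 3 ≤ K * (G1 x * (G2 x * W x)))
    (hG1 : ∑ x ∈ s, G1 x ≤ A) (hG2 : ∑ x ∈ s, G2 x ≤ B) (hW : ∑ x ∈ s, W x ≤ C) :
    (∑ x ∈ s, F x) ^ 3 ≤ K * (A * (B * C)) := by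
  -- `t ^ 3 = K A B C`
  set t : ℝ := (K * (A * (B * C))) ^ ((1 : ℝ) / 3) with ht
  have hpos : 0 < K * (A * (B * C)) := by positivity
  have ht0 : 0 < t := Real.rpow_pos_of_pos hpos _
  have ht3 : t ^ 3 = K * (A * (B * C)) := by
    rw [ht, ← Real.rpow_natCast, ← Real.rpow_mul hpos.le]
    norm_num
  have hpt : ∀ x ∈ s, F x / t ≤ (G1 x / A + G2 x / B + W x / C) / 3 := by
    intro x hx
    refine amgm3 (div_nonneg (h1 x hx) hA.le) (div_nonneg (h2 x hx) hB.le)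
      (div_nonneg (h3 x hx) hC.le) ?_
    rw [div_pow, ht3, div_le_iff₀ hpos]
    refine (h x hx).trans (le_of_eq ?_)
    field_simp
  have hsum := Finset.sum_le_sum hpt
  rw [← Finset.sum_div, ← Finset.sum_div, Finset.sum_add_distrib, Finset.sum_add_distrib,
    ← Finset.sum_div, ← Finset.sum_div, ← Finset.sum_div] at hsum
  have e1 : (∑ x ∈ s, G1 x) / A ≤ 1 := (div_le_one hA).mpr hG1
  have e2 : (∑ x ∈ s, G2 x) / B ≤ 1 := (div_le_one hB).mpr hG2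
  have e3 : (∑ x ∈ s, W x) / C ≤ 1 := (div_le_one hC).mpr hW
  have e4 : (∑ x ∈ s, F x) / t ≤ 1 := by linarith
  rw [div_le_one ht0] at e4
  rw [← ht3]
  exact pow_le_pow_left₀ (Finset.sum_nonneg hF) e4 3

/-- The three-factor bound. -/
theorem T_three {b M : ℕ} {e c : ℝ} (hG : Good b M e c) {η : ℝ} (hη : 0 < η) :
    ∃ C : ℝ, 0 < C ∧ ∀ ℓ k i0 D : ℕ, (ℓ + 1) / 2 = i0 + k + 1 → 1 ≤ D → (D : ℝ) ≤ (b : ℝ) ^ k →
      (b : ℝ) ^ k ≤ b * D → 2 * c * k + 1 ≤ (i0 : ℝ) →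
      (T b ℓ D) ^ 3 ≤ C * (D : ℝ) ^ 3 * (499 / 500) ^ k * (((b : ℝ) ^ (ℓ + 3)) ^ η) ^ 2 := by
  obtain ⟨hb, hM1, hMb, he, hMe, heg, hP⟩ := hG
  obtain ⟨Cd, hCd, hdiv⟩ := card_divisors_le_rpow hη
  have hb0 : (2 : ℝ) ≤ b := by exact_mod_cast hb
  have hbp : (0 : ℝ) < b := by linarith
  have hb1 : (1 : ℝ) ≤ b := by linarith
  have hBp := BB_pos hb
  have hMleb : M ≤ b := by
    have h1 : (M : ℝ) ≤ b := by
      have : (0 : ℝ) ≤ M := Nat.cast_nonneg _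
      linarith
    exact_mod_cast h1
  have hgb := gbar_nonneg M
  refine ⟨(2 * BB b * (2 * Cd)) ^ 2 * (36 * (b ^ 7 + 4 * BB b)), by positivity, ?_⟩
  intro ℓ k i0 D hm hD1 hD hkD hi0
  set X : ℝ := ((b : ℝ) ^ (ℓ + 3)) ^ η with hX
  have hX1 : 1 ≤ X := Real.one_le_rpow (one_le_pow₀ hb1) hη.le
  have hDr : (1 : ℝ) ≤ D := by exact_mod_cast hD1
  have hDpos : (0 : ℝ) < D := by linarith
  have h2m : 2 * (i0 + k) + 1 ≤ ℓ := by omega
  have hbk : (0 : ℝ) < (b : ℝ) ^ k := by positivity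
  -- the bound for the mean square factors
  have hGbound : ∀ a1 a2 : ℕ, a1 ≤ a2 → a2 ≤ i0 → c * k ≤ ((a2 - a1 : ℕ) : ℝ) →
      ∑ x ∈ J b D, (∏ i ∈ Ico a1 a2, phi b (pt b x * wt b ℓ i) ^ 2) *
        ∏ i ∈ Ico i0 (i0 + k), gg M (pt b x * wt b ℓ i) ≤ 2 * BB b * (2 * Cd) * D * X := by
    intro a1 a2 h12 h2 hca
    have h := sum_G (D := D) hb (n := i0 + k) (by omega) hM1 hMleb h12 h2 (by omega) hη hCd hdiv
    rw [Nat.add_sub_cancel_left] at h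
    refine h.trans ?_
    have h3 : (D : ℝ) ^ 2 * ((1 / (b : ℝ)) ^ (a2 - a1) * gbar M ^ k) ≤ D := by
      have e1 : (b * gbar M) ^ k ≤ (b : ℝ) ^ (a2 - a1) := by
        have e0 : b * gbar M ≤ (b : ℝ) ^ c := by
          have : 0 ≤ b * gbar M := by positivity
          linarith
        calc (b * gbar M) ^ k ≤ ((b : ℝ) ^ c) ^ k := pow_le_pow_left₀ (by positivity) e0 k
          _ = (b : ℝ) ^ (c * k) := by rw [← Real.rpow_natCast, ← Real.rpow_mul hbp.le]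
          _ ≤ (b : ℝ) ^ (((a2 - a1 : ℕ) : ℝ)) := Real.rpow_le_rpow_of_exponent_le hb1 hca
          _ = (b : ℝ) ^ (a2 - a1) := Real.rpow_natCast _ _
      have e2 : (1 / (b : ℝ)) ^ (a2 - a1) * gbar M ^ k ≤ 1 / (b : ℝ) ^ k := by
        rw [one_div_pow, one_div_mul_eq_div, div_le_div_iff₀ (by positivity) hbk, one_mul]
        rw [← mul_pow, mul_comm (gbar M)]
        exact e1
      have e3 : (1 : ℝ) / (b : ℝ) ^ k ≤ 1 / D := one_div_le_one_div_of_le hDpos hD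
      calc (D : ℝ) ^ 2 * ((1 / (b : ℝ)) ^ (a2 - a1) * gbar M ^ k) ≤ (D : ℝ) ^ 2 * (1 / D) :=
            mul_le_mul_of_nonneg_left (e2.trans e3) (by positivity)
        _ = D := by field_simp
    have h4 : (D : ℝ) ≤ D * (Cd * X) := by
      have : 1 ≤ Cd * X := by nlinarith
      nlinarith
    calc 2 * BB b * ((D : ℝ) ^ 2 * ((1 / (b : ℝ)) ^ (a2 - a1) * gbar M ^ k) +
        D * (Cd * ((b : ℝ) ^ (ℓ + 3)) ^ η))
        ≤ 2 * BB b * (D * (Cd * X) + D * (Cd * X)) := by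
          refine mul_le_mul_of_nonneg_left ?_ (by positivity)
          exact add_le_add (h3.trans h4) le_rfl
      _ = _ := by ring
  -- the bound for the third factor
  have hWbound : ∑ x ∈ J b D, ∏ i ∈ Ico i0 (i0 + k),
      (1 * (phi b (pt b x * wt b ℓ i) ^ 2 * psi (uu b ℓ i (pt b x))) +
      e * gg M (pt b x * wt b ℓ i)) ≤ 36 * (b ^ 7 + 4 * BB b) * D * (255 / 256) ^ k := by
    have h := sum_W_win (D := D) hb (i0 := i0) (n := k) (by omega : 2 * (i0 + k) + 1 ≤ ℓ) hMleb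
      zero_le_one he
    refine h.trans ?_
    have h1 : 1 * (127 / 128 / b) + e * gbar M ≤ 255 / 256 / b := by
      have e1 : (1 : ℝ) * (127 / 128 / b) + 1 / (256 * b) = 255 / 256 / b := by
        field_simp; norm_num
      linarith
    have h0 : 0 ≤ 1 * (127 / 128 / (b : ℝ)) + e * gbar M := by positivity
    have h2 : (b : ℝ) ^ (ℓ - 2 * i0 + 3) ≤ b ^ 7 * (D : ℝ) ^ 2 := by
      calc (b : ℝ) ^ (ℓ - 2 * i0 + 3) ≤ (b : ℝ) ^ (5 + 2 * k) :=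
            pow_le_pow_right₀ hb1 (by omega)
        _ = b ^ 5 * ((b : ℝ) ^ k) ^ 2 := by rw [pow_add, mul_comm 2 k, pow_mul]
        _ ≤ b ^ 5 * (b * D) ^ 2 := by gcongr
        _ = _ := by ring
    calc 36 * ((b : ℝ) ^ (ℓ - 2 * i0 + 3) + 4 * BB b * (D : ℝ) ^ 2) *
          (1 * (127 / 128 / b) + e * gbar M) ^ k
        ≤ 36 * (b ^ 7 * (D : ℝ) ^ 2 + 4 * BB b * (D : ℝ) ^ 2) * (255 / 256 / b) ^ k := by
          gcongr
      _ = 36 * (b ^ 7 + 4 * BB b) * ((D : ℝ) ^ 2 / (b : ℝ) ^ k) * (255 / 256) ^ k := by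
          rw [div_pow]; ring
      _ ≤ 36 * (b ^ 7 + 4 * BB b) * D * (255 / 256) ^ k := by
          have e1 : (D : ℝ) ^ 2 / (b : ℝ) ^ k ≤ D := by
            rw [div_le_iff₀ hbk]; nlinarith
          gcongr
  -- the split of the outer sites
  set a := i0 / 2 with ha
  have ha1 : c * k ≤ (a : ℝ) := by
    have : (i0 : ℝ) ≤ 2 * a + 1 := by
      have : i0 ≤ 2 * a + 1 := by omega
      exact_mod_cast this
    linarith
  have ha2 : c * k ≤ ((i0 - a : ℕ) : ℝ) := by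
    refine ha1.trans ?_
    have : a ≤ i0 - a := by omega
    exact_mod_cast this
  have g1 := hGbound 0 a (Nat.zero_le _) (by omega) (by simpa using ha1)
  have g2 := hGbound a i0 (by omega) le_rfl ha2
  have hpw : ∀ x ∈ J b D, blk b ℓ 0 ((ℓ + 1) / 2) (pt b x) ^ 3 ≤ (1 + 1 / 600) ^ k *
      (((∏ i ∈ Ico 0 a, phi b (pt b x * wt b ℓ i) ^ 2) *
        ∏ i ∈ Ico i0 (i0 + k), gg M (pt b x * wt b ℓ i)) *
      (((∏ i ∈ Ico a i0, phi b (pt b x * wt b ℓ i) ^ 2) *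
        ∏ i ∈ Ico i0 (i0 + k), gg M (pt b x * wt b ℓ i)) *
        ∏ i ∈ Ico i0 (i0 + k),
      (1 * (phi b (pt b x * wt b ℓ i) ^ 2 * psi (uu b ℓ i (pt b x))) +
      e * gg M (pt b x * wt b ℓ i)))) := by
    intro x _
    rw [hm]
    refine (pointwise hb hM1 (by omega) he hMe (pt b x)).trans (le_of_eq ?_)
    rw [← Finset.prod_Ico_consecutive (fun i => phi b (pt b x * wt b ℓ i) ^ 2)
      (Nat.zero_le a) (by omega : a ≤ i0)]
    ring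
  have hk1 : (0 : ℝ) < (1 + 1 / 600) ^ k := by positivity
  have hmain := holder3 (J b D) (fun x => blk b ℓ 0 ((ℓ + 1) / 2) (pt b x)) _ _ _ hk1
    (by positivity) (by positivity) (by positivity) (fun x _ => blk_nonneg _ _ _ _ _)
    (fun x _ => mul_nonneg (Finset.prod_nonneg fun i _ => sq_nonneg _)
      (Finset.prod_nonneg fun i _ => gg_nonneg _ _))
    (fun x _ => mul_nonneg (Finset.prod_nonneg fun i _ => sq_nonneg _)
      (Finset.prod_nonneg fun i _ => gg_nonneg _ _))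
    (fun x _ => Finset.prod_nonneg fun i _ => by
      have h1 := psi_nonneg (uu b ℓ i (pt b x))
      have h2 := gg_nonneg M (pt b x * wt b ℓ i)
      positivity) hpw g1 g2 hWbound
  unfold T
  refine hmain.trans ?_
  have hρ : ((1 : ℝ) + 1 / 600) ^ k * (255 / 256) ^ k ≤ (499 / 500) ^ k := by
    rw [← mul_pow]
    exact pow_le_pow_left₀ (by norm_num) (by norm_num) k
  calc (1 + 1 / 600) ^ k * (2 * BB b * (2 * Cd) * D * X * (2 * BB b * (2 * Cd) * D * X *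
        (36 * (b ^ 7 + 4 * BB b) * D * (255 / 256) ^ k)))
      = (2 * BB b * (2 * Cd)) ^ 2 * (36 * (b ^ 7 + 4 * BB b)) * (D : ℝ) ^ 3 *
          ((1 + 1 / 600) ^ k * (255 / 256) ^ k) * X ^ 2 := by ring
    _ ≤ (2 * BB b * (2 * Cd)) ^ 2 * (36 * (b ^ 7 + 4 * BB b)) * (D : ℝ) ^ 3 *
          (499 / 500) ^ k * X ^ 2 := by gcongr

/-- The bound from the mean of the kernels. -/
theorem T_one {b M : ℕ} {e c : ℝ} (hG : Good b M e c) :
    ∃ C : ℝ, 0 < C ∧ ∀ ℓ k k' i0 D : ℕ, (ℓ + 1) / 2 = i0 + k' + 1 → k' ≤ k →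
      (b : ℝ) ^ k ≤ b * D →
      T b ℓ D ≤ C * (D : ℝ) ^ 2 * (b : ℝ) ^ (-((1 - c) * k')) := by
  obtain ⟨hb, hM1, hMb, he, hMe, heg, hP⟩ := hG
  have hb0 : (2 : ℝ) ≤ b := by exact_mod_cast hb
  have hbp : (0 : ℝ) < b := by linarith
  have hb1 : (1 : ℝ) ≤ b := by linarith
  have hBp := BB_pos hb
  have hMleb : M ≤ b := by
    have h1 : (M : ℝ) ≤ b := by
      have : (0 : ℝ) ≤ M := Nat.cast_nonneg _
      linarith
    exact_mod_cast h1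
  have hgb := gbar_nonneg M
  refine ⟨36 * (b ^ 7 + 4 * BB b), by positivity, ?_⟩
  intro ℓ k k' i0 D hm hk' hkD
  have h := sum_W_win (D := D) hb (i0 := i0) (n := k') (by omega : 2 * (i0 + k') + 1 ≤ ℓ) hMleb
    (a := 0) (e := 1) le_rfl zero_le_one
  have h1 : ∀ x ∈ J b D, blk b ℓ 0 ((ℓ + 1) / 2) (pt b x) ≤ (1 + 1 / 600) ^ k' *
      ∏ i ∈ Ico i0 (i0 + k'), (0 * (phi b (pt b x * wt b ℓ i) ^ 2 * psi (uu b ℓ i (pt b x))) +
      1 * gg M (pt b x * wt b ℓ i)) := by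
    intro x _
    refine (blk_le_of_le b ℓ (Nat.zero_le i0) (by omega : i0 + k' ≤ (ℓ + 1) / 2) _).trans ?_
    unfold blk
    have e1 : ((1 : ℝ) + 1 / 600) ^ k' = ∏ _i ∈ Ico i0 (i0 + k'), ((1 : ℝ) + 1 / 600) := by
      rw [prod_const, Nat.card_Ico, Nat.add_sub_cancel_left]
    rw [e1, ← Finset.prod_mul_distrib]
    refine Finset.prod_le_prod (fun i _ => phi_nonneg _ _) fun i _ => ?_
    rw [zero_mul, zero_add, one_mul]
    exact phi_le_gg (by omega) hM1 hMb _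
  have h2 : T b ℓ D ≤ (1 + 1 / 600) ^ k' *
      (36 * ((b : ℝ) ^ (ℓ - 2 * i0 + 3) + 4 * BB b * (D : ℝ) ^ 2) * (gbar M) ^ k') := by
    unfold T
    refine (Finset.sum_le_sum h1).trans ?_
    rw [← Finset.mul_sum]
    refine mul_le_mul_of_nonneg_left ?_ (by positivity)
    refine h.trans (le_of_eq ?_)
    rw [zero_mul, zero_add, one_mul]
  have h3 : (b : ℝ) ^ (ℓ - 2 * i0 + 3) ≤ b ^ 7 * (D : ℝ) ^ 2 := by
    calc (b : ℝ) ^ (ℓ - 2 * i0 + 3) ≤ (b : ℝ) ^ (5 + 2 * k) :=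
          pow_le_pow_right₀ hb1 (by omega)
      _ = b ^ 5 * ((b : ℝ) ^ k) ^ 2 := by rw [pow_add, mul_comm 2 k, pow_mul]
      _ ≤ b ^ 5 * (b * D) ^ 2 := by gcongr
      _ = _ := by ring
  have h4 : ((1 : ℝ) + 1 / 600) ^ k' * gbar M ^ k' ≤ (b : ℝ) ^ (-((1 - c) * k')) := by
    have e1 : (1 + 1 / 600) * gbar M ≤ (b : ℝ) ^ (c - 1) := by
      rw [Real.rpow_sub hbp, Real.rpow_one, le_div_iff₀ hbp]
      linarith
    calc ((1 : ℝ) + 1 / 600) ^ k' * gbar M ^ k' = ((1 + 1 / 600) * gbar M) ^ k' := (mul_pow _ _ _).symm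
      _ ≤ ((b : ℝ) ^ (c - 1)) ^ k' := pow_le_pow_left₀ (by positivity) e1 k'
      _ = (b : ℝ) ^ ((c - 1) * k') := by rw [← Real.rpow_natCast, ← Real.rpow_mul hbp.le]
      _ = _ := by congr 1; ring
  calc T b ℓ D ≤ (1 + 1 / 600) ^ k' *
      (36 * ((b : ℝ) ^ (ℓ - 2 * i0 + 3) + 4 * BB b * (D : ℝ) ^ 2) * (gbar M) ^ k') := h2
    _ ≤ (1 + 1 / 600) ^ k' *
      (36 * (b ^ 7 * (D : ℝ) ^ 2 + 4 * BB b * (D : ℝ) ^ 2) * (gbar M) ^ k') := by gcongr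
    _ = 36 * (b ^ 7 + 4 * BB b) * (D : ℝ) ^ 2 * ((1 + 1 / 600) ^ k' * (gbar M) ^ k') := by ring
    _ ≤ _ := mul_le_mul_of_nonneg_left h4 (by positivity)

end Pool.Agent.PalL
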