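import Pool.Agent.Pal.TBounds

/-!
# Inequalities for the normalised Dirichlet kernels
-/

namespace Pool.Agent.PalL

open Finset Pool.Agent.Pal

/-- `sin^2 (π k x)`. -/
noncomputable def sn (x : ℝ) (k : ℝ) : ℝ := Real.sin (Real.pi * (k * x)) ^ 2

lemma sn_nonneg (x k : ℝ) : 0 ≤ sn x k := sq_nonneg _

lemma sn_neg (x k : ℝ) : sn x (-k) = sn x k := by
  unfold sn
  have : Real.pi * (-k * x) = -(Real.pi * (k * x)) := by ring
  rw [this, Real.sin_neg]
  ring

lemma sn_zero (x : ℝ) : sn x 0 = 0 := by unfold sn; simp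

/-- The square of the Dirichlet kernel as a double sum. -/
lemma norm_dir_sq (b : ℕ) (x : ℝ) :
    ‖dir b x‖ ^ 2 = (b : ℝ) ^ 2 - 2 * ∑ p ∈ range b, ∑ q ∈ range b, sn x ((p : ℝ) - q) := by
  have h1 := norm_sq_sum_ex (range b) (fun n => n) x
  have h2 : ‖dir b x‖ ^ 2 = ∑ p ∈ range b, ∑ q ∈ range b, (1 - 2 * sn x ((p : ℝ) - q)) := by
    have h3 := congrArg Complex.re h1
    rw [Complex.ofReal_re] at h3
    unfold dir
    rw [h3, Complex.re_sum]
    refine Finset.sum_congr rfl fun p _ => ?_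
    rw [Complex.re_sum]
    refine Finset.sum_congr rfl fun q _ => ?_
    have h4 : ∀ y : ℝ, (ex y).re = Real.cos (2 * Real.pi * y) := by
      intro y
      unfold ex; exact Complex.exp_ofReal_mul_I_re _
    rw [h4]
    unfold sn
    have h5 : 2 * Real.pi * ((((p : ℤ) - (q : ℤ) : ℤ) : ℝ) * x) =
        2 * (Real.pi * (((p : ℝ) - q) * x)) := by push_cast; ring
    rw [h5, Real.cos_two_mul, Real.cos_sq']
    ring
  rw [h2]
  simp only [Finset.sum_sub_distrib, sum_const, card_range, nsmul_eq_mul, mul_one,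
    ← Finset.mul_sum]
  ring

/-- The double sum as a single sum. -/
lemma double_sum_eq (x : ℝ) (b : ℕ) :
    ∑ p ∈ range b, ∑ q ∈ range b, sn x ((p : ℝ) - q) =
      2 * ∑ k ∈ range (b + 1), ((b : ℝ) - k) * sn x k := by
  induction b with
  | zero => simp
  | succ b ih =>
    have h1 : ∀ p ∈ range (b + 1), ∑ q ∈ range (b + 1), sn x ((p : ℝ) - q) =
        ∑ q ∈ range b, sn x ((p : ℝ) - q) + sn x ((p : ℝ) - b) := by
      intro p _
      rw [Finset.sum_range_succ]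
    rw [Finset.sum_congr rfl h1, Finset.sum_add_distrib]
    rw [Finset.sum_range_succ (fun p : ℕ => ∑ q ∈ range b, sn x ((p : ℝ) - q)), ih]
    have h2 : ∑ q ∈ range b, sn x ((b : ℝ) - q) = ∑ k ∈ range (b + 1), sn x k := by
      have h3 := Finset.sum_flip (fun k : ℕ => sn x k) (n := b)
      rw [← h3, Finset.sum_range_succ]
      have h4 : sn x ((b - b : ℕ) : ℝ) = 0 := by simp [sn_zero]
      rw [h4, add_zero]
      refine Finset.sum_congr rfl fun q hq => ?_
      rw [mem_range] at hq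
      rw [Nat.cast_sub hq.le]
    have h3 : ∑ p ∈ range (b + 1), sn x ((p : ℝ) - b) = ∑ k ∈ range (b + 1), sn x k := by
      rw [← h2, Finset.sum_range_succ]
      rw [sub_self, sn_zero, add_zero]
      refine Finset.sum_congr rfl fun q _ => ?_
      rw [← sn_neg]
      congr 1
      ring
    rw [h2, h3]
    have h4 : ∑ k ∈ range (b + 1 + 1), (((b + 1 : ℕ) : ℝ) - k) * sn x k =
        ∑ k ∈ range (b + 1), ((b : ℝ) - k) * sn x k + ∑ k ∈ range (b + 1), sn x k := by
      rw [Finset.sum_range_succ, ← Finset.sum_add_distrib]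
      rw [sub_self, zero_mul, add_zero]
      refine Finset.sum_congr rfl fun k _ => ?_
      push_cast
      ring
    rw [h4]
    ring

/-- Exact defect of `phi`. -/
lemma one_sub_phi_sq {b : ℕ} (hb : 1 ≤ b) (x : ℝ) :
    (b : ℝ) ^ 2 * (1 - phi b x ^ 2) = 2 * ∑ p ∈ range b, ∑ q ∈ range b, sn x ((p : ℝ) - q) := by
  have hb0 : (b : ℝ) ≠ 0 := by
    have : b ≠ 0 := by omega
    exact_mod_cast this
  unfold phi
  rw [div_pow, norm_dir_sq]
  field_simp
  ring

lemma sum_mul_sub (b : ℕ) : ∑ k ∈ range (b + 1), ((k : ℝ) * ((b : ℝ) - k)) = ((b : ℝ) ^ 3 - b) / 6 := by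
  have h1 : ∀ n : ℕ, ∑ k ∈ range (n + 1), (k : ℝ) = (n : ℝ) * (n + 1) / 2 := by
    intro n
    induction n with
    | zero => simp
    | succ n ih => rw [Finset.sum_range_succ, ih]; push_cast; ring
  have h2 : ∀ n : ℕ, ∑ k ∈ range (n + 1), (k : ℝ) ^ 2 = (n : ℝ) * (n + 1) * (2 * n + 1) / 6 := by
    intro n
    induction n with
    | zero => simp
    | succ n ih => rw [Finset.sum_range_succ, ih]; push_cast; ring
  have h3 : ∀ k ∈ range (b + 1), ((k : ℝ) * ((b : ℝ) - k)) = b * (k : ℝ) - (k : ℝ) ^ 2 := by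
    intro k _; ring
  rw [Finset.sum_congr rfl h3, Finset.sum_sub_distrib, ← Finset.mul_sum, h1, h2]
  ring

lemma sn_add_le (x k j : ℝ) : sn x (k + j) ≤ (|Real.sin (Real.pi * (k * x))| +
    |Real.sin (Real.pi * (j * x))|) ^ 2 := by
  unfold sn
  rw [← sq_abs]
  refine pow_le_pow_left₀ (abs_nonneg _) ?_ 2
  have h1 : Real.pi * ((k + j) * x) = Real.pi * (k * x) + Real.pi * (j * x) := by ring
  rw [h1, Real.sin_add]
  refine (abs_add_le _ _).trans ?_
  rw [abs_mul, abs_mul]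
  have e1 := Real.abs_cos_le_one (Real.pi * (j * x))
  have e2 := Real.abs_cos_le_one (Real.pi * (k * x))
  have e3 := abs_nonneg (Real.sin (Real.pi * (k * x)))
  have e4 := abs_nonneg (Real.sin (Real.pi * (j * x)))
  nlinarith

/-- `1 - φ(x)^2 ≥ sin^2(π b x) / 4`. -/
lemma phi_defect_b {b : ℕ} (hb : 2 ≤ b) (x : ℝ) : 1 / 4 * sn x b ≤ 1 - phi b x ^ 2 := by
  have hb2 : (2 : ℝ) ≤ b := by exact_mod_cast hb
  have hbp : (0 : ℝ) < b := by linarith
  have h1 := one_sub_phi_sq (by omega : 1 ≤ b) x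
  rw [double_sum_eq] at h1
  set S : ℝ := ∑ k ∈ range (b + 1), ((b : ℝ) - k) * sn x k with hS
  have hrefl : S = ∑ k ∈ range (b + 1), (k : ℝ) * sn x ((b : ℝ) - k) := by
    have h3 := Finset.sum_flip (fun k : ℕ => ((b : ℝ) - k) * sn x k) (n := b)
    rw [hS, ← h3]
    refine Finset.sum_congr rfl fun k hk => ?_
    rw [mem_range] at hk
    rw [Nat.cast_sub (by omega)]
    congr 1
    ring
  have h2 : ∑ k ∈ range (b + 1), (k : ℝ) * ((b : ℝ) - k) * sn x b ≤
      ∑ k ∈ range (b + 1), (b : ℝ) * (((b : ℝ) - k) * sn x k + (k : ℝ) * sn x ((b : ℝ) - k)) := by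
    refine Finset.sum_le_sum fun k hk => ?_
    rw [mem_range] at hk
    have hkb : (k : ℝ) ≤ b := by
      have : k ≤ b := by omega
      exact_mod_cast this
    have hk0 : (0 : ℝ) ≤ k := Nat.cast_nonneg _
    have h3 := sn_add_le x k ((b : ℝ) - k)
    have h4 : (k : ℝ) + ((b : ℝ) - k) = b := by ring
    rw [h4] at h3
    set u := |Real.sin (Real.pi * ((k : ℝ) * x))| with hu
    set v := |Real.sin (Real.pi * (((b : ℝ) - k) * x))| with hv
    have hu2 : sn x k = u ^ 2 := by rw [hu, sq_abs]; rfl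
    have hv2 : sn x ((b : ℝ) - k) = v ^ 2 := by rw [hv, sq_abs]; rfl
    rw [hu2, hv2]
    have h5 : 0 ≤ (k : ℝ) * ((b : ℝ) - k) := mul_nonneg hk0 (by linarith)
    have h6 : (k : ℝ) * ((b : ℝ) - k) * sn x b ≤ (k : ℝ) * ((b : ℝ) - k) * (u + v) ^ 2 :=
      mul_le_mul_of_nonneg_left h3 h5
    nlinarith [sq_nonneg (((b : ℝ) - k) * u - k * v)]
  rw [← Finset.sum_mul, sum_mul_sub, ← Finset.mul_sum, Finset.sum_add_distrib, ← hrefl, ← hS] at h2
  have hsn := sn_nonneg x b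
  -- `(b^3-b)/6 * sn ≤ 2 b S`
  have h3 : ((b : ℝ) ^ 2 - 1) / 6 * sn x b ≤ 2 * S := by
    have h4 : (b : ℝ) * (((b : ℝ) ^ 2 - 1) / 6 * sn x b) ≤ b * (2 * S) := by
      nlinarith [h2]
    exact le_of_mul_le_mul_left h4 hbp
  have h5 : (b : ℝ) ^ 2 * (1 / 4 * sn x b) ≤ (b : ℝ) ^ 2 * (1 - phi b x ^ 2) := by
    rw [h1]
    have h6 : (b : ℝ) ^ 2 * (1 / 4) ≤ ((b : ℝ) ^ 2 - 1) / 3 := by nlinarith
    have h7 : (b : ℝ) ^ 2 * (1 / 4) * sn x b ≤ ((b : ℝ) ^ 2 - 1) / 3 * sn x b :=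
      mul_le_mul_of_nonneg_right h6 hsn
    linarith
  exact le_of_mul_le_mul_left h5 (by positivity)

/-- `1 - φ(x)^2 ≥ sin^2(π x) / 4`. -/
lemma phi_defect_one {b : ℕ} (hb : 2 ≤ b) (x : ℝ) : 1 / 4 * sn x 1 ≤ 1 - phi b x ^ 2 := by
  have hb2 : (2 : ℝ) ≤ b := by exact_mod_cast hb
  have hbp : (0 : ℝ) < b := by linarith
  have h1 := one_sub_phi_sq (by omega : 1 ≤ b) x
  have h2 : ∀ q ∈ range b, ((b : ℝ) - 1) * (1 / 4 * sn x 1) ≤
      ∑ p ∈ range b, sn x ((q : ℝ) - p) := by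
    intro q _
    obtain ⟨c, rfl⟩ : ∃ c, b = c + 1 := ⟨b - 1, by omega⟩
    have e1 : ∑ p ∈ range (c + 1), sn x ((q : ℝ) - p) ≥ ∑ p ∈ range c, sn x ((q : ℝ) - p) := by
      rw [Finset.sum_range_succ]
      have := sn_nonneg x ((q : ℝ) - c)
      linarith
    have e2 : ∑ p ∈ range (c + 1), sn x ((q : ℝ) - p) ≥
        ∑ p ∈ range c, sn x ((q : ℝ) - (p + 1 : ℕ)) := by
      rw [Finset.sum_range_succ']
      have := sn_nonneg x ((q : ℝ) - (0 : ℕ))
      linarith
    have e3 : ∑ p ∈ range c, (1 / 2 * sn x 1) ≤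
        ∑ p ∈ range c, (sn x ((q : ℝ) - p) + sn x ((q : ℝ) - (p + 1 : ℕ))) := by
      refine Finset.sum_le_sum fun p _ => ?_
      have h3 := sn_add_le x ((q : ℝ) - p) (-((q : ℝ) - (p + 1 : ℕ)))
      have h4 : ((q : ℝ) - p) + (-((q : ℝ) - (p + 1 : ℕ))) = 1 := by push_cast; ring
      rw [h4] at h3
      have h5 := sn_neg x ((q : ℝ) - (p + 1 : ℕ))
      set u := |Real.sin (Real.pi * (((q : ℝ) - p) * x))| with hu
      set v := |Real.sin (Real.pi * (-((q : ℝ) - (p + 1 : ℕ)) * x))| with hv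
      have hu2 : sn x ((q : ℝ) - p) = u ^ 2 := by rw [hu, sq_abs]; rfl
      have hv2 : sn x ((q : ℝ) - (p + 1 : ℕ)) = v ^ 2 := by rw [← h5, hv, sq_abs]; rfl
      rw [hu2, hv2]
      nlinarith [sq_nonneg (u - v)]
    rw [sum_const, card_range, nsmul_eq_mul, Finset.sum_add_distrib] at e3
    push_cast at e1 e2 e3 ⊢
    linarith
  have h3 := Finset.sum_le_sum h2
  rw [sum_const, card_range, nsmul_eq_mul] at h3
  have hsn := sn_nonneg x 1
  have h5 : (b : ℝ) ^ 2 * (1 / 4 * sn x 1) ≤ (b : ℝ) ^ 2 * (1 - phi b x ^ 2) := by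
    rw [h1]
    have h6 : (b : ℝ) ^ 2 * (1 / 4) ≤ 2 * (b * ((b : ℝ) - 1)) * (1 / 4) := by nlinarith
    have h7 : (b : ℝ) ^ 2 * (1 / 4) * sn x 1 ≤ 2 * (b * ((b : ℝ) - 1)) * (1 / 4) * sn x 1 :=
      mul_le_mul_of_nonneg_right h6 hsn
    nlinarith [h3]
  exact le_of_mul_le_mul_left h5 (by positivity)

/-- The auxiliary function `h`. -/
noncomputable def hh (b : ℕ) (x : ℝ) : ℝ := (1 + phi b x ^ 2) / 2

lemma phi_sq_le_one (b : ℕ) (x : ℝ) : phi b x ^ 2 ≤ 1 := pow_le_one₀ (phi_nonneg b x) (phi_le_one b x)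

lemma hh_le_one (b : ℕ) (x : ℝ) : hh b x ≤ 1 := by
  unfold hh; have := phi_sq_le_one b x; linarith

lemma hh_ge (b : ℕ) (x : ℝ) : 1 / 2 ≤ hh b x := by
  unfold hh; have := sq_nonneg (phi b x); linarith

lemma hh_nonneg (b : ℕ) (x : ℝ) : 0 ≤ hh b x := le_trans (by norm_num) (hh_ge b x)

lemma phi_le_hh (b : ℕ) (x : ℝ) : phi b x ≤ hh b x := by
  unfold hh; nlinarith [sq_nonneg (1 - phi b x)]

/-- The weight `psi`. -/
noncomputable def psi (u : ℝ) : ℝ := 1 - 1 / 64 * Real.sin (Real.pi * u) ^ 2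

lemma psi_nonneg (u : ℝ) : 0 ≤ psi u := by
  unfold psi; nlinarith [Real.sin_sq_le_one (Real.pi * u)]

lemma psi_le_one (u : ℝ) : psi u ≤ 1 := by
  unfold psi; nlinarith [sq_nonneg (Real.sin (Real.pi * u))]

lemma hh_mul_le {b : ℕ} (hb : 2 ≤ b) (x y u : ℝ) (hu : b * x - y = u) :
    hh b x * hh b y ≤ psi u ^ 2 := by
  have h1 := phi_defect_b hb x
  have h2 := phi_defect_one hb y
  have h3 := sn_add_le 1 (b * x) (-y)
  have e1 : sn x b = Real.sin (Real.pi * (b * x)) ^ 2 := rfl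
  have e2 : sn y 1 = Real.sin (Real.pi * y) ^ 2 := by unfold sn; rw [one_mul]
  have e3 : sn 1 (b * x + -y) = Real.sin (Real.pi * u) ^ 2 := by
    unfold sn; rw [← hu, mul_one]; congr 3
  rw [e3, mul_one, mul_one] at h3
  have e4 : |Real.sin (Real.pi * -y)| = |Real.sin (Real.pi * y)| := by
    rw [mul_neg, Real.sin_neg, abs_neg]
  rw [e4] at h3
  rw [e1, ← sq_abs] at h1
  rw [e2, ← sq_abs] at h2
  have p1 := phi_sq_le_one b x
  have p2 := phi_sq_le_one b y
  have p3 := sq_nonneg (phi b x)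
  have p4 := sq_nonneg (phi b y)
  unfold psi hh
  set s := Real.sin (Real.pi * u) ^ 2 with hs
  have hs0 : 0 ≤ s := sq_nonneg _
  set A := |Real.sin (Real.pi * (b * x))|
  set B := |Real.sin (Real.pi * y)|
  set a := 1 - phi b x ^ 2
  set c := 1 - phi b y ^ 2
  have h4 : s ≤ 8 * (a + c) := by nlinarith [sq_nonneg (A - B)]
  have h5 : (1 + phi b x ^ 2) / 2 = 1 - a / 2 := by simp only [a]; ring
  have h6 : (1 + phi b y ^ 2) / 2 = 1 - c / 2 := by simp only [c]; ring
  rw [h5, h6]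
  have ha : 0 ≤ a := by simp only [a]; linarith
  have ha1 : a ≤ 1 := by simp only [a]; linarith
  have hc : 0 ≤ c := by simp only [c]; linarith
  have hc1 : c ≤ 1 := by simp only [c]; linarith
  have h7 : a * c ≤ (a + c) / 2 := by nlinarith
  nlinarith [sq_nonneg s]

/-- The average of the squares of the kernels of degree at most `M`. -/
noncomputable def gg (M : ℕ) (x : ℝ) : ℝ := (∑ m ∈ range M, phi (m + 1) x ^ 2) / M

/-- Its mean. -/
noncomputable def gbar (M : ℕ) : ℝ := (∑ m ∈ range M, 1 / ((m : ℝ) + 1)) / M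

lemma gbar_nonneg (M : ℕ) : 0 ≤ gbar M := by unfold gbar; positivity

lemma gg_nonneg (M : ℕ) (x : ℝ) : 0 ≤ gg M x := by
  unfold gg
  exact div_nonneg (Finset.sum_nonneg fun _ _ => sq_nonneg _) (Nat.cast_nonneg _)

lemma gg_le_one (M : ℕ) (x : ℝ) : gg M x ≤ 1 := by
  unfold gg
  refine div_le_one_of_le₀ ?_ (Nat.cast_nonneg _)
  calc ∑ m ∈ range M, phi (m + 1) x ^ 2 ≤ ∑ _m ∈ range M, (1 : ℝ) :=
        Finset.sum_le_sum fun _ _ => phi_sq_le_one _ _
    _ = M := by simp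

lemma gg_add_int (M : ℕ) (x : ℝ) (n : ℤ) : gg M (x + n) = gg M x := by
  unfold gg
  congr 1
  exact Finset.sum_congr rfl fun m _ => by rw [phi_add_int]

/-- Near the integers. -/
lemma phi_near {m : ℕ} (hm : 1 ≤ m) (x : ℝ) : 1 - 2 * (Real.pi * (m * x)) ^ 2 ≤ phi m x ^ 2 := by
  have hm0 : (0 : ℝ) < m := by
    have : 0 < m := by omega
    exact_mod_cast this
  have h1 := one_sub_phi_sq hm x
  have h2 : ∑ p ∈ range m, ∑ q ∈ range m, sn x ((p : ℝ) - q) ≤
      ∑ _p ∈ range m, ∑ _q ∈ range m, (Real.pi * (m * x)) ^ 2 := by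
    refine Finset.sum_le_sum fun p hp => Finset.sum_le_sum fun q hq => ?_
    rw [mem_range] at hp hq
    unfold sn
    have h3 : |Real.sin (Real.pi * (((p : ℝ) - q) * x))| ≤ |Real.pi * (m * x)| := by
      refine Real.abs_sin_le_abs.trans ?_
      rw [abs_mul, abs_mul, abs_mul, abs_mul]
      refine mul_le_mul_of_nonneg_left ?_ (abs_nonneg _)
      refine mul_le_mul_of_nonneg_right ?_ (abs_nonneg _)
      have hp' : (p : ℝ) ≤ m := by exact_mod_cast hp.le
      have hq' : (q : ℝ) ≤ m := by exact_mod_cast hq.le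
      rw [abs_of_pos hm0, abs_le]
      constructor <;> linarith [(Nat.cast_nonneg p : (0:ℝ) ≤ p), (Nat.cast_nonneg q : (0:ℝ) ≤ q)]
    rw [← sq_abs, ← sq_abs (Real.pi * (m * x))]
    exact pow_le_pow_left₀ (abs_nonneg _) h3 2
  simp only [sum_const, card_range, nsmul_eq_mul] at h2
  have h3 : (m : ℝ) ^ 2 * (1 - phi m x ^ 2) ≤ (m : ℝ) ^ 2 * (2 * (Real.pi * (m * x)) ^ 2) := by
    rw [h1]
    nlinarith [h2]
  have h4 := le_of_mul_le_mul_left h3 (by positivity)
  linarith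

/-- `gg` near the integers. -/
lemma gg_near {M : ℕ} (hM : 1 ≤ M) (x : ℝ) (n : ℤ) (hx : M * |x - n| ≤ 1 / 200) :
    1 - 1 / 2000 ≤ gg M x := by
  have hM0 : (0 : ℝ) < M := by
    have : 0 < M := by omega
    exact_mod_cast this
  have h0 : gg M x = gg M (x - n) := by
    have := gg_add_int M (x - n) n
    rw [← this]; congr 1; ring
  rw [h0]
  unfold gg
  rw [le_div_iff₀ hM0]
  have h1 : ∀ m ∈ range M, (1 - 1 / 2000 : ℝ) ≤ phi (m + 1) (x - n) ^ 2 := by
    intro m hm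
    rw [mem_range] at hm
    have h2 := phi_near (m := m + 1) (by omega) (x - n)
    refine le_trans ?_ h2
    have h3 : |(((m + 1 : ℕ) : ℝ)) * (x - n)| ≤ 1 / 200 := by
      rw [abs_mul, abs_of_nonneg (Nat.cast_nonneg _)]
      refine le_trans ?_ hx
      refine mul_le_mul_of_nonneg_right ?_ (abs_nonneg _)
      have : m + 1 ≤ M := by omega
      exact_mod_cast this
    have h4 : ((((m + 1 : ℕ) : ℝ)) * (x - n)) ^ 2 ≤ (1 / 200) ^ 2 := by
      rw [← sq_abs]
      exact pow_le_pow_left₀ (abs_nonneg _) h3 2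
    have hpi : Real.pi ^ 2 ≤ 10 := by
      have := Real.pi_lt_d2
      have := Real.pi_pos
      nlinarith
    have h5 : (Real.pi * ((((m + 1 : ℕ) : ℝ)) * (x - n))) ^ 2 ≤ 10 * (1 / 200) ^ 2 := by
      rw [mul_pow]
      exact mul_le_mul hpi h4 (by positivity) (by norm_num)
    norm_num at h5 ⊢
    linarith
  calc (1 - 1 / 2000 : ℝ) * M = ∑ _m ∈ range M, (1 - 1 / 2000 : ℝ) := by
        rw [sum_const, card_range, nsmul_eq_mul]; ring
    _ ≤ _ := Finset.sum_le_sum h1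

/-- Small kernels are large. -/
lemma phi_large {m : ℕ} (hm : 1 ≤ m) {x : ℝ} (hx : m * |x| ≤ 1 / 2) (hx0 : x ≠ 0) :
    2 / 5 ≤ phi m x ^ 2 := by
  have hm0 : (0 : ℝ) < m := by
    have : 0 < m := by omega
    exact_mod_cast this
  have hxa : 0 < |x| := abs_pos.mpr hx0
  have h1 := dir_mul m x
  have h2 : ‖dir m x‖ * ‖ex x - 1‖ = ‖ex (m * x) - 1‖ := by rw [← norm_mul, h1]
  have h3 : 4 * |(m : ℝ) * x| ≤ ‖ex (m * x) - 1‖ := by
    refine four_mul_abs_le_norm _ ?_
    rw [abs_mul, abs_of_pos hm0]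
    exact hx
  have h4 : ‖ex x - 1‖ ≤ 2 * (Real.pi * |x|) := by
    rw [norm_ex_sub_one]
    have := Real.abs_sin_le_abs (x := Real.pi * x)
    rw [abs_mul, abs_of_pos Real.pi_pos] at this
    linarith
  have hpi := Real.pi_pos
  have hpi2 := Real.pi_lt_d2
  have h5 : 4 * ((m : ℝ) * |x|) ≤ ‖dir m x‖ * (2 * (Real.pi * |x|)) := by
    calc 4 * ((m : ℝ) * |x|) = 4 * |(m : ℝ) * x| := by rw [abs_mul, abs_of_pos hm0]
      _ ≤ ‖ex (m * x) - 1‖ := h3
      _ = ‖dir m x‖ * ‖ex x - 1‖ := h2.symm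
      _ ≤ _ := mul_le_mul_of_nonneg_left h4 (norm_nonneg _)
  have h6 : 2 * (m : ℝ) ≤ ‖dir m x‖ * Real.pi := by
    have h7 : (2 * |x|) * (2 * (m : ℝ)) ≤ (2 * |x|) * (‖dir m x‖ * Real.pi) := by linarith
    exact le_of_mul_le_mul_left h7 (by positivity)
  have h7 : (2 : ℝ) / 3.15 ≤ phi m x := by
    unfold phi
    rw [div_le_div_iff₀ (by norm_num) hm0]
    have := norm_nonneg (dir m x)
    nlinarith
  calc (2 : ℝ) / 5 ≤ (2 / 3.15) ^ 2 := by norm_num
    _ ≤ phi m x ^ 2 := pow_le_pow_left₀ (by norm_num) h7 2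

/-- `gg` away from the integers. -/
lemma gg_far {M : ℕ} (hM : 1 ≤ M) (x : ℝ) (n : ℤ) (hn : |x - n| ≤ 1 / 2)
    (hx : 1 / 200 < M * |x - n|) : 1 ≤ 500 * (M * |x - n|) * gg M x := by
  have hM0 : (0 : ℝ) < M := by
    have : 0 < M := by omega
    exact_mod_cast this
  have h0 : gg M x = gg M (x - n) := by
    have := gg_add_int M (x - n) n
    rw [← this]; congr 1; ring
  rw [h0]
  set y : ℝ := x - n with hy
  have hy0 : 0 < |y| := by
    by_contra h
    push Not at h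
    have h1 : |y| = 0 := le_antisymm h (abs_nonneg _)
    rw [h1] at hx
    norm_num at hx
  have hyne : y ≠ 0 := abs_pos.mp hy0
  rcases le_or_gt ((M : ℝ) * |y|) (1 / 2) with h | h
  · have h1 : 2 / 5 ≤ gg M y := by
      unfold gg
      rw [le_div_iff₀ hM0]
      calc (2 / 5 : ℝ) * M = ∑ _m ∈ range M, (2 / 5 : ℝ) := by
            rw [sum_const, card_range, nsmul_eq_mul]; ring
        _ ≤ _ := by
          refine Finset.sum_le_sum fun m hm => ?_
          rw [mem_range] at hm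
          refine phi_large (by omega) ?_ hyne
          refine le_trans (mul_le_mul_of_nonneg_right ?_ (abs_nonneg _)) h
          have : m + 1 ≤ M := by omega
          exact_mod_cast this
    nlinarith
  · -- `K = ⌊1 / (2 |y|)⌋`
    set K : ℕ := ⌊1 / (2 * |y|)⌋₊ with hK
    have hinv : 1 ≤ 1 / (2 * |y|) := by
      rw [one_le_div (by positivity)]; linarith
    have hK1 : 1 ≤ K := by rw [hK, Nat.le_floor_iff (by positivity)]; simpa using hinv
    have hKr : (K : ℝ) ≤ 1 / (2 * |y|) := Nat.floor_le (by positivity)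
    have hKr2 : 1 / (2 * |y|) < K + 1 := Nat.lt_floor_add_one _
    have hK1r : (1 : ℝ) ≤ K := by exact_mod_cast hK1
    have hKM : K ≤ M := by
      have : (K : ℝ) < M := by
        refine lt_of_le_of_lt hKr ?_
        rw [div_lt_iff₀ (by positivity)]
        linarith
      exact_mod_cast this.le
    have h1 : (2 / 5 : ℝ) * K ≤ gg M y * M := by
      unfold gg
      rw [div_mul_cancel₀ _ hM0.ne']
      calc (2 / 5 : ℝ) * K = ∑ _m ∈ range K, (2 / 5 : ℝ) := by
            rw [sum_const, card_range, nsmul_eq_mul]; ring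
        _ ≤ ∑ m ∈ range K, phi (m + 1) y ^ 2 := by
          refine Finset.sum_le_sum fun m hm => ?_
          rw [mem_range] at hm
          refine phi_large (by omega) ?_ hyne
          have h2 : ((m + 1 : ℕ) : ℝ) ≤ K := by
            have : m + 1 ≤ K := by omega
            exact_mod_cast this
          calc ((m + 1 : ℕ) : ℝ) * |y| ≤ 1 / (2 * |y|) * |y| :=
                mul_le_mul_of_nonneg_right (h2.trans hKr) hy0.le
            _ = 1 / 2 := by field_simp
        _ ≤ _ := sum_le_sum_of_subset_of_nonneg (range_subset_range.mpr hKM)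
            fun _ _ _ => sq_nonneg _
    have h2 : 1 / (4 * |y|) ≤ K := by
      have : 1 / (4 * |y|) = 1 / (2 * |y|) / 2 := by field_simp; norm_num
      rw [this]
      linarith
    have h3 : (1 : ℝ) ≤ 4 * |y| * K := by
      rw [div_le_iff₀ (by positivity)] at h2
      linarith
    have h4 : (4 * |y|) * ((2 / 5 : ℝ) * K) ≤ (4 * |y|) * (gg M y * M) :=
      mul_le_mul_of_nonneg_left h1 (by positivity)
    have h5 : 0 ≤ M * |y| * gg M y := by
      have := gg_nonneg M y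
      positivity
    linarith

/-- `phi` away from the integers. -/
lemma phi_far {b : ℕ} (hb : 1 ≤ b) (x : ℝ) (n : ℤ) (hn : |x - n| ≤ 1 / 2) :
    phi b x * (2 * (b * |x - n|)) ≤ 1 := by
  have hb0 : (0 : ℝ) < b := by
    have : 0 < b := by omega
    exact_mod_cast this
  have h0 : phi b x = phi b (x - n) := by
    have := phi_add_int b (x - n) n
    rw [← this]; congr 1; ring
  rw [h0]
  have h1 := norm_dir_mul_le b (x - n)
  have h2 := four_mul_abs_le_norm (x - n) hn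
  have h3 : ‖dir b (x - n)‖ * (4 * |x - n|) ≤ 2 :=
    (mul_le_mul_of_nonneg_left h2 (norm_nonneg _)).trans h1
  unfold phi
  have h4 : ‖dir b (x - n)‖ / b * (2 * (b * |x - n|)) = ‖dir b (x - n)‖ * (4 * |x - n|) / 2 := by
    field_simp
    ring
  rw [h4]
  linarith

/-- Comparison of `phi` and `gg` away from the integers. -/
lemma phi_le_gg_far {b M : ℕ} (hb : 1 ≤ b) (hM : 1 ≤ M) (x : ℝ) (n : ℤ) (hn : |x - n| ≤ 1 / 2)
    (hx : 1 / 200 < M * |x - n|) : phi b x ≤ 250 * M / b * gg M x := by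
  have hb0 : (0 : ℝ) < b := by
    have : 0 < b := by omega
    exact_mod_cast this
  have h1 := gg_far hM x n hn hx
  have h2 := phi_far hb x n hn
  have hp := phi_nonneg b x
  have hg := gg_nonneg M x
  rw [div_mul_eq_mul_div, le_div_iff₀ hb0]
  -- `phi * b ≤ phi * b * 500 M y g = 250 M g (phi 2 b y) ≤ 250 M g`
  calc phi b x * b = (phi b x * b) * 1 := by ring
    _ ≤ (phi b x * b) * (500 * (M * |x - n|) * gg M x) :=
        mul_le_mul_of_nonneg_left h1 (by positivity)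
    _ = (250 * M * gg M x) * (phi b x * (2 * (b * |x - n|))) := by ring
    _ ≤ (250 * M * gg M x) * 1 := mul_le_mul_of_nonneg_left h2 (by positivity)
    _ = _ := by ring

/-- Comparison of `phi` and `gg`. -/
lemma phi_le_gg {b M : ℕ} (hb : 1 ≤ b) (hM : 1 ≤ M) (hMb : 250 * (M : ℝ) ≤ b) (x : ℝ) :
    phi b x ≤ (1 + 1 / 600) * gg M x := by
  have hb0 : (0 : ℝ) < b := by
    have : 0 < b := by omega
    exact_mod_cast this
  have hg := gg_nonneg M x
  rcases le_or_gt ((M : ℝ) * |x - round x|) (1 / 200) with h | h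
  · have h1 := gg_near hM x (round x) h
    have h2 := phi_le_one b x
    linarith
  · have h1 := phi_le_gg_far hb hM x (round x) (abs_sub_round x) h
    refine h1.trans (mul_le_mul_of_nonneg_right ?_ hg)
    refine le_trans ?_ (by norm_num : (1 : ℝ) ≤ 1 + 1 / 600)
    rw [div_le_one hb0]
    exact hMb

/-- The inequality at a single site. -/
lemma site {b M : ℕ} (hb : 1 ≤ b) (hM : 1 ≤ M) {e : ℝ} (he : 0 ≤ e)
    (hMe : (250 * (M : ℝ) / b) ^ 3 ≤ e / 2) (x : ℝ) :
    phi b x ^ 3 ≤ (1 + 1 / 600) * (gg M x ^ 2 * (hh b x * (phi b x ^ 2 + e * gg M x))) := by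
  have hp := phi_nonneg b x
  have hp1 := phi_le_one b x
  have hg := gg_nonneg M x
  have hh1 := phi_le_hh b x
  have hh2 := hh_ge b x
  rcases le_or_gt ((M : ℝ) * |x - round x|) (1 / 200) with h | h
  · have h1 := gg_near hM x (round x) h
    have h2 : (1 : ℝ) ≤ (1 + 1 / 600) * gg M x ^ 2 := by
      have h3 : (1 - 1 / 2000 : ℝ) ^ 2 ≤ gg M x ^ 2 := pow_le_pow_left₀ (by norm_num) h1 2
      norm_num at h3 ⊢
      linarith
    have h3 : phi b x ^ 3 ≤ hh b x * (phi b x ^ 2 + e * gg M x) := by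
      have h4 : phi b x ^ 3 = phi b x * phi b x ^ 2 := by ring
      rw [h4]
      have h5 : phi b x * phi b x ^ 2 ≤ hh b x * phi b x ^ 2 :=
        mul_le_mul_of_nonneg_right hh1 (sq_nonneg _)
      have h6 : 0 ≤ hh b x * (e * gg M x) := by positivity
      linarith
    have h4 : 0 ≤ hh b x * (phi b x ^ 2 + e * gg M x) := le_trans (by positivity) h3
    calc phi b x ^ 3 ≤ 1 * (hh b x * (phi b x ^ 2 + e * gg M x)) := by linarith
      _ ≤ ((1 + 1 / 600) * gg M x ^ 2) * (hh b x * (phi b x ^ 2 + e * gg M x)) :=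
          mul_le_mul_of_nonneg_right h2 h4
      _ = _ := by ring
  · have h1 := phi_le_gg_far hb hM x (round x) (abs_sub_round x) h
    have h2 : phi b x ^ 3 ≤ (e / 2) * gg M x ^ 3 := by
      calc phi b x ^ 3 ≤ (250 * M / b * gg M x) ^ 3 := pow_le_pow_left₀ hp h1 3
        _ = (250 * (M : ℝ) / b) ^ 3 * gg M x ^ 3 := by ring
        _ ≤ _ := mul_le_mul_of_nonneg_right hMe (by positivity)
    have h3 : (e / 2) * gg M x ^ 3 ≤ gg M x ^ 2 * (hh b x * (phi b x ^ 2 + e * gg M x)) := by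
      have h4 : (1 / 2) * (e * gg M x) ≤ hh b x * (phi b x ^ 2 + e * gg M x) := by
        have h5 : (1 / 2) * (e * gg M x) ≤ hh b x * (e * gg M x) :=
          mul_le_mul_of_nonneg_right hh2 (by positivity)
        have h6 : 0 ≤ hh b x * phi b x ^ 2 := by
          have := hh_nonneg b x
          positivity
        linarith
      calc (e / 2) * gg M x ^ 3 = gg M x ^ 2 * ((1 / 2) * (e * gg M x)) := by ring
        _ ≤ _ := mul_le_mul_of_nonneg_left h4 (by positivity)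
    have h4 : 0 ≤ gg M x ^ 2 * (hh b x * (phi b x ^ 2 + e * gg M x)) := by
      have := hh_nonneg b x
      positivity
    linarith

end Pool.Agent.PalL
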