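import Pool.Agent.Pal.LevelMain
import Pool.Agent.PalL.HasCen

/-!
# Level of distribution of the palindromes from the central estimate
-/

namespace Pool.Agent.PalL

open Finset Pool.Agent.Pal

/-- The majorant summed over the fractions. -/
lemma sum_S_le_gen {b : ℕ} (hb : 2 ≤ b) {θ : ℝ} (hθ : θ < 1 / 2) (hcen : HasCen b θ) :
    ∃ (σ C : ℝ), 0 < σ ∧ 0 < C ∧ ∀ Λ ℓ D : ℕ, ℓ ≤ Λ → 2 ≤ D →
      Real.log D ≤ θ * Real.log b * Λ →
      ∑ x ∈ J b D, S b ℓ (pt b x) ≤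
        C * Real.sqrt ((b : ℝ) ^ Λ) * D * ((Λ : ℝ) + 1) * Real.exp (-σ * Real.sqrt Λ) := by
  obtain ⟨σ, δ, C, hσ, hδ, hC, hmain⟩ := hcen
  have hb0 : (2 : ℝ) ≤ b := by exact_mod_cast hb
  have hbp : (0 : ℝ) < b := by linarith
  have hb1 : (1 : ℝ) ≤ b := by linarith
  have hL := log_pos_b hb
  have hBp := BB_pos hb
  set κ : ℝ := (1 / 2 - θ) * Real.log b with hκdef
  have hκ0 : 0 < κ := mul_pos (by linarith) hL
  refine ⟨min (σ / 2) (κ), b * (2 * BB b) + b ^ 2 * Real.sqrt C, by positivity,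
    by positivity, ?_⟩
  intro Λ ℓ D hℓ hD hDL
  have hDp : (0 : ℝ) < D := by
    have : 0 < D := by omega
    exact_mod_cast this
  set M : ℝ := Real.sqrt ((b : ℝ) ^ Λ) * D * Real.exp (-(min (σ / 2) (κ)) * Real.sqrt Λ)
    with hM
  have hM0 : 0 < M := by positivity
  -- each `T` term
  have hT : ∀ ℓ' : ℕ, ℓ' ≤ Λ → (b : ℝ) ^ (ℓ' / 2 + 2) * T b ℓ' D ≤ b ^ 2 * Real.sqrt C * M := by
    intro ℓ' hℓ'
    have h1 := hmain Λ ℓ' D hℓ' hD hDL
    unfold Bd2 at h1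
    have h0 : Real.exp (-σ * Real.sqrt Λ - δ * Real.log D) ≤ Real.exp (-σ * Real.sqrt Λ) := by
      rw [Real.exp_le_exp]
      have : 0 ≤ δ * Real.log D := mul_nonneg hδ.le (Real.log_nonneg (by
        have : 1 ≤ D := by omega
        exact_mod_cast this))
      linarith
    replace h1 : (b : ℝ) ^ ℓ' * (T b ℓ' D) ^ 2 ≤ C * (b : ℝ) ^ Λ * (D : ℝ) ^ 2 *
        Real.exp (-σ * Real.sqrt Λ) :=
      h1.trans (mul_le_mul_of_nonneg_left h0 (by positivity))
    have h2 : ((b : ℝ) ^ (ℓ' / 2) * T b ℓ' D) ^ 2 ≤ C * (b : ℝ) ^ Λ * (D : ℝ) ^ 2 *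
        Real.exp (-σ * Real.sqrt Λ) := by
      refine le_trans ?_ h1
      rw [mul_pow]
      refine mul_le_mul_of_nonneg_right ?_ (by positivity)
      rw [← pow_mul]
      exact pow_le_pow_right₀ hb1 (by omega)
    have h3 : (b : ℝ) ^ (ℓ' / 2) * T b ℓ' D ≤ Real.sqrt C * Real.sqrt ((b : ℝ) ^ Λ) * D *
        Real.exp (-(σ / 2) * Real.sqrt Λ) := by
      refine le_of_sq_le_sq ?_ (by positivity)
      refine h2.trans (le_of_eq ?_)
      rw [mul_pow, mul_pow, mul_pow, Real.sq_sqrt hC.le, Real.sq_sqrt (by positivity),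
        ← Real.exp_nat_mul]
      congr 2
      push_cast; ring
    have h4 : Real.exp (-(σ / 2) * Real.sqrt Λ) ≤
        Real.exp (-(min (σ / 2) (κ)) * Real.sqrt Λ) := by
      rw [Real.exp_le_exp]
      have := Real.sqrt_nonneg (Λ : ℝ)
      have h5 := min_le_left (σ / 2) (κ)
      nlinarith
    calc (b : ℝ) ^ (ℓ' / 2 + 2) * T b ℓ' D = b ^ 2 * ((b : ℝ) ^ (ℓ' / 2) * T b ℓ' D) := by
          rw [pow_add]; ring
      _ ≤ b ^ 2 * (Real.sqrt C * Real.sqrt ((b : ℝ) ^ Λ) * D *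
          Real.exp (-(σ / 2) * Real.sqrt Λ)) := mul_le_mul_of_nonneg_left h3 (by positivity)
      _ ≤ b ^ 2 * (Real.sqrt C * Real.sqrt ((b : ℝ) ^ Λ) * D *
          Real.exp (-(min (σ / 2) (κ)) * Real.sqrt Λ)) := by gcongr
      _ = _ := by rw [hM]; ring
  -- the trivial term
  have hJ : (b : ℝ) * ((J b D).card : ℝ) ≤ b * (2 * BB b) * M := by
    have h1 := card_J_le (b := b) (D := D)
    have h2 : (D : ℝ) ≤ Real.sqrt ((b : ℝ) ^ Λ) *
        Real.exp (-(min (σ / 2) (κ)) * Real.sqrt Λ) := by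
      have h3 : Real.sqrt ((b : ℝ) ^ Λ) = Real.exp (Real.log b * Λ / 2) := by
        rw [Real.sqrt_eq_iff_mul_self_eq (by positivity) (Real.exp_pos _).le, ← Real.exp_add,
          pow_eq_exp hb]
        congr 1; ring
      rw [h3, ← Real.exp_add]
      nth_rewrite 1 [← Real.exp_log hDp]
      rw [Real.exp_le_exp]
      have h5 := sqrt_nat_le Λ
      have h6 : min (σ / 2) (κ) * Real.sqrt Λ ≤ κ * Λ := by
        refine mul_le_mul (min_le_right _ _) h5 (Real.sqrt_nonneg _) (by positivity)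
      have h7 : κ * Λ = 1 / 2 * (Real.log b * Λ) - θ * Real.log b * Λ := by rw [hκdef]; ring
      linarith
    calc (b : ℝ) * ((J b D).card : ℝ) ≤ b * (2 * BB b * (D : ℝ) ^ 2) :=
          mul_le_mul_of_nonneg_left h1 hbp.le
      _ = b * (2 * BB b) * (D * D) := by ring
      _ ≤ b * (2 * BB b) * (D * (Real.sqrt ((b : ℝ) ^ Λ) *
        Real.exp (-(min (σ / 2) (κ)) * Real.sqrt Λ))) := by gcongr
      _ = _ := by rw [hM]; ring
  -- recursion
  have hrec : ∀ ℓ' : ℕ, ℓ' ≤ Λ → ∑ x ∈ J b D, S b ℓ' (pt b x) ≤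
      b * (2 * BB b) * M + ℓ' * (b ^ 2 * Real.sqrt C * M) := by
    intro ℓ'
    induction ℓ' using two_step_induction with
    | h0 =>
      intro _
      have : ∑ x ∈ J b D, S b 0 (pt b x) = (b : ℝ) * ((J b D).card : ℝ) := by
        show ∑ x ∈ J b D, (b : ℝ) = _
        rw [sum_const, nsmul_eq_mul, mul_comm]
      rw [this]
      simpa using hJ
    | h1 =>
      intro _
      have : ∑ x ∈ J b D, S b 1 (pt b x) = (b : ℝ) * ((J b D).card : ℝ) := by
        show ∑ x ∈ J b D, (b : ℝ) = _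
        rw [sum_const, nsmul_eq_mul, mul_comm]
      rw [this]
      have : 0 ≤ ((1 : ℕ) : ℝ) * (b ^ 2 * Real.sqrt C * M) := by positivity
      linarith
    | h2 ℓ' ih =>
      intro hℓ'
      have h1 := ih (by omega)
      have h2 := hT ℓ' (by omega)
      have h3 : ∑ x ∈ J b D, S b (ℓ' + 2) (pt b x) =
          (b : ℝ) ^ (ℓ' / 2 + 2) * T b ℓ' D + ∑ x ∈ J b D, S b ℓ' (pt b x) := by
        have h4 : ∀ x ∈ J b D, S b (ℓ' + 2) (pt b x) =
            (b : ℝ) ^ (ℓ' / 2 + 2) * blk b ℓ' 0 ((ℓ' + 1) / 2) ((b : ℝ) ^ 1 * pt b x) +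
              S b ℓ' ((b : ℝ) ^ 1 * pt b x) := by
          intro x _
          rw [pow_one]
          rfl
        rw [Finset.sum_congr rfl h4, Finset.sum_add_distrib, ← Finset.mul_sum,
          sum_J_mul 1 (fun y => blk b ℓ' 0 ((ℓ' + 1) / 2) y) (fun y n => blk_add_int _ _ _ _ _ _),
          sum_J_mul 1 (S b ℓ') (S_add_int b ℓ')]
        rfl
      rw [h3]
      push_cast
      have h5 : 0 ≤ b ^ 2 * Real.sqrt C * M := by positivity
      linarith
  refine (hrec ℓ hℓ).trans ?_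
  have hℓr : (ℓ : ℝ) ≤ Λ := by exact_mod_cast hℓ
  have hΛ0 : (0 : ℝ) ≤ Λ := Nat.cast_nonneg _
  calc b * (2 * BB b) * M + ℓ * (b ^ 2 * Real.sqrt C * M)
      ≤ b * (2 * BB b) * M * ((Λ : ℝ) + 1) + ((Λ : ℝ) + 1) * (b ^ 2 * Real.sqrt C * M) := by
        refine add_le_add ?_ ?_
        · have : 0 ≤ b * (2 * BB b) * M := by positivity
          nlinarith
        · refine mul_le_mul_of_nonneg_right (by linarith) (by positivity)
    _ = _ := by rw [hM]; ring

/-- The average over the moduli of the majorants. -/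
lemma sum_moduli_le_gen {b : ℕ} (hb : 2 ≤ b) {θ : ℝ} (hθ : θ < 1 / 2) (hcen : HasCen b θ) :
    ∃ (σ C : ℝ), 0 < σ ∧ 0 < C ∧ ∀ Λ ℓ Q : ℕ, ℓ ≤ Λ → 1 ≤ Q →
      Real.log Q ≤ θ * Real.log b * Λ →
      ∑ q ∈ (Icc 1 Q).filter (fun q => q.Coprime b), 1 / (q : ℝ) *
        ∑ c ∈ (range q).filter (fun c => ¬ q ∣ (b ^ 2 - 1) * c), S b ℓ ((c : ℝ) / q) ≤
      (Nat.log 2 Q : ℝ) * (1 + Real.log Q) *
        (C * Real.sqrt ((b : ℝ) ^ Λ) * ((Λ : ℝ) + 1) * Real.exp (-σ * Real.sqrt Λ)) := by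
  obtain ⟨σ, C, hσ, hC, hmain⟩ := sum_S_le_gen hb hθ hcen
  refine ⟨σ, C, hσ, hC, ?_⟩
  intro Λ ℓ Q hℓ hQ hQL
  have hlogQ : 0 ≤ Real.log Q := Real.log_nonneg (by exact_mod_cast hQ)
  set W : ℝ := C * Real.sqrt ((b : ℝ) ^ Λ) * ((Λ : ℝ) + 1) * Real.exp (-σ * Real.sqrt Λ) with hW
  have hW0 : 0 ≤ W := by positivity
  calc ∑ q ∈ (Icc 1 Q).filter (fun q => q.Coprime b), 1 / (q : ℝ) *
        ∑ c ∈ (range q).filter (fun c => ¬ q ∣ (b ^ 2 - 1) * c), S b ℓ ((c : ℝ) / q)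
      ≤ ∑ q ∈ (Icc 1 Q).filter (fun q => q.Coprime b), 1 / (q : ℝ) *
        ∑ j ∈ Ico 1 (Nat.log 2 Q + 1), ∑ x ∈ (J b (2 ^ j)).filter (fun x => x.1 ∣ q),
          S b ℓ (pt b x) := by
        refine Finset.sum_le_sum fun q hq => ?_
        rw [mem_filter, mem_Icc] at hq
        exact mul_le_mul_of_nonneg_left (sum_frac_le hb (by omega) hq.1.2 hq.2 (S b ℓ)
          (S_nonneg b ℓ)) (by positivity)
    _ = ∑ j ∈ Ico 1 (Nat.log 2 Q + 1), ∑ x ∈ J b (2 ^ j), S b ℓ (pt b x) *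
          ∑ q ∈ (Icc 1 Q).filter (fun q => q.Coprime b), (if x.1 ∣ q then 1 / (q : ℝ) else 0) := by
        simp_rw [Finset.mul_sum, Finset.sum_filter (fun x : ℕ × ℕ => x.1 ∣ _)]
        rw [Finset.sum_comm]
        refine Finset.sum_congr rfl fun j _ => ?_
        rw [Finset.sum_comm]
        refine Finset.sum_congr rfl fun x _ => ?_
        refine Finset.sum_congr rfl fun q _ => ?_
        split_ifs <;> ring
    _ ≤ ∑ j ∈ Ico 1 (Nat.log 2 Q + 1), ∑ x ∈ J b (2 ^ j), S b ℓ (pt b x) *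
          ((1 + Real.log Q) / 2 ^ j) := by
        refine Finset.sum_le_sum fun j _ => Finset.sum_le_sum fun x hx => ?_
        refine mul_le_mul_of_nonneg_left ?_ (S_nonneg _ _ _)
        rw [mem_J] at hx
        have hx1 : 0 < x.1 := lt_of_lt_of_le (by positivity) hx.1
        have hx1r : (0 : ℝ) < x.1 := by exact_mod_cast hx1
        have h2j : (2 : ℝ) ^ j ≤ x.1 := by exact_mod_cast hx.1
        have h1 : ∑ q ∈ (Icc 1 Q).filter (fun q => q.Coprime b),
            (if x.1 ∣ q then 1 / (q : ℝ) else 0) ≤ ∑ e ∈ Icc 1 Q, 1 / (x.1 : ℝ) * (1 / (e : ℝ)) := by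
          rw [← Finset.sum_filter]
          have h2 : ∑ e ∈ Icc 1 Q, 1 / (x.1 : ℝ) * (1 / (e : ℝ)) =
              ∑ q ∈ (Icc 1 Q).image (fun e => x.1 * e), 1 / (q : ℝ) := by
            rw [sum_image (by
              intro u _ v _ huv
              exact Nat.eq_of_mul_eq_mul_left hx1 huv)]
            refine Finset.sum_congr rfl fun e _ => ?_
            push_cast
            rw [one_div_mul_one_div]
          rw [h2]
          refine sum_le_sum_of_subset_of_nonneg ?_ fun _ _ _ => by positivity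
          intro q hq
          rw [mem_filter, mem_filter, mem_Icc] at hq
          obtain ⟨⟨⟨q1, q2⟩, _⟩, e, he⟩ := hq
          rw [mem_image]
          refine ⟨e, ?_, he.symm⟩
          rw [mem_Icc]
          constructor
          · rcases Nat.eq_zero_or_pos e with h | h
            · rw [h] at he; omega
            · exact h
          · calc e ≤ x.1 * e := Nat.le_mul_of_pos_left e hx1
              _ = q := he.symm
              _ ≤ Q := q2
        refine h1.trans ?_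
        rw [← Finset.mul_sum]
        calc 1 / (x.1 : ℝ) * ∑ e ∈ Icc 1 Q, 1 / (e : ℝ) ≤ 1 / 2 ^ j * (1 + Real.log Q) := by
              refine mul_le_mul ?_ (sum_inv_le Q) (Finset.sum_nonneg fun _ _ => by positivity)
                (by positivity)
              exact one_div_le_one_div_of_le (by positivity) h2j
          _ = _ := by ring
    _ ≤ ∑ j ∈ Ico 1 (Nat.log 2 Q + 1), (1 + Real.log Q) * W := by
        refine Finset.sum_le_sum fun j hj => ?_
        rw [mem_Ico] at hj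
        rw [← Finset.sum_mul]
        have h2j : 2 ≤ 2 ^ j := by
          calc 2 = 2 ^ 1 := by norm_num
            _ ≤ 2 ^ j := Nat.pow_le_pow_right (by norm_num) hj.1
        have h2jQ : 2 ^ j ≤ Q := by
          calc 2 ^ j ≤ 2 ^ Nat.log 2 Q := Nat.pow_le_pow_right (by norm_num) (by omega)
            _ ≤ Q := Nat.pow_log_le_self 2 (by omega)
        have hlog : Real.log ((2 ^ j : ℕ) : ℝ) ≤ θ * Real.log b * Λ := by
          refine le_trans (Real.log_le_log ?_ ?_) hQL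
          · have : 0 < 2 ^ j := by positivity
            exact_mod_cast this
          · exact_mod_cast h2jQ
        have h := hmain Λ ℓ (2 ^ j) hℓ h2j hlog
        have hjpos : (0 : ℝ) < 2 ^ j := by positivity
        calc (∑ x ∈ J b (2 ^ j), S b ℓ (pt b x)) * ((1 + Real.log Q) / 2 ^ j)
            ≤ (C * Real.sqrt ((b : ℝ) ^ Λ) * ((2 ^ j : ℕ) : ℝ) * ((Λ : ℝ) + 1) *
                Real.exp (-σ * Real.sqrt Λ)) * ((1 + Real.log Q) / 2 ^ j) :=
              mul_le_mul_of_nonneg_right h (by positivity)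
          _ = (1 + Real.log Q) * W := by
              rw [hW]; push_cast; field_simp
    _ = _ := by
        rw [sum_const, Nat.card_Ico, nsmul_eq_mul]
        have : Nat.log 2 Q + 1 - 1 = Nat.log 2 Q := by omega
        rw [this]
        ring

/-- Level of distribution `θ` from the central estimate. -/
theorem level_gen {b : ℕ} (hb : 2 ≤ b) {θ : ℝ} (hθ0 : 0 ≤ θ) (hθ : θ < 1 / 2)
    (hcen : HasCen b θ) :
    ∃ (σ C : ℝ), 0 < σ ∧ 0 < C ∧ ∀ x : ℝ, 1 ≤ x → ∀ (y : ℕ → ℝ), (∀ q, y q ≤ x) → ∀ (a : ℕ → ℤ),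
      ∑ q ∈ (Icc 1 ⌊x ^ θ⌋₊).filter (fun q => q.Coprime b),
        |(palCount b ⌊y q⌋₊ q (a q) : ℝ) -
          (Nat.gcd q (b ^ 2 - 1) : ℕ) / q *
            (palCount b ⌊y q⌋₊ (Nat.gcd q (b ^ 2 - 1)) (a q) : ℝ)| ≤
      C * (palCount b ⌊x⌋₊ 1 0 : ℝ) * Real.exp (-σ * Real.sqrt (Real.log x)) := by
  obtain ⟨σ, C, hσ, hC, hmain⟩ := sum_moduli_le_gen hb hθ hcen
  have hL := log_pos_b hb
  have hb0 : (2 : ℝ) ≤ b := by exact_mod_cast hb
  have hbp : (0 : ℝ) < b := by linarith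
  set L := Real.log b with hLdef
  refine ⟨σ / 2 / Real.sqrt L, 8 * (1 + L) ^ 2 * C * b * ((2 / σ) ^ 8 * 40320) * b, by positivity,
    by positivity, ?_⟩
  intro x hx y hy a
  have hx0 : 0 < x := by linarith
  set X := ⌊x⌋₊ with hX
  have hX1 : 1 ≤ X := by rw [hX, Nat.le_floor_iff hx0.le]; simpa using hx
  set Λ := Nat.log b X with hΛ
  have hΛ1 : b ^ Λ ≤ X := Nat.pow_log_le_self b (by omega)
  have hΛ2 : X < b ^ (Λ + 1) := Nat.lt_pow_succ_log_self (by omega) X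
  have hxlt : x < (b : ℝ) ^ (Λ + 1) := by
    have : x < ((b ^ (Λ + 1) : ℕ) : ℝ) := by
      rw [← Nat.floor_lt hx0.le]; exact hΛ2
    exact_mod_cast this
  have hlogx : Real.log x ≤ L * ((Λ + 1 : ℕ) : ℝ) := by
    have := Real.log_le_log hx0 hxlt.le
    rwa [Real.log_pow, mul_comm] at this
  have hlogx0 : 0 ≤ Real.log x := Real.log_nonneg hx
  set n : ℕ := Λ + 1 with hn
  have hn1 : (1 : ℝ) ≤ n := by rw [hn]; push_cast; linarith [(Nat.cast_nonneg Λ : (0:ℝ) ≤ Λ)]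
  set Q := ⌊x ^ θ⌋₊ with hQ
  have hQ1 : 1 ≤ Q := by
    rw [hQ, Nat.le_floor_iff (by positivity)]
    have := Real.one_le_rpow hx hθ0
    simpa using this
  have hQr : (1 : ℝ) ≤ Q := by exact_mod_cast hQ1
  have hQlog : Real.log Q ≤ θ * L * n := by
    have h1 : (Q : ℝ) ≤ x ^ θ := Nat.floor_le (by positivity)
    have h2 := Real.log_le_log (by linarith) h1
    rw [Real.log_rpow hx0] at h2
    calc Real.log Q ≤ θ * Real.log x := h2
      _ ≤ θ * (L * n) := mul_le_mul_of_nonneg_left hlogx (by linarith)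
      _ = _ := by ring
  have hQ0 : 0 ≤ Real.log Q := Real.log_nonneg hQr
  have hQlog' : Real.log Q ≤ L * n := by
    refine hQlog.trans ?_
    have : 0 ≤ (L * n) := by positivity
    nlinarith
  -- single modulus bound
  have hstep : ∑ q ∈ (Icc 1 Q).filter (fun q => q.Coprime b),
        |(palCount b ⌊y q⌋₊ q (a q) : ℝ) -
          (Nat.gcd q (b ^ 2 - 1) : ℕ) / q *
            (palCount b ⌊y q⌋₊ (Nat.gcd q (b ^ 2 - 1)) (a q) : ℝ)| ≤
      ∑ ℓ ∈ range n, 2 * ∑ q ∈ (Icc 1 Q).filter (fun q => q.Coprime b), (1 / (q : ℝ) *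
        ∑ c ∈ (range q).filter (fun c => ¬ q ∣ (b ^ 2 - 1) * c), S b ℓ ((c : ℝ) / q)) := by
    have h1 : ∀ q ∈ (Icc 1 Q).filter (fun q => q.Coprime b),
        |(palCount b ⌊y q⌋₊ q (a q) : ℝ) -
          (Nat.gcd q (b ^ 2 - 1) : ℕ) / q *
            (palCount b ⌊y q⌋₊ (Nat.gcd q (b ^ 2 - 1)) (a q) : ℝ)| ≤
        ∑ ℓ ∈ range n, 2 * (1 / (q : ℝ) *
          ∑ c ∈ (range q).filter (fun c => ¬ q ∣ (b ^ 2 - 1) * c), S b ℓ ((c : ℝ) / q)) := by
      intro q hq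
      rw [mem_filter, mem_Icc] at hq
      refine palCount_diff_le hb ?_ (by omega) (a q)
      exact (Nat.floor_le_floor (hy q)).trans_lt hΛ2
    refine (Finset.sum_le_sum h1).trans (le_of_eq ?_)
    rw [Finset.sum_comm]
    refine Finset.sum_congr rfl fun ℓ _ => ?_
    rw [Finset.mul_sum]
  refine hstep.trans ?_
  -- apply the averaged bound
  set W : ℝ := C * Real.sqrt ((b : ℝ) ^ n) * ((n : ℝ) + 1) * Real.exp (-σ * Real.sqrt n) with hW
  have hW0 : 0 ≤ W := by positivity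
  have hlog2 : (Nat.log 2 Q : ℝ) ≤ 2 * (L * n) := by
    have h1 : 2 ^ Nat.log 2 Q ≤ Q := Nat.pow_log_le_self 2 (by omega)
    have h2 : ((2 : ℝ)) ^ Nat.log 2 Q ≤ Q := by exact_mod_cast h1
    have h3 := Real.log_le_log (by positivity) h2
    rw [Real.log_pow] at h3
    have h4 : (1 : ℝ) / 2 ≤ Real.log 2 := by
      have := Real.log_two_gt_d9; linarith
    have h5 : (Nat.log 2 Q : ℝ) * (1 / 2) ≤ (Nat.log 2 Q : ℝ) * Real.log 2 :=
      mul_le_mul_of_nonneg_left h4 (Nat.cast_nonneg _)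
    linarith
  have hcoef : (Nat.log 2 Q : ℝ) * (1 + Real.log Q) ≤ 2 * (1 + L) ^ 2 * (n : ℝ) ^ 2 := by
    calc (Nat.log 2 Q : ℝ) * (1 + Real.log Q) ≤ (2 * (L * n)) * (n + L * n) :=
          mul_le_mul hlog2 (by linarith) (by linarith) (by positivity)
      _ = 2 * (L * (1 + L)) * (n : ℝ) ^ 2 := by ring
      _ ≤ 2 * ((1 + L) * (1 + L)) * (n : ℝ) ^ 2 := by gcongr; linarith
      _ = _ := by ring
  have hbound : ∀ ℓ ∈ range n, 2 * ∑ q ∈ (Icc 1 Q).filter (fun q => q.Coprime b), (1 / (q : ℝ) *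
        ∑ c ∈ (range q).filter (fun c => ¬ q ∣ (b ^ 2 - 1) * c), S b ℓ ((c : ℝ) / q)) ≤
      2 * (2 * (1 + L) ^ 2 * (n : ℝ) ^ 2 * W) := by
    intro ℓ hℓ
    rw [mem_range] at hℓ
    refine mul_le_mul_of_nonneg_left ?_ (by norm_num)
    refine (hmain n ℓ Q hℓ.le hQ1 hQlog).trans ?_
    exact mul_le_mul_of_nonneg_right hcoef hW0
  refine (Finset.sum_le_sum hbound).trans ?_
  rw [sum_const, card_range, nsmul_eq_mul]
  -- final numerics
  have hsqrt : Real.sqrt ((b : ℝ) ^ n) ≤ b * Real.sqrt ((b : ℝ) ^ Λ) := by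
    rw [hn, pow_succ, Real.sqrt_mul (by positivity), mul_comm]
    refine mul_le_mul_of_nonneg_right ?_ (Real.sqrt_nonneg _)
    rw [Real.sqrt_le_left hbp.le]
    nlinarith
  have hcount := palCount_ge hb (Λ := Λ) (X := X) hΛ1
  have hexp := pow_four_mul_exp_le hσ n
  have hexp2 : Real.exp (-(σ / 2) * Real.sqrt n) ≤
      Real.exp (-(σ / 2 / Real.sqrt L) * Real.sqrt (Real.log x)) := by
    rw [Real.exp_le_exp]
    have h1 : Real.sqrt (Real.log x) ≤ Real.sqrt L * Real.sqrt n := by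
      rw [← Real.sqrt_mul hL.le]
      exact Real.sqrt_le_sqrt hlogx
    have hsL : 0 < Real.sqrt L := Real.sqrt_pos.mpr hL
    have h2 : σ / 2 / Real.sqrt L * Real.sqrt (Real.log x) ≤ σ / 2 * Real.sqrt n := by
      calc σ / 2 / Real.sqrt L * Real.sqrt (Real.log x)
          ≤ σ / 2 / Real.sqrt L * (Real.sqrt L * Real.sqrt n) :=
            mul_le_mul_of_nonneg_left h1 (by positivity)
        _ = σ / 2 * Real.sqrt n := by field_simp
    linarith
  calc (n : ℝ) * (2 * (2 * (1 + L) ^ 2 * (n : ℝ) ^ 2 * W))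
      = 4 * (1 + L) ^ 2 * C * Real.sqrt ((b : ℝ) ^ n) *
          ((n : ℝ) ^ 3 * ((n : ℝ) + 1) * Real.exp (-σ * Real.sqrt n)) := by rw [hW]; ring
    _ ≤ 4 * (1 + L) ^ 2 * C * (b * Real.sqrt ((b : ℝ) ^ Λ)) *
          ((n : ℝ) ^ 3 * (n + n) * Real.exp (-σ * Real.sqrt n)) := by
        gcongr
    _ = 8 * (1 + L) ^ 2 * C * b * Real.sqrt ((b : ℝ) ^ Λ) *
          ((n : ℝ) ^ 4 * Real.exp (-σ * Real.sqrt n)) := by ring
    _ ≤ 8 * (1 + L) ^ 2 * C * b * (b * (palCount b X 1 0 : ℝ)) *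
          ((2 / σ) ^ 8 * 40320 * Real.exp (-(σ / 2) * Real.sqrt n)) := by
        gcongr
    _ ≤ 8 * (1 + L) ^ 2 * C * b * (b * (palCount b X 1 0 : ℝ)) *
          ((2 / σ) ^ 8 * 40320 * Real.exp (-(σ / 2 / Real.sqrt L) * Real.sqrt (Real.log x))) := by
        gcongr
    _ = _ := by ring

end Pool.Agent.PalL
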