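import Pool.Agent.PalL.Cen
import Pool.Agent.PalL.LevelG

/-!
# The rate `1/2 - 40 log log b / log b`
-/

namespace Pool.Agent.PalL

open Finset Pool.Agent.Pal

lemma HasCen.mono {b : ℕ} {θ θ' : ℝ} (hb : 2 ≤ b) (h : HasCen b θ) (hθ : θ' ≤ θ) :
    HasCen b θ' := by
  obtain ⟨σ, δ, C, h1, h2, h3, h4⟩ := h
  refine ⟨σ, δ, C, h1, h2, h3, fun Λ ℓ D hℓ hD hDL => h4 Λ ℓ D hℓ hD (hDL.trans ?_)⟩
  have hL := log_pos_b hb
  have h5 : 0 ≤ Real.log b * (Λ : ℝ) := by positivity
  nlinarith

/-- All levels below `1/4`, in every base. -/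
lemma cen_quarter {b : ℕ} (hb : 2 ≤ b) {θ : ℝ} (hθ : θ < 1 / 4) : HasCen b θ := by
  set θ' : ℝ := max θ 0 with hθ'
  have h0 : 0 ≤ θ' := le_max_right _ _
  have h1 : θ' < 1 / 4 := max_lt hθ (by norm_num)
  obtain ⟨σ, δ, C, a1, a2, a3, a4⟩ := central2 hb (ε := 1 / 4 - θ') (by linarith) (by linarith)
  have h2 : HasCen b θ' := by
    refine ⟨σ, δ, C, a1, a2, a3, fun Λ ℓ D hℓ hD hDL => a4 Λ ℓ D hℓ hD ?_⟩
    rwa [sub_sub_cancel]
  exact h2.mono hb (le_max_left _ _)

/-- Numerical bound for `log 261000`. -/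
lemma log_num : Real.log 261000 ≤ 12.5 := by
  have h1 : (2.7182818283 : ℝ) ^ 25 ≤ Real.exp 1 ^ 25 :=
    pow_le_pow_left₀ (by norm_num) Real.exp_one_gt_d9.le 25
  have h2 : Real.exp 1 ^ 25 = Real.exp 25 := by
    rw [← Real.exp_nat_mul]; norm_num
  have h3 : (261000 : ℝ) ^ 2 ≤ Real.exp 25 := by
    rw [← h2]
    refine le_trans ?_ h1
    norm_num
  have h4 := Real.log_le_log (by norm_num) h3
  rw [Real.log_exp, Real.log_pow] at h4
  push_cast at h4
  norm_num at h4 ⊢
  linarith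

lemma log_78 : (4.2 : ℝ) ≤ Real.log 78 := by
  have h1 : Real.exp 1 ^ 21 ≤ (2.7182818286 : ℝ) ^ 21 :=
    pow_le_pow_left₀ (Real.exp_pos _).le Real.exp_one_lt_d9.le 21
  have h2 : Real.exp 1 ^ 21 = Real.exp 21 := by
    rw [← Real.exp_nat_mul]; norm_num
  have h3 : Real.exp 21 ≤ (78 : ℝ) ^ 5 := by
    rw [← h2]
    refine h1.trans ?_
    norm_num
  have h4 := Real.log_le_log (Real.exp_pos _) h3
  rw [Real.log_exp, Real.log_pow] at h4
  push_cast at h4
  norm_num at h4 ⊢
  linarith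

/-- **Central estimate with rate.** -/
theorem cen_rate {b : ℕ} (hb : 3 ≤ b) {θ : ℝ}
    (hθ : θ ≤ 1 / 2 - 40 * Real.log (Real.log b) / Real.log b) : HasCen b θ := by
  have hb2 : 2 ≤ b := by omega
  have hb3 : (3 : ℝ) ≤ b := by exact_mod_cast hb
  set t := Real.log b with ht
  have ht1 : (1.09 : ℝ) ≤ t := by
    have h1 : Real.log 3 ≤ t := Real.log_le_log (by norm_num) hb3
    have h2 := Real.log_three_gt_d9
    norm_num at h2 ⊢
    linarith
  have ht0 : 0 < t := by linarith
  rcases le_or_gt t 78 with h | h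
  · -- small bases
    have h1 : t ≤ 80 * Real.log t := by
      have h2 := Real.one_sub_inv_le_log_of_pos ht0
      have h3 : t ≤ 80 * (1 - t⁻¹) := by
        have h4 : t * t ≤ t * (80 * (1 - t⁻¹)) := by
          have h5 : t * (80 * (1 - t⁻¹)) = 80 * t - 80 := by field_simp
          rw [h5]
          nlinarith
        exact le_of_mul_le_mul_left h4 ht0
      linarith
    have h2 : θ ≤ 0 := by
      have h3 : 1 / 2 ≤ 40 * Real.log t / t := by
        rw [le_div_iff₀ ht0]; linarith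
      linarith
    exact cen_quarter hb2 (by linarith)
  · -- large bases
    have hbp : (0 : ℝ) < b := by linarith
    have hlogt : (4.2 : ℝ) ≤ Real.log t :=
      log_78.trans (Real.log_le_log (by norm_num) h.le)
    have hbig : 390000 ^ 2 ≤ b := by
      have h1 : Real.exp 78 ≤ b := by
        rw [← Real.exp_log hbp, Real.exp_le_exp]
        exact h.le
      have h2 : (2 : ℝ) ^ 78 ≤ Real.exp 78 := by
        have h3 : Real.exp 78 = Real.exp 1 ^ 78 := by rw [← Real.exp_nat_mul]; norm_num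
        rw [h3]
        refine pow_le_pow_left₀ (by norm_num) ?_ 78
        have := Real.exp_one_gt_d9
        linarith
      have h4 : ((390000 ^ 2 : ℕ) : ℝ) ≤ b := by
        refine le_trans ?_ (h2.trans h1)
        norm_num
      exact_mod_cast h4
    set c : ℝ := Real.log (261000 * (1 + t) ^ 2) / t with hc
    have hpos : (0 : ℝ) < 261000 * (1 + t) ^ 2 := by positivity
    have hpow : 261000 * (1 + t) ^ 2 ≤ (b : ℝ) ^ c := by
      rw [Real.rpow_def_of_pos hbp, ← ht, hc, mul_div_cancel₀ _ ht0.ne', Real.exp_log hpos]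
    obtain ⟨M, e, hG⟩ := good_of hbig hpow
    have hlog1 : Real.log (1 + t) ≤ Real.log t + 1 / 78 := by
      have h1 : (1 + t) = t * (1 + 1 / t) := by field_simp; ring
      rw [h1, Real.log_mul ht0.ne' (by positivity)]
      have h2 := Real.log_le_sub_one_of_pos (by positivity : 0 < 1 + 1 / t)
      have h3 : 1 / t ≤ 1 / 78 := one_div_le_one_div_of_le (by norm_num) h.le
      linarith
    have hc8 : 8 * c ≤ 40 * Real.log t / t := by
      rw [hc, ← mul_div_assoc]
      refine div_le_div_of_nonneg_right ?_ ht0.le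
      rw [Real.log_mul (by norm_num) (by positivity), Real.log_pow]
      have h1 := log_num
      push_cast
      norm_num at h1 hlogt ⊢
      linarith
    have hc0 : 0 < c := by
      rw [hc]
      refine div_pos (Real.log_pos ?_) ht0
      nlinarith
    rcases le_or_gt (8 * c) (1 / 4) with h8 | h8
    · have hG' : Good b M e (8 * c / 8) := by
        have : 8 * c / 8 = c := by ring
        rw [this]; exact hG
      exact (cen (ε := 8 * c) (by positivity) h8 hG').mono hb2 (by linarith)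
    · exact cen_quarter hb2 (by linarith)

/-- **Level of distribution with rate**, all levels. -/
theorem level_rate {b : ℕ} (hb : 3 ≤ b) {θ : ℝ}
    (hθ : θ ≤ 1 / 2 - 40 * Real.log (Real.log b) / Real.log b) :
    ∃ (σ C : ℝ), 0 < σ ∧ 0 < C ∧ ∀ x : ℝ, 1 ≤ x → ∀ (y : ℕ → ℝ), (∀ q, y q ≤ x) → ∀ (a : ℕ → ℤ),
      ∑ q ∈ (Icc 1 ⌊x ^ θ⌋₊).filter (fun q => q.Coprime b),
        |(palCount b ⌊y q⌋₊ q (a q) : ℝ) -
          (Nat.gcd q (b ^ 2 - 1) : ℕ) / q *
            (palCount b ⌊y q⌋₊ (Nat.gcd q (b ^ 2 - 1)) (a q) : ℝ)| ≤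
      C * (palCount b ⌊x⌋₊ 1 0 : ℝ) * Real.exp (-σ * Real.sqrt (Real.log x)) := by
  have hb3 : (3 : ℝ) ≤ b := by exact_mod_cast hb
  have hb2 : 2 ≤ b := by omega
  have hlog1 : 1 < Real.log b := by
    have h1 : Real.log 3 ≤ Real.log b := Real.log_le_log (by norm_num) hb3
    have h2 := Real.log_three_gt_d9
    norm_num at h2
    linarith
  have hθ2 : θ < 1 / 2 := by
    have : 0 < 40 * Real.log (Real.log b) / Real.log b := by
      have := Real.log_pos hlog1
      positivity
    linarith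
  set θ' : ℝ := max θ 0 with hθ'
  have h0 : 0 ≤ θ' := le_max_right _ _
  have h1 : θ' < 1 / 2 := max_lt hθ2 (by norm_num)
  have hcen : HasCen b θ' := by
    rcases le_total θ 0 with h | h
    · rw [hθ', max_eq_right h]; exact cen_quarter hb2 (by norm_num)
    · rw [hθ', max_eq_left h]; exact cen_rate hb hθ
  obtain ⟨σ, C, hσ, hC, hmain⟩ := level_gen hb2 h0 h1 hcen
  refine ⟨σ, C, hσ, hC, ?_⟩
  intro x hx y hy a
  refine le_trans ?_ (hmain x hx y hy a)
  refine sum_le_sum_of_subset_of_nonneg ?_ fun _ _ _ => abs_nonneg _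
  refine filter_subset_filter _ (Icc_subset_Icc le_rfl ?_)
  refine Nat.floor_le_floor (Real.rpow_le_rpow_of_exponent_le hx ?_)
  exact le_max_left _ _

end Pool.Agent.PalL
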