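import Pool.Agent.PalL.Kernel

/-!
# Products of kernels as exponential sums with distinct frequencies
-/

namespace Pool.Agent.PalL

open Finset Pool.Agent.Pal

/-- The phase `(b^2 - 1) b^(ℓ - i - 1) α`, equal to `b x_i - x_(i+1)`. -/
noncomputable def uu (b ℓ i : ℕ) (α : ℝ) : ℝ := α * (((b ^ 2 - 1) * b ^ (ℓ - i - 1) : ℕ) : ℝ)

lemma uu_eq {b ℓ i : ℕ} (hb : 1 ≤ b) (hi : i + 1 ≤ ℓ) (α : ℝ) :
    b * (α * wt b ℓ i) - α * wt b ℓ (i + 1) = uu b ℓ i α := by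
  unfold uu wt
  have h1 : 1 ≤ b ^ 2 := Nat.one_le_pow _ _ (by omega)
  push_cast [Nat.cast_sub h1]
  have e1 : ℓ - i = (ℓ - i - 1) + 1 := by omega
  have e2 : ℓ - (i + 1) = ℓ - i - 1 := by omega
  rw [e2]
  conv_lhs => rw [e1]
  simp only [Nat.add_sub_cancel]
  rw [pow_succ, pow_succ]
  ring

lemma int_zero_of_dvd {m k : ℤ} (h : m ∣ k) (hk : |k| < m) : k = 0 := by
  by_contra hne
  have h1 := Int.le_of_dvd (abs_pos.mpr hne) ((dvd_abs _ _).mpr h)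
  omega

/-- Uniqueness of signed digit expansions. -/
lemma uniq {b : ℕ} (hb : 2 ≤ b) : ∀ (n : ℕ) (k : Fin n → ℤ), (∀ i, |k i| < b) →
    ∑ i, k i * (b : ℤ) ^ (i : ℕ) = 0 → ∀ i, k i = 0 := by
  intro n
  induction n with
  | zero => intro k _ _ i; exact i.elim0
  | succ n ih =>
    intro k hk hsum
    rw [Fin.sum_univ_succ] at hsum
    have h1 : ∑ i : Fin n, k i.succ * (b : ℤ) ^ ((i.succ : Fin (n + 1)) : ℕ) =
        (b : ℤ) * ∑ i : Fin n, k i.succ * (b : ℤ) ^ (i : ℕ) := by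
      rw [Finset.mul_sum]
      refine Finset.sum_congr rfl fun i _ => ?_
      rw [Fin.val_succ, pow_succ]
      ring
    rw [h1] at hsum
    simp only [Fin.val_zero, pow_zero, mul_one] at hsum
    have h2 : k 0 = 0 := by
      refine int_zero_of_dvd (m := b) ?_ (hk 0)
      exact ⟨-∑ i : Fin n, k i.succ * (b : ℤ) ^ (i : ℕ), by linarith⟩
    rw [h2, zero_add] at hsum
    have hbz : (b : ℤ) ≠ 0 := by
      have : b ≠ 0 := by omega
      exact_mod_cast this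
    have h3 : ∑ i : Fin n, k i.succ * (b : ℤ) ^ (i : ℕ) = 0 := by
      rcases mul_eq_zero.mp hsum with h | h
      · exact absurd h hbz
      · exact h
    have h4 := ih (fun i => k i.succ) (fun i => hk _) h3
    intro i
    refine Fin.cases h2 (fun j => h4 j) i

lemma digsum_lt {b : ℕ} (hb : 1 ≤ b) : ∀ (n : ℕ) (u : Fin n → ℕ), (∀ i, u i < b) →
    ∑ i, u i * b ^ (i : ℕ) < b ^ n := by
  intro n
  induction n with
  | zero => intro u _; simp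
  | succ n ih =>
    intro u hu
    rw [Fin.sum_univ_castSucc]
    have h1 := ih (fun i => u i.castSucc) (fun i => hu _)
    have h2 : u (Fin.last n) * b ^ n ≤ (b - 1) * b ^ n := by
      refine Nat.mul_le_mul_right _ ?_
      have := hu (Fin.last n)
      omega
    have h3 : (b - 1) * b ^ n + b ^ n = b ^ (n + 1) := by
      have : (b - 1) * b ^ n + b ^ n = (b - 1 + 1) * b ^ n := by ring
      rw [this, Nat.sub_add_cancel hb, pow_succ, mul_comm]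
    simp only [Fin.val_castSucc, Fin.val_last] at h1 ⊢
    omega

lemma rev_sum (n e b : ℕ) (he : n ≤ e) (u : Fin n → ℤ) :
    ∑ i, u i * (b : ℤ) ^ (e - 1 - (i : ℕ)) =
      (b : ℤ) ^ (e - n) * ∑ i, u (Fin.rev i) * (b : ℤ) ^ (i : ℕ) := by
  rw [← Equiv.sum_comp Fin.revPerm, Finset.mul_sum]
  refine Finset.sum_congr rfl fun i _ => ?_
  simp only [Fin.revPerm_apply]
  have h1 : e - 1 - ((Fin.rev i : Fin n) : ℕ) = (e - n) + i := by
    rw [Fin.val_rev]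
    have := i.2
    omega
  rw [h1, pow_add]
  ring

/-- The weights of all the variables. -/
def ww (b ℓ n : ℕ) : Fin n ⊕ Fin n → ℕ :=
  Sum.elim (fun i => wt b ℓ i) (fun i => (b ^ 2 - 1) * b ^ (ℓ - i - 1))

/-- The frequency attached to a choice of the variables. -/
def frq (b ℓ n : ℕ) (t : Fin n ⊕ Fin n → ℕ) : ℕ := ∑ j, t j * ww b ℓ n j

lemma frq_inj {b ℓ n : ℕ} (hb : 2 ≤ b) (h : 2 * n + 1 ≤ ℓ) {t t' : Fin n ⊕ Fin n → ℕ}
    (h1 : ∀ i, t (Sum.inl i) < b) (h1' : ∀ i, t' (Sum.inl i) < b)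
    (h2 : ∀ i, t (Sum.inr i) < 2) (h2' : ∀ i, t' (Sum.inr i) < 2)
    (heq : frq b ℓ n t = frq b ℓ n t') : t = t' := by
  unfold frq at heq
  rw [Fintype.sum_sum_type, Fintype.sum_sum_type] at heq
  simp only [ww, Sum.elim_inl, Sum.elim_inr] at heq
  set k : Fin n → ℤ := fun i => (t (Sum.inl i) : ℤ) - t' (Sum.inl i) with hk
  set s : Fin n → ℤ := fun i => (t (Sum.inr i) : ℤ) - t' (Sum.inr i) with hs
  have hB1 : 1 ≤ b ^ 2 := Nat.one_le_pow _ _ (by omega)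
  have heqz : ∑ i, k i * (b : ℤ) ^ (i : ℕ) + (∑ i, k i * (b : ℤ) ^ (ℓ + 1 - 1 - (i : ℕ)) +
      ((b : ℤ) ^ 2 - 1) * ∑ i, s i * (b : ℤ) ^ (ℓ - 1 - (i : ℕ))) = 0 := by
    have h3 : (((∑ i : Fin n, t (Sum.inl i) * wt b ℓ i + ∑ i : Fin n, t (Sum.inr i) *
        ((b ^ 2 - 1) * b ^ (ℓ - (i : ℕ) - 1)) : ℕ)) : ℤ) = ((∑ i : Fin n, t' (Sum.inl i) * wt b ℓ i +
        ∑ i : Fin n, t' (Sum.inr i) * ((b ^ 2 - 1) * b ^ (ℓ - (i : ℕ) - 1)) : ℕ) : ℤ) := by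
      rw [heq]
    unfold wt at h3
    push_cast [Nat.cast_sub hB1] at h3
    have e1 : ∀ i : Fin n, ℓ - 1 - (i : ℕ) = ℓ - (i : ℕ) - 1 := fun i => by omega
    simp only [e1, Nat.add_sub_cancel]
    rw [← Finset.sum_add_distrib, ← Finset.sum_add_distrib] at h3
    rw [Finset.mul_sum, ← Finset.sum_add_distrib, ← Finset.sum_add_distrib]
    rw [← sub_eq_zero, ← Finset.sum_sub_distrib] at h3
    rw [← h3]
    refine Finset.sum_congr rfl fun i _ => ?_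
    simp only [hk, hs]
    ring
  have hkb : ∀ i, |k i| < b := by
    intro i
    have a1 := h1 i
    have a2 := h1' i
    simp only [hk]
    rw [abs_lt]
    constructor <;> omega
  have hsb : ∀ i, |s i| < 2 := by
    intro i
    have a1 := h2 i
    have a2 := h2' i
    simp only [hs]
    rw [abs_lt]
    constructor <;> omega
  have hhigh : (b : ℤ) ^ n ∣ (∑ i, k i * (b : ℤ) ^ (ℓ + 1 - 1 - (i : ℕ)) +
      ((b : ℤ) ^ 2 - 1) * ∑ i, s i * (b : ℤ) ^ (ℓ - 1 - (i : ℕ))) := by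
    rw [rev_sum n (ℓ + 1) b (by omega), rev_sum n ℓ b (by omega)]
    refine dvd_add (Dvd.dvd.mul_right (pow_dvd_pow _ (by omega)) _) ?_
    exact Dvd.dvd.mul_left (Dvd.dvd.mul_right (pow_dvd_pow _ (by omega)) _) _
  have hlow : ∑ i, k i * (b : ℤ) ^ (i : ℕ) = 0 := by
    refine int_zero_of_dvd (m := (b : ℤ) ^ n) ?_ ?_
    · have h3 : ∑ i, k i * (b : ℤ) ^ (i : ℕ) = -(∑ i, k i * (b : ℤ) ^ (ℓ + 1 - 1 - (i : ℕ)) +
        ((b : ℤ) ^ 2 - 1) * ∑ i, s i * (b : ℤ) ^ (ℓ - 1 - (i : ℕ))) := by linarith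
      rw [h3, dvd_neg]
      exact hhigh
    · have h3 : ∑ i, k i * (b : ℤ) ^ (i : ℕ) = ∑ i, (t (Sum.inl i) : ℤ) * (b : ℤ) ^ (i : ℕ) -
          ∑ i, (t' (Sum.inl i) : ℤ) * (b : ℤ) ^ (i : ℕ) := by
        simp only [hk, sub_mul, Finset.sum_sub_distrib]
      have h4 := digsum_lt (by omega : 1 ≤ b) n (fun i => t (Sum.inl i)) h1
      have h5 := digsum_lt (by omega : 1 ≤ b) n (fun i => t' (Sum.inl i)) h1'
      have h4' : ∑ i, (t (Sum.inl i) : ℤ) * (b : ℤ) ^ (i : ℕ) < (b : ℤ) ^ n := by exact_mod_cast h4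
      have h5' : ∑ i, (t' (Sum.inl i) : ℤ) * (b : ℤ) ^ (i : ℕ) < (b : ℤ) ^ n := by exact_mod_cast h5
      have h6 : 0 ≤ ∑ i, (t (Sum.inl i) : ℤ) * (b : ℤ) ^ (i : ℕ) := by positivity
      have h7 : 0 ≤ ∑ i, (t' (Sum.inl i) : ℤ) * (b : ℤ) ^ (i : ℕ) := by positivity
      rw [h3, abs_lt]
      constructor <;> linarith
  have hk0 := uniq hb n k hkb hlow
  have hk1 : ∑ i, k i * (b : ℤ) ^ (ℓ + 1 - 1 - (i : ℕ)) = 0 :=
    Finset.sum_eq_zero fun i _ => by rw [hk0 i, zero_mul]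
  rw [hlow, hk1, zero_add, zero_add, rev_sum n ℓ b (by omega)] at heqz
  have hbz : (b : ℤ) ≠ 0 := by
    have : b ≠ 0 := by omega
    exact_mod_cast this
  have hBz : ((b : ℤ) ^ 2 - 1) ≠ 0 := by
    have : (2 : ℤ) ≤ b := by exact_mod_cast hb
    nlinarith
  have hs0 := uniq hb n (fun i => s (Fin.rev i)) (fun i => lt_of_lt_of_le (hsb _) (by exact_mod_cast hb))
    (by
      rcases mul_eq_zero.mp heqz with h3 | h3
      · exact absurd h3 hBz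
      · rcases mul_eq_zero.mp h3 with h4 | h4
        · exact absurd h4 (pow_ne_zero _ hbz)
        · exact h4)
  funext j
  rcases j with i | i
  · have := hk0 i
    simp only [hk] at this
    omega
  · have := hs0 (Fin.rev i)
    simp only [Fin.rev_rev, hs] at this
    omega

lemma frq_lt {b ℓ n : ℕ} (hb : 2 ≤ b) (h : 2 * n + 1 ≤ ℓ) {t : Fin n ⊕ Fin n → ℕ}
    (h1 : ∀ i, t (Sum.inl i) < b) (h2 : ∀ i, t (Sum.inr i) < 2) :
    frq b ℓ n t < b ^ (ℓ + 3) := by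
  unfold frq
  rw [Fintype.sum_sum_type]
  simp only [ww, Sum.elim_inl, Sum.elim_inr]
  have e1 := digsum_lt (by omega : 1 ≤ b) n (fun i => t (Sum.inl i)) h1
  have e2 := digsum_lt (by omega : 1 ≤ b) n (fun i => t (Sum.inl (Fin.rev i))) (fun i => h1 _)
  have e3 := digsum_lt (by omega : 1 ≤ b) n (fun i => t (Sum.inr (Fin.rev i)))
    (fun i => lt_of_lt_of_le (h2 _) hb)
  have r1 := rev_sum n (ℓ + 1) b (by omega) (fun i => (t (Sum.inl i) : ℤ))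
  have r2 := rev_sum n ℓ b (by omega) (fun i => (t (Sum.inr i) : ℤ))
  have f1 : ∑ i : Fin n, t (Sum.inl i) * wt b ℓ i = ∑ i : Fin n, t (Sum.inl i) * b ^ (i : ℕ) +
      b ^ (ℓ + 1 - n) * ∑ i : Fin n, t (Sum.inl (Fin.rev i)) * b ^ (i : ℕ) := by
    have : ((∑ i : Fin n, t (Sum.inl i) * wt b ℓ i : ℕ) : ℤ) =
        ((∑ i : Fin n, t (Sum.inl i) * b ^ (i : ℕ) +
      b ^ (ℓ + 1 - n) * ∑ i : Fin n, t (Sum.inl (Fin.rev i)) * b ^ (i : ℕ) : ℕ) : ℤ) := by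
      push_cast
      rw [← r1, ← Finset.sum_add_distrib]
      refine Finset.sum_congr rfl fun i _ => ?_
      have e0 : ℓ + 1 - 1 - (i : ℕ) = ℓ - i := by omega
      rw [e0]
      unfold wt
      push_cast
      ring
    exact_mod_cast this
  have f2 : ∑ i : Fin n, t (Sum.inr i) * ((b ^ 2 - 1) * b ^ (ℓ - (i : ℕ) - 1)) =
      (b ^ 2 - 1) * (b ^ (ℓ - n) * ∑ i : Fin n, t (Sum.inr (Fin.rev i)) * b ^ (i : ℕ)) := by
    have h3 : ((∑ i : Fin n, t (Sum.inr i) * b ^ (ℓ - 1 - (i : ℕ)) : ℕ) : ℤ) =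
        ((b ^ (ℓ - n) * ∑ i : Fin n, t (Sum.inr (Fin.rev i)) * b ^ (i : ℕ) : ℕ) : ℤ) := by
      push_cast
      exact r2
    have h4 : ∑ i : Fin n, t (Sum.inr i) * b ^ (ℓ - 1 - (i : ℕ)) =
        b ^ (ℓ - n) * ∑ i : Fin n, t (Sum.inr (Fin.rev i)) * b ^ (i : ℕ) := by exact_mod_cast h3
    rw [← h4, Finset.mul_sum]
    refine Finset.sum_congr rfl fun i _ => ?_
    have : ℓ - 1 - (i : ℕ) = ℓ - (i : ℕ) - 1 := by omega
    rw [this]
    ring
  rw [f1, f2]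
  set A := ∑ i : Fin n, t (Sum.inl i) * b ^ (i : ℕ)
  set B := ∑ i : Fin n, t (Sum.inl (Fin.rev i)) * b ^ (i : ℕ)
  set G := ∑ i : Fin n, t (Sum.inr (Fin.rev i)) * b ^ (i : ℕ)
  have g1 : b ^ (ℓ + 1 - n) * B ≤ b ^ (ℓ + 1) := by
    calc b ^ (ℓ + 1 - n) * B ≤ b ^ (ℓ + 1 - n) * b ^ n := Nat.mul_le_mul_left _ e2.le
      _ = b ^ (ℓ + 1) := by rw [← pow_add]; congr 1; omega
  have g2 : b ^ (ℓ - n) * G ≤ b ^ ℓ := by
    calc b ^ (ℓ - n) * G ≤ b ^ (ℓ - n) * b ^ n := Nat.mul_le_mul_left _ e3.le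
      _ = b ^ ℓ := by rw [← pow_add]; congr 1; omega
  have g3 : (b ^ 2 - 1) * (b ^ (ℓ - n) * G) ≤ (b ^ 2 - 1) * b ^ ℓ := Nat.mul_le_mul_left _ g2
  have g4 : (b ^ 2 - 1) * b ^ ℓ + b ^ ℓ = b ^ (ℓ + 2) := by
    have h0 : 1 ≤ b ^ 2 := Nat.one_le_pow _ _ (by omega)
    calc (b ^ 2 - 1) * b ^ ℓ + b ^ ℓ = (b ^ 2 - 1 + 1) * b ^ ℓ := by ring
      _ = b ^ (ℓ + 2) := by rw [Nat.sub_add_cancel h0, pow_add, mul_comm]
  have g5 : b ^ n ≤ b ^ ℓ := Nat.pow_le_pow_right (by omega) (by omega)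
  have g6 : 2 * b ^ (ℓ + 1) ≤ b ^ (ℓ + 2) := by
    calc 2 * b ^ (ℓ + 1) ≤ b * b ^ (ℓ + 1) := Nat.mul_le_mul_right _ hb
      _ = b ^ (ℓ + 2) := by ring
  have g7 : 2 * b ^ (ℓ + 2) ≤ b ^ (ℓ + 3) := by
    calc 2 * b ^ (ℓ + 2) ≤ b * b ^ (ℓ + 2) := Nat.mul_le_mul_right _ hb
      _ = b ^ (ℓ + 3) := by ring
  have g8 : 0 < b ^ (ℓ + 2) := pow_pos (by omega) _
  omega

/-- Products of kernels as exponential sums with distinct frequencies. -/
theorem exists_freq {b ℓ n : ℕ} (hb : 2 ≤ b) (h : 2 * n + 1 ≤ ℓ) (μ ν : ℕ → ℕ)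
    (hμ : ∀ i < n, μ i ≤ b) (hν : ∀ i < n, ν i ≤ 2) :
    ∃ F : Finset ℕ, F.card = ∏ i ∈ range n, (μ i * ν i) ∧ (∀ f ∈ F, f < b ^ (ℓ + 3)) ∧
      ∀ α : ℝ, ∏ i ∈ range n, (dir (μ i) (α * wt b ℓ i) * dir (ν i) (uu b ℓ i α)) =
        ∑ f ∈ F, ex (f * α) := by
  classical
  set sz : Fin n ⊕ Fin n → ℕ := Sum.elim (fun i => μ i) (fun i => ν i) with hsz
  set Bx := Fintype.piFinset (fun j => range (sz j)) with hBx
  have hmem : ∀ t ∈ Bx, (∀ i, t (Sum.inl i) < b) ∧ (∀ i, t (Sum.inr i) < 2) := by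
    intro t ht
    rw [hBx, Fintype.mem_piFinset] at ht
    refine ⟨fun i => ?_, fun i => ?_⟩
    · have := ht (Sum.inl i)
      rw [mem_range] at this
      exact lt_of_lt_of_le this (hμ i i.2)
    · have := ht (Sum.inr i)
      rw [mem_range] at this
      exact lt_of_lt_of_le this (hν i i.2)
  have hinj : Set.InjOn (frq b ℓ n) (Bx : Set (Fin n ⊕ Fin n → ℕ)) := by
    intro t ht t' ht' heq
    have a1 := hmem t (mem_coe.mp ht)
    have a2 := hmem t' (mem_coe.mp ht')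
    exact frq_inj hb h a1.1 a2.1 a1.2 a2.2 heq
  refine ⟨Bx.image (frq b ℓ n), ?_, ?_, ?_⟩
  · rw [card_image_of_injOn hinj, hBx, Fintype.card_piFinset, Fintype.prod_sum_type]
    simp only [card_range, hsz, Sum.elim_inl, Sum.elim_inr]
    rw [Finset.prod_mul_distrib, Fin.prod_univ_eq_prod_range (fun i => μ i) n,
      Fin.prod_univ_eq_prod_range (fun i => ν i) n]
  · intro f hf
    obtain ⟨t, ht, rfl⟩ := mem_image.mp hf
    have a1 := hmem t ht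
    exact frq_lt hb h a1.1 a1.2
  · intro α
    rw [sum_image hinj]
    have h1 : ∏ i ∈ range n, (dir (μ i) (α * wt b ℓ i) * dir (ν i) (uu b ℓ i α)) =
        ∏ j : Fin n ⊕ Fin n, ∑ d ∈ range (sz j), ex (d * (α * ww b ℓ n j)) := by
      rw [Fintype.prod_sum_type, Finset.prod_mul_distrib,
        ← Fin.prod_univ_eq_prod_range (fun i => dir (μ i) (α * wt b ℓ i)) n,
        ← Fin.prod_univ_eq_prod_range (fun i => dir (ν i) (uu b ℓ i α)) n]
      rfl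
    rw [h1, Finset.prod_univ_sum]
    refine Finset.sum_congr rfl fun t _ => ?_
    have h2 : ∀ s : Finset (Fin n ⊕ Fin n), ∏ j ∈ s, ex (t j * (α * ww b ℓ n j)) =
        ex (∑ j ∈ s, t j * (α * ww b ℓ n j)) := by
      intro s
      induction s using Finset.induction_on with
      | empty => simp [ex_zero]
      | insert a s ha ih => rw [prod_insert ha, sum_insert ha, ih, ex_add]
    rw [h2]
    congr 1
    unfold frq
    push_cast
    rw [Finset.sum_mul]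
    refine Finset.sum_congr rfl fun j _ => ?_
    ring

end Pool.Agent.PalL
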