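import Pool.Agent.PalL.Rep

/-!
# Sums of squares of exponential sums over the fractions, and mixtures
-/

namespace Pool.Agent.PalL

open Finset Pool.Agent.Pal

/-- Large sieve over the fractions. -/
lemma ls_J {b D N : ℕ} (hb : 2 ≤ b) (hN : 0 < N) (F : Finset ℕ) (hF : ∀ f ∈ F, f < N) :
    ∑ x ∈ J b D, ‖∑ f ∈ F, ex (f * pt b x)‖ ^ 2 ≤
      36 * ((N : ℝ) + 4 * BB b * (D : ℝ) ^ 2) * F.card := by
  have hBp := BB_pos hb
  set M : ℕ := N + 4 * (b ^ 2 - 1) * D ^ 2 with hM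
  have hMpos : 0 < M := by omega
  have hMr : (M : ℝ) = N + 4 * BB b * (D : ℝ) ^ 2 := by
    rw [hM]; unfold BB; push_cast; ring
  have hM0 : (0 : ℝ) < M := by exact_mod_cast hMpos
  set cell : ℕ × ℕ → ℕ := fun x => ⌊(M : ℝ) * pt b x⌋₊ with hcell
  have hnn : ∀ x, 0 ≤ (M : ℝ) * pt b x := fun x => mul_nonneg hM0.le (pt_nonneg b x)
  have h := large_sieve (M := M) hMpos F (fun f => f) (fun _ _ _ _ h => h)
    (fun f hf => (hF f hf).trans_le (by omega)) (fun _ => 1) (J b D) cell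
    (by
      intro x hx y hy hxy
      by_contra hne
      have h1 := pt_sep (mem_coe.mp hx) (mem_coe.mp hy) hne
      simp only [hcell] at hxy
      have a1 := Nat.floor_le (hnn x)
      have a2 := Nat.lt_floor_add_one ((M : ℝ) * pt b x)
      have b1 := Nat.floor_le (hnn y)
      have b2 := Nat.lt_floor_add_one ((M : ℝ) * pt b y)
      rw [hxy] at a1 a2
      have h2 : |(M : ℝ) * pt b x - M * pt b y| < 1 := by rw [abs_lt]; constructor <;> linarith
      have h3 : (M : ℝ) * |pt b x - pt b y| < 1 := by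
        rw [← mul_sub, abs_mul, abs_of_pos hM0] at h2; exact h2
      have h4 : 4 * ((b ^ 2 - 1 : ℕ) : ℝ) * (D : ℝ) ^ 2 ≤ M := by
        rw [hMr]; unfold BB
        have : (0 : ℝ) ≤ N := Nat.cast_nonneg _
        linarith
      have h5 : 4 * ((b ^ 2 - 1 : ℕ) : ℝ) * (D : ℝ) ^ 2 * |pt b x - pt b y| ≤
          M * |pt b x - pt b y| := mul_le_mul_of_nonneg_right h4 (abs_nonneg _)
      linarith)
    (by
      intro x hx
      simp only [hcell]
      rw [Nat.floor_lt (hnn x)]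
      have := pt_lt_one hx
      nlinarith)
    (pt b)
    (by intro x _; simp only [hcell]; exact Nat.floor_le (hnn x))
    (by intro x _; simp only [hcell]; exact Nat.lt_floor_add_one _)
  simp only [one_mul, norm_one, one_pow, sum_const, nsmul_eq_mul, mul_one] at h
  rw [hMr] at h
  exact h

open Classical in
/-- Parseval over all the fractions, with the divisor bound. -/
lemma par_J {b D N : ℕ} (hb : 2 ≤ b) {η C : ℝ} (hη : 0 < η) (hC : 1 ≤ C)
    (hdiv : ∀ n : ℕ, 1 ≤ n → (n.divisors.card : ℝ) ≤ C * (n : ℝ) ^ η) (F : Finset ℕ)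
    (hF : ∀ f ∈ F, f < N) :
    ∑ x ∈ J b D, ‖∑ f ∈ F, ex (f * pt b x)‖ ^ 2 ≤
      2 * BB b * ((D : ℝ) ^ 2 * F.card + D * ((F.card : ℝ) ^ 2 * (C * (N : ℝ) ^ η))) := by
  have hBp := BB_pos hb
  have hB3 := sq_sub_one_pos hb
  set B : ℕ := b ^ 2 - 1 with hB
  set R : ℕ := F.card with hR
  -- enlarge the sum
  set g : ℝ → ℝ := fun α => ‖∑ f ∈ F, ex (f * α)‖ ^ 2 with hg
  have hg0 : ∀ α, 0 ≤ g α := fun α => by simp only [hg]; positivity
  have h1 : ∑ x ∈ J b D, g (pt b x) ≤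
      ∑ d ∈ Ico D (2 * D), ∑ c ∈ range (B * d), g ((c : ℝ) / ((B * d : ℕ) : ℝ)) := by
    rw [Finset.sum_sigma']
    have h2 : ∑ x ∈ J b D, g (pt b x) =
        ∑ y ∈ (J b D).image (fun x => (⟨x.1, x.2⟩ : Σ _ : ℕ, ℕ)),
          g ((y.2 : ℝ) / ((B * y.1 : ℕ) : ℝ)) := by
      rw [sum_image]
      · rfl
      · intro x _ y _ hxy
        simp only [Sigma.mk.injEq, heq_eq_eq] at hxy
        exact Prod.ext hxy.1 hxy.2
    rw [h2]
    refine sum_le_sum_of_subset_of_nonneg ?_ fun y _ _ => hg0 _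
    intro y hy
    obtain ⟨x, hx, rfl⟩ := mem_image.mp hy
    rw [mem_J] at hx
    rw [mem_sigma, mem_Ico, mem_range]
    exact ⟨⟨hx.1, hx.2.1⟩, hx.2.2.2.1⟩
  refine h1.trans ?_
  -- Parseval for each `d`
  have h2 : ∀ d ∈ Ico D (2 * D), ∑ c ∈ range (B * d), g ((c : ℝ) / ((B * d : ℕ) : ℝ)) ≤
      (B * (2 * D)) * (R + ∑ h ∈ F, ∑ h' ∈ F.erase h,
        (if (d : ℤ) ∣ (h : ℤ) - (h' : ℤ) then (1 : ℝ) else 0)) := by
    intro d hd
    rw [mem_Ico] at hd
    rcases Nat.eq_zero_or_pos (B * d) with h0 | hpos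
    · rw [h0]
      simp only [range_zero, sum_empty]
      have : 0 ≤ ∑ h ∈ F, ∑ h' ∈ F.erase h,
        (if (d : ℤ) ∣ (h : ℤ) - (h' : ℤ) then (1 : ℝ) else 0) :=
        Finset.sum_nonneg fun _ _ => Finset.sum_nonneg fun _ _ => by split_ifs <;> norm_num
      positivity
    have h3 := sum_norm_sq_eq hpos F (fun n => n)
    simp only [hg]
    rw [h3]
    have h6 : ∑ h ∈ F, ∑ h' ∈ F,
          (if ((B * d : ℕ) : ℤ) ∣ (h : ℤ) - (h' : ℤ) then (1 : ℝ) else 0) ≤
        R + ∑ h ∈ F, ∑ h' ∈ F.erase h,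
        (if (d : ℤ) ∣ (h : ℤ) - (h' : ℤ) then (1 : ℝ) else 0) := by
      have h7 : (R : ℝ) = ∑ h ∈ F, (1 : ℝ) := by simp [hR]
      rw [h7, ← Finset.sum_add_distrib]
      refine Finset.sum_le_sum fun h hh => ?_
      rw [← Finset.add_sum_erase _ _ hh]
      refine add_le_add ?_ (Finset.sum_le_sum fun h' _ => ?_)
      · split_ifs <;> norm_num
      · by_cases hdvd : ((B * d : ℕ) : ℤ) ∣ (h : ℤ) - (h' : ℤ)
        · have : (d : ℤ) ∣ (h : ℤ) - (h' : ℤ) :=
            (Int.natCast_dvd_natCast.mpr (Dvd.intro_left _ rfl)).trans hdvd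
          rw [if_pos hdvd, if_pos this]
        · rw [if_neg hdvd]
          split_ifs <;> norm_num
    have h8 : ((B * d : ℕ) : ℝ) ≤ B * (2 * D) := by
      push_cast
      have : (d : ℝ) ≤ 2 * D := by exact_mod_cast hd.2.le
      exact mul_le_mul_of_nonneg_left this (Nat.cast_nonneg _)
    have h9 : 0 ≤ ∑ h ∈ F, ∑ h' ∈ F,
          (if ((B * d : ℕ) : ℤ) ∣ (h : ℤ) - (h' : ℤ) then (1 : ℝ) else 0) :=
        Finset.sum_nonneg fun _ _ => Finset.sum_nonneg fun _ _ => by split_ifs <;> norm_num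
    exact mul_le_mul h8 h6 h9 (by positivity)
  refine (Finset.sum_le_sum h2).trans ?_
  rw [← Finset.mul_sum, Finset.sum_add_distrib, sum_const, Nat.card_Ico]
  have hDD : 2 * D - D = D := by omega
  rw [hDD, nsmul_eq_mul]
  -- swap the sums
  have h3 : ∑ d ∈ Ico D (2 * D), ∑ h ∈ F, ∑ h' ∈ F.erase h,
        (if (d : ℤ) ∣ (h : ℤ) - (h' : ℤ) then (1 : ℝ) else 0) ≤
      (R : ℝ) ^ 2 * (C * (N : ℝ) ^ η) := by
    rw [Finset.sum_comm]
    have h4 : ∀ h ∈ F, ∑ d ∈ Ico D (2 * D), ∑ h' ∈ F.erase h,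
        (if (d : ℤ) ∣ (h : ℤ) - (h' : ℤ) then (1 : ℝ) else 0) ≤
        R * (C * (N : ℝ) ^ η) := by
      intro h hh
      rw [Finset.sum_comm]
      have h5 : ∀ h' ∈ F.erase h, ∑ d ∈ Ico D (2 * D),
          (if (d : ℤ) ∣ (h : ℤ) - (h' : ℤ) then (1 : ℝ) else 0) ≤
          C * (N : ℝ) ^ η := by
        intro h' hh'
        rw [mem_erase] at hh'
        set n : ℕ := ((h : ℤ) - (h' : ℤ)).natAbs with hn
        have hn1 : 1 ≤ n := by
          have := hh'.1
          omega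
        have hnlt : n ≤ N := by
          have e1 := hF h hh
          have e2 := hF h' hh'.2
          omega
        have h6 : ∑ d ∈ Ico D (2 * D),
            (if (d : ℤ) ∣ (h : ℤ) - (h' : ℤ) then (1 : ℝ) else 0) ≤ (n.divisors.card : ℝ) := by
          rw [← Finset.sum_filter, sum_const, nsmul_eq_mul, mul_one]
          have : (Ico D (2 * D)).filter (fun d : ℕ => (d : ℤ) ∣ (h : ℤ) - (h' : ℤ)) ⊆
              n.divisors := by
            intro d hd
            rw [mem_filter] at hd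
            rw [Nat.mem_divisors]
            refine ⟨?_, by omega⟩
            rw [hn]
            exact Int.natCast_dvd.mp hd.2
          exact_mod_cast card_le_card this
        refine h6.trans ((hdiv n hn1).trans ?_)
        refine mul_le_mul_of_nonneg_left ?_ (by linarith)
        refine Real.rpow_le_rpow (by positivity) ?_ hη.le
        exact_mod_cast hnlt
      refine (Finset.sum_le_sum h5).trans ?_
      rw [sum_const, nsmul_eq_mul]
      refine mul_le_mul_of_nonneg_right ?_ (by positivity)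
      have : (F.erase h).card ≤ R := card_le_card (erase_subset _ _)
      exact_mod_cast this
    refine (Finset.sum_le_sum h4).trans ?_
    rw [sum_const, nsmul_eq_mul, ← hR]
    exact le_of_eq (by ring)
  calc (B * (2 * D)) * ((D : ℝ) * R + ∑ d ∈ Ico D (2 * D), ∑ h ∈ F,
        ∑ h' ∈ F.erase h, (if (d : ℤ) ∣ (h : ℤ) - (h' : ℤ) then (1 : ℝ) else 0))
      ≤ (B * (2 * D)) * ((D : ℝ) * R +
          (R : ℝ) ^ 2 * (C * (N : ℝ) ^ η)) := by
        refine mul_le_mul_of_nonneg_left (by linarith) (by positivity)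
    _ = 2 * BB b * ((D : ℝ) ^ 2 * R + D * ((R : ℝ) ^ 2 * (C * (N : ℝ) ^ η))) := by
        have hBB : BB b = (B : ℝ) := rfl
        rw [hBB]
        ring

lemma phi_one (x : ℝ) : phi 1 x = 1 := by
  unfold phi dir
  simp [ex_zero]

lemma phi_two_sq (u : ℝ) : phi 2 u ^ 2 = 1 - Real.sin (Real.pi * u) ^ 2 := by
  have h1 := one_sub_phi_sq (b := 2) (by norm_num) u
  have e : ∀ z : ℝ, sn u z = Real.sin (Real.pi * (z * u)) ^ 2 := fun z => rfl
  have h2 : ∑ p ∈ range 2, ∑ q ∈ range 2, sn u ((p : ℝ) - q) = 2 * Real.sin (Real.pi * u) ^ 2 := by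
    simp only [Finset.sum_range_succ, Finset.sum_range_zero, zero_add]
    push_cast
    have e1 : sn u (0 - 1) = sn u 1 := by rw [← sn_neg]; congr 1; ring
    have e2 : sn u (1 - 0) = sn u 1 := by congr 1; ring
    have e3 : sn u (0 - 0) = 0 := by rw [sub_zero, sn_zero]
    have e4 : sn u (1 - 1) = 0 := by rw [sub_self, sn_zero]
    rw [e1, e2, e3, e4, e, one_mul]
    ring
  rw [h2] at h1
  push_cast at h1
  linarith

/-- The normalised product as an exponential sum. -/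
lemma prod_phi_eq (n : ℕ) (μ ν : ℕ → ℕ) (x y : ℕ → ℝ) :
    ∏ i ∈ range n, (phi (μ i) (x i) ^ 2 * phi (ν i) (y i) ^ 2) =
      ‖∏ i ∈ range n, (dir (μ i) (x i) * dir (ν i) (y i))‖ ^ 2 /
        (∏ i ∈ range n, ((μ i : ℝ) * (ν i : ℝ))) ^ 2 := by
  rw [norm_prod, ← Finset.prod_pow, ← Finset.prod_pow, ← Finset.prod_div_distrib]
  refine Finset.prod_congr rfl fun i _ => ?_
  unfold phi
  rw [norm_mul]
  ring

/-- Large sieve for a product of kernels. -/
lemma sum_box_ls {b ℓ n D : ℕ} (hb : 2 ≤ b) (h : 2 * n + 1 ≤ ℓ) (μ ν : ℕ → ℕ)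
    (hμ : ∀ i < n, 1 ≤ μ i ∧ μ i ≤ b) (hν : ∀ i < n, 1 ≤ ν i ∧ ν i ≤ 2) :
    ∑ x ∈ J b D, ∏ i ∈ range n, (phi (μ i) (pt b x * wt b ℓ i) ^ 2 *
      phi (ν i) (uu b ℓ i (pt b x)) ^ 2) ≤
      36 * ((b : ℝ) ^ (ℓ + 3) + 4 * BB b * (D : ℝ) ^ 2) *
        ∏ i ∈ range n, (1 / (μ i : ℝ) * (1 / (ν i : ℝ))) := by
  obtain ⟨F, hF1, hF2, hF3⟩ := exists_freq hb h μ ν (fun i hi => (hμ i hi).2) (fun i hi => (hν i hi).2)
  have hls := ls_J (D := D) hb (N := b ^ (ℓ + 3)) (pow_pos (by omega) _) F hF2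
  set P : ℝ := ∏ i ∈ range n, ((μ i : ℝ) * (ν i : ℝ)) with hP
  have hPpos : 0 < P := by
    rw [hP]
    refine Finset.prod_pos fun i hi => ?_
    rw [mem_range] at hi
    have a1 : (1 : ℝ) ≤ μ i := by exact_mod_cast (hμ i hi).1
    have a2 : (1 : ℝ) ≤ ν i := by exact_mod_cast (hν i hi).1
    positivity
  have hcard : (F.card : ℝ) = P := by rw [hF1, hP]; push_cast; rfl
  rw [hcard] at hls
  push_cast at hls
  have h1 : ∀ x ∈ J b D, ∏ i ∈ range n, (phi (μ i) (pt b x * wt b ℓ i) ^ 2 *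
      phi (ν i) (uu b ℓ i (pt b x)) ^ 2) = ‖∑ f ∈ F, ex (f * pt b x)‖ ^ 2 / P ^ 2 := by
    intro x _
    rw [prod_phi_eq, hF3]
  rw [Finset.sum_congr rfl h1, ← Finset.sum_div]
  have h2 : ∏ i ∈ range n, (1 / (μ i : ℝ) * (1 / (ν i : ℝ))) = 1 / P := by
    rw [hP, one_div, ← Finset.prod_inv_distrib]
    refine Finset.prod_congr rfl fun i _ => ?_
    rw [mul_inv, one_div, one_div]
  rw [h2, div_le_iff₀ (by positivity)]
  refine hls.trans (le_of_eq ?_)
  field_simp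

/-- Parseval bound for a product of kernels. -/
lemma sum_box_par {b ℓ n D : ℕ} (hb : 2 ≤ b) (h : 2 * n + 1 ≤ ℓ) {η C : ℝ} (hη : 0 < η) (hC : 1 ≤ C)
    (hdiv : ∀ n : ℕ, 1 ≤ n → (n.divisors.card : ℝ) ≤ C * (n : ℝ) ^ η) (μ : ℕ → ℕ)
    (hμ : ∀ i < n, 1 ≤ μ i ∧ μ i ≤ b) :
    ∑ x ∈ J b D, ∏ i ∈ range n, phi (μ i) (pt b x * wt b ℓ i) ^ 2 ≤
      2 * BB b * ((D : ℝ) ^ 2 * ∏ i ∈ range n, (1 / (μ i : ℝ)) +
        D * (C * ((b : ℝ) ^ (ℓ + 3)) ^ η)) := by
  obtain ⟨F, hF1, hF2, hF3⟩ := exists_freq hb h μ (fun _ => 1) (fun i hi => (hμ i hi).2)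
    (fun _ _ => by norm_num)
  have hls := par_J (D := D) hb hη hC hdiv F hF2
  set P : ℝ := ∏ i ∈ range n, (μ i : ℝ) with hP
  have hPpos : 0 < P := by
    rw [hP]
    refine Finset.prod_pos fun i hi => ?_
    rw [mem_range] at hi
    have a1 : (1 : ℝ) ≤ μ i := by exact_mod_cast (hμ i hi).1
    positivity
  have hcard : (F.card : ℝ) = P := by rw [hF1, hP]; push_cast; simp
  rw [hcard] at hls
  push_cast at hls
  have h1 : ∀ x ∈ J b D, ∏ i ∈ range n, phi (μ i) (pt b x * wt b ℓ i) ^ 2 =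
      ‖∑ f ∈ F, ex (f * pt b x)‖ ^ 2 / P ^ 2 := by
    intro x _
    have h2 := prod_phi_eq n μ (fun _ => 1) (fun i => pt b x * wt b ℓ i)
      (fun i => uu b ℓ i (pt b x))
    rw [hF3] at h2
    simp only [phi_one, one_pow, mul_one, Nat.cast_one] at h2
    exact h2
  rw [Finset.sum_congr rfl h1, ← Finset.sum_div]
  have h2 : ∏ i ∈ range n, (1 / (μ i : ℝ)) = 1 / P := by
    rw [hP, one_div, ← Finset.prod_inv_distrib]
    exact Finset.prod_congr rfl fun i _ => one_div _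
  rw [h2, div_le_iff₀ (by positivity)]
  refine hls.trans (le_of_eq ?_)
  field_simp

/-- Mixtures. -/
lemma mixture {X K : Type*} (J : Finset X) (n : ℕ) (S : ℕ → Finset K) (wgt : ℕ → K → ℝ)
    (hw : ∀ i < n, ∀ c ∈ S i, 0 ≤ wgt i c) (f : ℕ → K → X → ℝ) (A B : ℝ) (m1 m2 : ℕ → K → ℝ)
    (H : ∀ c : ℕ → K, (∀ i < n, c i ∈ S i) → ∑ x ∈ J, ∏ i ∈ range n, f i (c i) x ≤
      A * ∏ i ∈ range n, m1 i (c i) + B * ∏ i ∈ range n, m2 i (c i)) (c0 : ℕ → K)
    (hc0 : ∀ i < n, c0 i ∈ S i) :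
    ∑ x ∈ J, ∏ i ∈ range n, ∑ c ∈ S i, wgt i c * f i c x ≤
      A * ∏ i ∈ range n, (∑ c ∈ S i, wgt i c * m1 i c) +
      B * ∏ i ∈ range n, (∑ c ∈ S i, wgt i c * m2 i c) := by
  classical
  have key : ∀ k ≤ n, ∀ c : ℕ → K, (∀ i < n, c i ∈ S i) →
      ∑ x ∈ J, (∏ i ∈ range k, ∑ c ∈ S i, wgt i c * f i c x) * ∏ i ∈ Ico k n, f i (c i) x ≤
      A * ((∏ i ∈ range k, ∑ c ∈ S i, wgt i c * m1 i c) * ∏ i ∈ Ico k n, m1 i (c i)) +
      B * ((∏ i ∈ range k, ∑ c ∈ S i, wgt i c * m2 i c) * ∏ i ∈ Ico k n, m2 i (c i)) := by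
    intro k
    induction k with
    | zero =>
      intro _ c hc
      have h0 := H c hc
      simp only [range_zero, prod_empty, one_mul]
      rw [← range_eq_Ico]
      exact h0
    | succ k ih =>
      intro hk c hc
      have hkn : k < n := by omega
      -- expand the factor at `k`
      have e1 : ∀ x ∈ J, (∏ i ∈ range (k + 1), ∑ c ∈ S i, wgt i c * f i c x) *
          ∏ i ∈ Ico (k + 1) n, f i (c i) x =
          ∑ d ∈ S k, wgt k d * ((∏ i ∈ range k, ∑ c ∈ S i, wgt i c * f i c x) *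
            ∏ i ∈ Ico k n, f i (Function.update c k d i) x) := by
        intro x _
        rw [Finset.prod_range_succ, Finset.mul_sum, Finset.sum_mul]
        refine Finset.sum_congr rfl fun d _ => ?_
        rw [Finset.prod_eq_prod_Ico_succ_bot hkn, Function.update_self]
        have : ∏ i ∈ Ico (k + 1) n, f i (Function.update c k d i) x =
            ∏ i ∈ Ico (k + 1) n, f i (c i) x := by
          refine Finset.prod_congr rfl fun i hi => ?_
          rw [mem_Ico] at hi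
          rw [Function.update_of_ne (by omega)]
        rw [this]
        ring
      rw [Finset.sum_congr rfl e1, Finset.sum_comm]
      have e2 : ∀ m : ℕ → K → ℝ, (∏ i ∈ range (k + 1), ∑ c ∈ S i, wgt i c * m i c) *
          ∏ i ∈ Ico (k + 1) n, m i (c i) =
          ∑ d ∈ S k, wgt k d * ((∏ i ∈ range k, ∑ c ∈ S i, wgt i c * m i c) *
            ∏ i ∈ Ico k n, m i (Function.update c k d i)) := by
        intro m
        rw [Finset.prod_range_succ, Finset.mul_sum, Finset.sum_mul]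
        refine Finset.sum_congr rfl fun d _ => ?_
        rw [Finset.prod_eq_prod_Ico_succ_bot hkn, Function.update_self]
        have : ∏ i ∈ Ico (k + 1) n, m i (Function.update c k d i) =
            ∏ i ∈ Ico (k + 1) n, m i (c i) := by
          refine Finset.prod_congr rfl fun i hi => ?_
          rw [mem_Ico] at hi
          rw [Function.update_of_ne (by omega)]
        rw [this]
        ring
      rw [e2 m1, e2 m2, Finset.mul_sum, Finset.mul_sum, ← Finset.sum_add_distrib]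
      refine Finset.sum_le_sum fun d hd => ?_
      have h1 := ih hkn.le (Function.update c k d) (by
        intro i hi
        rcases eq_or_ne i k with h | h
        · subst h; rw [Function.update_self]; exact hd
        · rw [Function.update_of_ne h]; exact hc i hi)
      rw [← Finset.mul_sum]
      have h2 := mul_le_mul_of_nonneg_left h1 (hw k hkn d hd)
      refine h2.trans (le_of_eq ?_)
      ring
  have := key n le_rfl c0 hc0
  simpa using this

/-- The basic sum with the weights `psi`. -/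
theorem sum_W {b ℓ n D M : ℕ} (hb : 2 ≤ b) (h : 2 * n + 1 ≤ ℓ) (hM : M ≤ b) {a e : ℝ} (ha : 0 ≤ a)
    (he : 0 ≤ e) :
    ∑ x ∈ J b D, ∏ i ∈ range n, (a * (phi b (pt b x * wt b ℓ i) ^ 2 * psi (uu b ℓ i (pt b x))) +
      e * gg M (pt b x * wt b ℓ i)) ≤
      36 * ((b : ℝ) ^ (ℓ + 3) + 4 * BB b * (D : ℝ) ^ 2) *
        (a * (127 / 128 / b) + e * gbar M) ^ n := by
  set μ : ℕ → ℕ := fun c => if c < M then c + 1 else b with hμ
  set ν : ℕ → ℕ := fun c => if c ≤ M then 1 else 2 with hν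
  set wg : ℕ → ℝ := fun c => if c < M then e / M else if c = M then a * (63 / 64) else a / 64
    with hwg
  have hmix := mixture (J b D) n (fun _ => range (M + 2)) (fun _ c => wg c)
    (by
      intro i _ c _
      simp only [hwg]
      split_ifs <;> positivity)
    (fun i c x => phi (μ c) (pt b x * wt b ℓ i) ^ 2 * phi (ν c) (uu b ℓ i (pt b x)) ^ 2)
    (36 * ((b : ℝ) ^ (ℓ + 3) + 4 * BB b * (D : ℝ) ^ 2)) 0
    (fun _ c => 1 / (μ c : ℝ) * (1 / (ν c : ℝ))) (fun _ _ => 0)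
    (by
      intro c _
      rw [zero_mul, add_zero]
      refine sum_box_ls hb h (fun i => μ (c i)) (fun i => ν (c i)) ?_ ?_
      · intro i _
        simp only [hμ]
        split_ifs <;> omega
      · intro i _
        simp only [hν]
        split_ifs <;> omega)
    (fun _ => 0) (by intro i _; rw [mem_range]; omega)
  rw [zero_mul, add_zero] at hmix
  -- the sum over the choices
  have hexp : ∀ φ : ℕ → ℝ, ∑ c ∈ range (M + 2), wg c * φ c =
      e / M * (∑ c ∈ range M, φ c) + a * (63 / 64) * φ M + a / 64 * φ (M + 1) := by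
    intro φ
    rw [Finset.sum_range_succ, Finset.sum_range_succ]
    have e1 : ∑ c ∈ range M, wg c * φ c = e / M * (∑ c ∈ range M, φ c) := by
      rw [Finset.mul_sum]
      refine Finset.sum_congr rfl fun c hc => ?_
      rw [mem_range] at hc
      simp only [hwg, if_pos hc]
    have e2 : wg M = a * (63 / 64) := by simp [hwg]
    have e3 : wg (M + 1) = a / 64 := by
      simp only [hwg]
      rw [if_neg (by omega), if_neg (by omega)]
    rw [e1, e2, e3]
  have hμM : μ M = b := by simp [hμ]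
  have hμM1 : μ (M + 1) = b := by simp [hμ]
  have hνM : ν M = 1 := by simp [hν]
  have hνM1 : ν (M + 1) = 2 := by simp [hν]
  have hL : ∀ x i, ∑ c ∈ range (M + 2), wg c * (phi (μ c) (pt b x * wt b ℓ i) ^ 2 *
      phi (ν c) (uu b ℓ i (pt b x)) ^ 2) =
      a * (phi b (pt b x * wt b ℓ i) ^ 2 * psi (uu b ℓ i (pt b x))) +
      e * gg M (pt b x * wt b ℓ i) := by
    intro x i
    rw [hexp, hμM, hμM1, hνM, hνM1, phi_one, phi_two_sq]
    have e1 : ∑ c ∈ range M, (phi (μ c) (pt b x * wt b ℓ i) ^ 2 *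
        phi (ν c) (uu b ℓ i (pt b x)) ^ 2) = ∑ m ∈ range M, phi (m + 1) (pt b x * wt b ℓ i) ^ 2 := by
      refine Finset.sum_congr rfl fun c hc => ?_
      rw [mem_range] at hc
      simp only [hμ, hν, if_pos hc, if_pos hc.le, phi_one]
      ring
    rw [e1]
    unfold gg psi
    ring
  have hR : ∑ c ∈ range (M + 2), wg c * (1 / (μ c : ℝ) * (1 / (ν c : ℝ))) =
      a * (127 / 128 / b) + e * gbar M := by
    rw [hexp, hμM, hμM1, hνM, hνM1]
    have e1 : ∑ c ∈ range M, (1 / (μ c : ℝ) * (1 / (ν c : ℝ))) =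
        ∑ m ∈ range M, 1 / ((m : ℝ) + 1) := by
      refine Finset.sum_congr rfl fun c hc => ?_
      rw [mem_range] at hc
      simp only [hμ, hν, if_pos hc, if_pos hc.le]
      push_cast
      ring
    rw [e1]
    unfold gbar
    push_cast
    ring
  simp only [hL, hR, prod_const, card_range] at hmix
  exact hmix

lemma psi_add_int (u : ℝ) (n : ℤ) : psi (u + n) = psi u := by
  unfold psi
  have h1 : Real.pi * (u + n) = Real.pi * u + n * Real.pi := by ring
  have h2 : Real.sin (Real.pi * (u + n)) ^ 2 = Real.sin (Real.pi * u) ^ 2 := by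
    rw [h1, Real.sin_add_int_mul_pi, mul_pow]
    have : ((-1 : ℝ) ^ n) ^ 2 = 1 := by
      rw [← zpow_natCast, ← zpow_mul, mul_comm, zpow_mul]
      norm_num
    rw [this, one_mul]
  rw [h2]

/-- The basic sum over a window of sites. -/
theorem sum_W_win {b ℓ i0 n D M : ℕ} (hb : 2 ≤ b) (h : 2 * (i0 + n) + 1 ≤ ℓ) (hM : M ≤ b)
    {a e : ℝ} (ha : 0 ≤ a) (he : 0 ≤ e) :
    ∑ x ∈ J b D, ∏ i ∈ Ico i0 (i0 + n),
      (a * (phi b (pt b x * wt b ℓ i) ^ 2 * psi (uu b ℓ i (pt b x))) +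
      e * gg M (pt b x * wt b ℓ i)) ≤
      36 * ((b : ℝ) ^ (ℓ - 2 * i0 + 3) + 4 * BB b * (D : ℝ) ^ 2) *
        (a * (127 / 128 / b) + e * gbar M) ^ n := by
  set Φ : ℝ → ℝ := fun y => ∏ i ∈ range n,
    (a * (phi b (y * wt b (ℓ - 2 * i0) i) ^ 2 * psi (uu b (ℓ - 2 * i0) i y)) +
      e * gg M (y * wt b (ℓ - 2 * i0) i)) with hΦ
  have hper : ∀ (y : ℝ) (k : ℤ), Φ (y + k) = Φ y := by
    intro y k
    simp only [hΦ]
    refine Finset.prod_congr rfl fun i _ => ?_
    have e1 : (y + k) * (wt b (ℓ - 2 * i0) i : ℝ) = y * wt b (ℓ - 2 * i0) i +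
        ((k * wt b (ℓ - 2 * i0) i : ℤ) : ℝ) := by push_cast; ring
    have e2 : uu b (ℓ - 2 * i0) i (y + k) = uu b (ℓ - 2 * i0) i y +
        ((k * ((b ^ 2 - 1) * b ^ (ℓ - 2 * i0 - i - 1) : ℕ) : ℤ) : ℝ) := by
      unfold uu; push_cast; ring
    rw [e1, e2, phi_add_int, psi_add_int, gg_add_int]
  have h1 : ∀ x ∈ J b D, ∏ i ∈ Ico i0 (i0 + n),
      (a * (phi b (pt b x * wt b ℓ i) ^ 2 * psi (uu b ℓ i (pt b x))) +
      e * gg M (pt b x * wt b ℓ i)) = Φ ((b : ℝ) ^ i0 * pt b x) := by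
    intro x _
    simp only [hΦ]
    rw [Finset.prod_Ico_eq_prod_range, Nat.add_sub_cancel_left]
    refine Finset.prod_congr rfl fun i hi => ?_
    rw [mem_range] at hi
    have e1 : pt b x * (wt b ℓ (i0 + i) : ℝ) = (b : ℝ) ^ i0 * pt b x * wt b (ℓ - 2 * i0) i := by
      unfold wt
      have : ℓ - (i0 + i) = i0 + (ℓ - 2 * i0 - i) := by omega
      rw [this]
      push_cast
      rw [pow_add, pow_add]
      ring
    have e2 : uu b ℓ (i0 + i) (pt b x) = uu b (ℓ - 2 * i0) i ((b : ℝ) ^ i0 * pt b x) := by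
      unfold uu
      have : ℓ - (i0 + i) - 1 = i0 + (ℓ - 2 * i0 - i - 1) := by omega
      rw [this]
      push_cast
      rw [pow_add]
      ring
    rw [e1, e2]
  rw [Finset.sum_congr rfl h1, sum_J_mul i0 Φ hper]
  exact sum_W hb (by omega) hM ha he

/-- The sum with the mean square factors. -/
theorem sum_G {b ℓ n D M a1 a2 i0 : ℕ} (hb : 2 ≤ b) (h : 2 * n + 1 ≤ ℓ) (hM1 : 1 ≤ M) (hM : M ≤ b)
    (h12 : a1 ≤ a2) (h2 : a2 ≤ i0) (hi : i0 ≤ n) {η C : ℝ} (hη : 0 < η) (hC : 1 ≤ C)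
    (hdiv : ∀ n : ℕ, 1 ≤ n → (n.divisors.card : ℝ) ≤ C * (n : ℝ) ^ η) :
    ∑ x ∈ J b D, (∏ i ∈ Ico a1 a2, phi b (pt b x * wt b ℓ i) ^ 2) *
      ∏ i ∈ Ico i0 n, gg M (pt b x * wt b ℓ i) ≤
      2 * BB b * ((D : ℝ) ^ 2 * ((1 / (b : ℝ)) ^ (a2 - a1) * gbar M ^ (n - i0)) +
        D * (C * ((b : ℝ) ^ (ℓ + 3)) ^ η)) := by
  have hM0 : (M : ℝ) ≠ 0 := by
    have : M ≠ 0 := by omega
    exact_mod_cast this
  set S : ℕ → Finset ℕ := fun i => if i0 ≤ i then range M else if a1 ≤ i ∧ i < a2 then {b - 1}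
    else {0} with hS
  set wg : ℕ → ℕ → ℝ := fun i _ => if i0 ≤ i then 1 / (M : ℝ) else 1 with hwg
  have hmix := mixture (J b D) n S wg
    (by
      intro i _ c _
      simp only [hwg]
      split_ifs <;> positivity)
    (fun i c x => phi (c + 1) (pt b x * wt b ℓ i) ^ 2)
    (2 * BB b * (D : ℝ) ^ 2) (2 * BB b * (D * (C * ((b : ℝ) ^ (ℓ + 3)) ^ η)))
    (fun _ c => 1 / ((c + 1 : ℕ) : ℝ)) (fun _ _ => 1)
    (by
      intro c hc
      have h1 := sum_box_par (D := D) hb h hη hC hdiv (fun i => c i + 1) (by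
        intro i hi'
        have h3 := hc i hi'
        simp only [hS] at h3
        split_ifs at h3 with h4 h5
        · rw [mem_range] at h3; omega
        · rw [mem_singleton] at h3; omega
        · rw [mem_singleton] at h3; omega)
      rw [prod_const_one, mul_one]
      refine h1.trans (le_of_eq ?_)
      ring)
    (fun i => if i0 ≤ i then 0 else if a1 ≤ i ∧ i < a2 then b - 1 else 0)
    (by
      intro i _
      simp only [hS]
      split_ifs
      · rw [mem_range]; omega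
      · exact mem_singleton_self _
      · exact mem_singleton_self _)
  -- evaluate the mixtures
  have hsplit : ∀ f : ℕ → ℝ, ∏ i ∈ range n, f i = (∏ i ∈ Ico 0 a1, f i) * (∏ i ∈ Ico a1 a2, f i) *
      (∏ i ∈ Ico a2 i0, f i) * ∏ i ∈ Ico i0 n, f i := by
    intro f
    rw [Finset.prod_Ico_consecutive _ (Nat.zero_le _) h12,
      Finset.prod_Ico_consecutive _ (Nat.zero_le _) h2,
      Finset.prod_Ico_consecutive _ (Nat.zero_le _) hi, range_eq_Ico]
  have hev : ∀ φ : ℕ → ℕ → ℝ, (∀ i, φ i 0 = 1) →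
      ∏ i ∈ range n, ∑ c ∈ S i, wg i c * φ i c =
      (∏ i ∈ Ico a1 a2, φ i (b - 1)) * ∏ i ∈ Ico i0 n, ((∑ c ∈ range M, φ i c) / M) := by
    intro φ hφ
    rw [hsplit]
    have c1 : ∏ i ∈ Ico 0 a1, ∑ c ∈ S i, wg i c * φ i c = 1 := by
      refine Finset.prod_eq_one fun i hi' => ?_
      rw [mem_Ico] at hi'
      simp only [hS, hwg]
      rw [if_neg (by omega), if_neg (by omega), if_neg (by omega), sum_singleton, one_mul, hφ]
    have c2 : ∏ i ∈ Ico a1 a2, ∑ c ∈ S i, wg i c * φ i c = ∏ i ∈ Ico a1 a2, φ i (b - 1) := by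
      refine Finset.prod_congr rfl fun i hi' => ?_
      rw [mem_Ico] at hi'
      simp only [hS, hwg]
      rw [if_neg (by omega), if_pos hi', if_neg (by omega), sum_singleton, one_mul]
    have c3 : ∏ i ∈ Ico a2 i0, ∑ c ∈ S i, wg i c * φ i c = 1 := by
      refine Finset.prod_eq_one fun i hi' => ?_
      rw [mem_Ico] at hi'
      simp only [hS, hwg]
      rw [if_neg (by omega), if_neg (by omega), if_neg (by omega), sum_singleton, one_mul, hφ]
    have c4 : ∏ i ∈ Ico i0 n, ∑ c ∈ S i, wg i c * φ i c =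
        ∏ i ∈ Ico i0 n, ((∑ c ∈ range M, φ i c) / M) := by
      refine Finset.prod_congr rfl fun i hi' => ?_
      rw [mem_Ico] at hi'
      simp only [hS, hwg]
      rw [if_pos hi'.1, if_pos hi'.1, ← Finset.mul_sum]
      ring
    rw [c1, c2, c3, c4]
    ring
  have hb1 : b - 1 + 1 = b := by omega
  have hL : ∀ x ∈ J b D, ∏ i ∈ range n, ∑ c ∈ S i, wg i c * phi (c + 1) (pt b x * wt b ℓ i) ^ 2 =
      (∏ i ∈ Ico a1 a2, phi b (pt b x * wt b ℓ i) ^ 2) *
      ∏ i ∈ Ico i0 n, gg M (pt b x * wt b ℓ i) := by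
    intro x _
    rw [hev (fun i c => phi (c + 1) (pt b x * wt b ℓ i) ^ 2) (fun i => by rw [zero_add, phi_one, one_pow])]
    rw [hb1]
    rfl
  rw [Finset.sum_congr rfl hL] at hmix
  rw [hev (fun _ c => 1 / ((c + 1 : ℕ) : ℝ)) (fun i => by simp),
    hev (fun _ _ => 1) (fun i => rfl)] at hmix
  simp only [hb1, prod_const, Nat.card_Ico, one_pow, sum_const, card_range, nsmul_eq_mul, mul_one,
    div_self hM0] at hmix
  have hgb : (∑ c ∈ range M, 1 / ((c + 1 : ℕ) : ℝ)) / M = gbar M := by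
    unfold gbar
    push_cast
    rfl
  rw [hgb] at hmix
  refine hmix.trans (le_of_eq ?_)
  ring

end Pool.Agent.PalL
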