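import Pool.Agent.PalSieve.UpFinal
import Pool.Agent.PalL.WeightedC

/-!
# Upper bound for the number of palindromic primes, at a general level
-/

namespace Pool.Agent.PalL

open Finset Pool.Agent.Pal

lemma RR_sum_leC {b : ℕ} (hb : 2 ≤ b) {θ : ℝ} (hθ : θ < 1 / 2) (hcen : HasCen b θ) :
    ∃ σ C : ℝ, 0 < σ ∧ 0 < C ∧ ∀ Λ D : ℕ, 1 ≤ Λ → 1 ≤ D →
      Real.log (((b ^ 2 - 1) * D : ℕ) : ℝ) ≤ θ * Real.log b * Λ →
      ∑ q ∈ (Ico 1 D).filter (fun q => q.Coprime (b ^ 3 - b)),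
        (q.divisors.card : ℝ) ^ 2 * RR b Λ q ≤
        C * ((Λ : ℝ) + 1) * Real.sqrt ((b : ℝ) ^ Λ) * Real.exp (-σ * Real.sqrt Λ) := by
  obtain ⟨σ, C, hσ, hC, hmain⟩ := sum_moduli_weightedC hb hθ hcen 2
  have hB3 := sq_sub_one_pos hb
  set B := b ^ 2 - 1 with hB
  have hB0 : 0 < B := by omega
  have hb0 : (0 : ℝ) < b := by
    have : 0 < b := by omega
    exact_mod_cast this
  have hBr : (0 : ℝ) < B := by exact_mod_cast hB0
  refine ⟨σ, 2 * (b * B) * C, hσ, by positivity, ?_⟩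
  intro Λ D hΛ hD hlog
  have hBb : B.Coprime b := by
    have hb1 : 1 ≤ b ^ 2 := Nat.one_le_pow _ _ (by omega)
    have h2 : b ^ 2 - 1 + 1 = b ^ 2 := Nat.sub_add_cancel hb1
    have h3 : (b ^ 2 - 1).Coprime (b ^ 2) := by
      rw [← h2]; simp
    exact Nat.Coprime.coprime_dvd_right (dvd_pow_self b two_ne_zero) h3
  have h1 : ∀ ℓ ∈ range (Λ + 1), ∑ q ∈ (Ico 1 D).filter (fun q => q.Coprime (b ^ 3 - b)),
      (q.divisors.card : ℝ) ^ 2 * EE b ℓ (B * q) ≤
      C * Real.sqrt ((b : ℝ) ^ Λ) * Real.exp (-σ * Real.sqrt Λ) := by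
    intro ℓ hℓ
    rw [mem_range] at hℓ
    refine le_trans ?_ (hmain Λ ℓ (B * D) hΛ (by omega) (by
      have : 0 < B * D := by positivity
      omega) hlog)
    have hinj : Set.InjOn (fun q => B * q)
        ((Ico 1 D).filter (fun q => q.Coprime (b ^ 3 - b)) : Set ℕ) := by
      intro x _ y _ hxy
      exact Nat.eq_of_mul_eq_mul_left hB0 hxy
    have e1 : ∀ q ∈ (Ico 1 D).filter (fun q => q.Coprime (b ^ 3 - b)),
        (q.divisors.card : ℝ) ^ 2 * EE b ℓ (B * q) ≤
        ((B * q).divisors.card : ℝ) ^ 2 * EE b ℓ (B * q) := by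
      intro q hq
      rw [mem_filter, mem_Ico] at hq
      have e2 : q.divisors.card ≤ (B * q).divisors.card := by
        refine card_le_card (Nat.divisors_subset_of_dvd ?_ (Dvd.intro_left _ rfl))
        have : 0 < B * q := by
          have := hq.1.1
          positivity
        omega
      have e3 : (q.divisors.card : ℝ) ^ 2 ≤ ((B * q).divisors.card : ℝ) ^ 2 :=
        pow_le_pow_left₀ (Nat.cast_nonneg _) (by exact_mod_cast e2) 2
      exact mul_le_mul_of_nonneg_right e3 (EE_nonneg _ _ _)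
    refine (Finset.sum_le_sum e1).trans ?_
    rw [← sum_image (f := fun q : ℕ => (q.divisors.card : ℝ) ^ 2 * EE b ℓ q) hinj]
    refine sum_le_sum_of_subset_of_nonneg ?_ fun q _ _ =>
      mul_nonneg (by positivity) (EE_nonneg _ _ _)
    intro x hx
    obtain ⟨q, hq, rfl⟩ := mem_image.mp hx
    rw [mem_filter, mem_Ico] at hq
    rw [mem_filter, mem_Icc]
    refine ⟨⟨?_, Nat.mul_le_mul_left _ hq.1.2.le⟩, ?_⟩
    · have : 0 < B * q := by
        have := hq.1.1
        positivity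
      omega
    · refine Nat.Coprime.mul_left hBb ?_
      have h3 := hq.2
      rw [cube_sub] at h3
      exact Nat.Coprime.coprime_mul_right_right h3
  have h2 : ∑ q ∈ (Ico 1 D).filter (fun q => q.Coprime (b ^ 3 - b)),
        (q.divisors.card : ℝ) ^ 2 * RR b Λ q =
      2 * (b * B) * ∑ ℓ ∈ range (Λ + 1), ∑ q ∈ (Ico 1 D).filter (fun q => q.Coprime (b ^ 3 - b)),
        (q.divisors.card : ℝ) ^ 2 * EE b ℓ (B * q) := by
    rw [Finset.sum_comm, Finset.mul_sum]
    refine Finset.sum_congr rfl fun q _ => ?_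
    unfold RR
    rw [← Finset.mul_sum]
    ring
  rw [h2]
  have h3 := Finset.sum_le_sum h1
  rw [Finset.sum_const, card_range, nsmul_eq_mul] at h3
  calc 2 * (b * B : ℝ) * _ ≤ 2 * (b * B : ℝ) * (((Λ + 1 : ℕ) : ℝ) *
        (C * Real.sqrt ((b : ℝ) ^ Λ) * Real.exp (-σ * Real.sqrt Λ))) :=
        mul_le_mul_of_nonneg_left h3 (by positivity)
    _ = _ := by push_cast; ring

lemma aux_logC {L l u e t θ c η : ℝ} (hθ : 0 < θ) (he0 : 0 < e)
    (hc : c = 2 / θ + e / 2) (hη : η = e * θ / (8 * c))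
    (hu : u = (θ / 2 - η) * L * t) (hl : u - 1 ≤ l) (hbig : c + L ≤ e * θ / 8 * (L * t)) :
    (t + 1) * L ≤ c * l := by
  have hc0 : 0 < c := by rw [hc]; positivity
  have h1 : c * (u - 1) ≤ c * l := mul_le_mul_of_nonneg_left hl hc0.le
  have h2 : c * u = (1 + e * θ / 8) * (L * t) := by
    have h3 : c * η = e * θ / 8 := by
      rw [hη]; field_simp
    have h4 : c * θ = 2 + e * θ / 2 := by
      rw [hc]; field_simp
    calc c * u = (c * θ / 2 - c * η) * (L * t) := by rw [hu]; ring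
      _ = _ := by rw [h3, h4]; ring
  nlinarith

/-- **Upper bound for palindromic primes, at a general level.** -/
theorem upper_gen {b : ℕ} (hb : 2 ≤ b) {θ : ℝ} (hθ0 : 0 < θ) (hθ : θ < 1 / 2) (hcen : HasCen b θ)
    {ε : ℝ} (hε : 0 < ε) :
    ∃ x₀ : ℝ, ∀ x : ℝ, x₀ ≤ x →
      ((((Icc 1 ⌊x⌋₊).filter
        (fun n : ℕ => (Nat.digits b n).reverse = Nat.digits b n)).filter Nat.Prime).card : ℝ) ≤
      (2 / θ + ε) * (((b ^ 3 - b : ℕ) : ℝ) / ((b ^ 3 - b).totient : ℝ)) *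
        ((((Icc 1 ⌊x⌋₊).filter
          (fun n : ℕ => (Nat.digits b n).reverse = Nat.digits b n)).filter
          (fun n : ℕ => n.Coprime (b ^ 3 - b))).card : ℝ) / Real.log x := by
  set c : ℝ := 2 / θ + ε / 2 with hc
  have hc0 : 0 < c := by rw [hc]; positivity
  set η : ℝ := ε * θ / (8 * c) with hη
  have hη0 : 0 < η := by positivity
  have hη1 : η < θ / 4 := by
    rw [hη, div_lt_iff₀ (by positivity)]
    have h4 : c * θ = 2 + ε * θ / 2 := by
      rw [hc]; field_simp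
    have : θ / 4 * (8 * c) = 2 * (c * θ) := by ring
    rw [this, h4]
    linarith
  obtain ⟨σ, C, hσ, hC, hR⟩ := RR_sum_leC hb hθ hcen
  obtain ⟨C3, hC3, hexp1⟩ := exists_pow_mul_exp_le hσ 3
  have hL := log_pos_b hb
  set L := Real.log b with hLdef
  obtain ⟨C', hC', hexp2⟩ := exists_poly_mul_exp_le (σ := L / 4) (by positivity) 2
  have hb0 : (2 : ℝ) ≤ b := by exact_mod_cast hb
  have hbp : (0 : ℝ) < b := by linarith
  have hB3 := sq_sub_one_pos hb
  have hM0 : 0 < b ^ 3 - b := by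
    rw [cube_sub]
    have : 0 < b := by omega
    have : 0 < b ^ 2 - 1 := by omega
    positivity
  set M := b ^ 3 - b with hM
  have hMr : (0 : ℝ) < M := by exact_mod_cast hM0
  have hφ : (0 : ℝ) < M.totient := by exact_mod_cast Nat.totient_pos.mpr hM0
  set K : ℝ := (M : ℝ) / (M.totient : ℝ) with hK
  have hK1 : 1 ≤ K := by
    rw [hK, one_le_div hφ]
    exact_mod_cast Nat.totient_le M
  obtain ⟨n1, hn1⟩ := exists_nat_ge ((c + L) * 8 / (ε * θ * L))
  obtain ⟨n2, hn2⟩ := exists_nat_ge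
    (8 * (b : ℝ) ^ 5 * (4 * C * L * C3 + 2 * L * (1 + M) * C') / ε)
  obtain ⟨n3, hn3⟩ := exists_nat_ge (Real.log ((b ^ 2 - 1 : ℕ) : ℝ) / (2 * η * L))
  obtain ⟨n4, hn4⟩ := exists_nat_ge (8 / (θ * L))
  refine ⟨((b ^ (n1 + n2 + n3 + n4 + 13) : ℕ) : ℝ), ?_⟩
  intro x hx
  have hx1 : b ^ (n1 + n2 + n3 + n4 + 13) ≤ ⌊x⌋₊ := Nat.le_floor hx
  set X := ⌊x⌋₊ with hX
  have hX0 : X ≠ 0 := by
    have : 0 < b ^ (n1 + n2 + n3 + n4 + 13) := pow_pos (by omega) _
    omega
  have hx0 : 0 < x := lt_of_lt_of_le (by positivity) hx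
  set Λ := Nat.log b X with hΛ
  have hΛ1 : b ^ Λ ≤ X := Nat.pow_log_le_self b hX0
  have hΛ2 : X < b ^ (Λ + 1) := Nat.lt_pow_succ_log_self (by omega) X
  have hΛ3 : n1 + n2 + n3 + n4 + 13 ≤ Λ := by
    have := hx1.trans_lt hΛ2
    have := (Nat.pow_lt_pow_iff_right (by omega : 1 < b)).mp this
    omega
  have hΛr : (13 : ℝ) ≤ Λ := by
    have : 13 ≤ Λ := by omega
    exact_mod_cast this
  have g1 : (c + L) * 8 / (ε * θ * L) ≤ Λ := by
    have : n1 ≤ Λ := by omega
    exact hn1.trans (by exact_mod_cast this)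
  have g2 : 8 * (b : ℝ) ^ 5 * (4 * C * L * C3 + 2 * L * (1 + M) * C') / ε ≤ Λ := by
    have : n2 ≤ Λ := by omega
    exact hn2.trans (by exact_mod_cast this)
  have g3 : Real.log ((b ^ 2 - 1 : ℕ) : ℝ) / (2 * η * L) ≤ Λ := by
    have : n3 ≤ Λ := by omega
    exact hn3.trans (by exact_mod_cast this)
  have g4 : 8 / (θ * L) ≤ Λ := by
    have : n4 ≤ Λ := by omega
    exact hn4.trans (by exact_mod_cast this)
  rw [div_le_iff₀ (by positivity)] at g1 g2 g3 g4
  -- the parameter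
  set u := (θ / 2 - η) * L * Λ with hu
  have hu2 : 2 ≤ u := by
    rw [hu]
    have : (θ / 2 - η) * L * (Λ : ℝ) ≥ θ / 4 * (L * Λ) := by
      have : 0 ≤ (θ / 4 - η) * (L * (Λ : ℝ)) := by
        have : 0 ≤ θ / 4 - η := by linarith
        positivity
      linarith
    linarith
  have hexpu : 2 ≤ Real.exp u := by
    have := Real.add_one_le_exp u
    linarith
  set ξ := ⌊Real.exp u⌋₊ with hξ
  have hξ2 : 2 ≤ ξ := Nat.le_floor (by exact_mod_cast hexpu)
  have hξr : (2 : ℝ) ≤ ξ := by exact_mod_cast hξ2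
  have hξle : (ξ : ℝ) ≤ Real.exp u := Nat.floor_le (Real.exp_pos _).le
  have hξge : Real.exp u / 2 ≤ ξ := by
    have := Nat.lt_floor_add_one (Real.exp u)
    rw [← hξ] at this
    linarith
  have hlogξ1 : Real.log ξ ≤ u := by
    have := Real.log_le_log (by linarith) hξle
    rwa [Real.log_exp] at this
  have hlogξ2 : u - 1 ≤ Real.log ξ := by
    have h1 := Real.log_le_log (by positivity) hξge
    rw [Real.log_div (Real.exp_pos _).ne' (by norm_num), Real.log_exp] at h1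
    have h2 := Real.log_two_lt_d9
    linarith
  have hlogξ0 : 0 < Real.log ξ := Real.log_pos (by linarith)
  -- logarithm of `x`
  have hlogx1 : Real.log x ≤ ((Λ : ℝ) + 1) * L := by
    have h1 : x < (X : ℝ) + 1 := Nat.lt_floor_add_one x
    have h2 : ((X + 1 : ℕ) : ℝ) ≤ ((b ^ (Λ + 1) : ℕ) : ℝ) := by exact_mod_cast hΛ2
    push_cast at h2
    have h3 : x ≤ (b : ℝ) ^ (Λ + 1) := by linarith
    have h4 := Real.log_le_log hx0 h3
    rw [Real.log_pow] at h4
    push_cast at h4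
    exact h4
  have hlogx0 : 0 < Real.log x := by
    have h1 : (X : ℝ) ≤ x := Nat.floor_le hx0.le
    have h2 : ((b ^ Λ : ℕ) : ℝ) ≤ X := by exact_mod_cast hΛ1
    have h3 : (b : ℝ) ^ 1 ≤ (b : ℝ) ^ Λ := pow_le_pow_right₀ (by linarith) (by omega)
    push_cast at h2
    exact Real.log_pos (by linarith)
  -- the sieve
  have hsv := primes_le hb hΛ2 hξ2
  have hB0 : (0 : ℝ) < ((b ^ 2 - 1 : ℕ) : ℝ) := by
    have : 0 < b ^ 2 - 1 := by omega
    exact_mod_cast this
  have herr := hR Λ (ξ ^ 2) (by omega) (Nat.one_le_pow _ _ (by omega)) (by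
    rw [Nat.cast_mul, Real.log_mul hB0.ne' (by positivity), Nat.cast_pow, Real.log_pow]
    push_cast
    have h2 : 2 * Real.log ξ ≤ 2 * u := by linarith
    have h3 : 2 * u = θ * L * Λ - 2 * η * L * Λ := by rw [hu]; ring
    linarith)
  rw [← hM, ← hK] at hsv
  have hPAge := PA_card_ge hb (by omega) hΛ1
  -- identify the sets
  have hset : ((Icc 1 X).filter
      (fun n : ℕ => (Nat.digits b n).reverse = Nat.digits b n)).filter
      (fun n : ℕ => n.Coprime M) = PA b X := by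
    unfold PA IsPal
    rw [filter_filter]
  have hprimes : ((((Icc 1 X).filter
      (fun n : ℕ => (Nat.digits b n).reverse = Nat.digits b n)).filter Nat.Prime).card : ℝ) ≤
      (((PA b X).filter Nat.Prime).card : ℝ) + M := by
    have h1 : ((Icc 1 X).filter
        (fun n : ℕ => (Nat.digits b n).reverse = Nat.digits b n)).filter Nat.Prime ⊆
        (PA b X).filter Nat.Prime ∪ Icc 1 M := by
      intro p hp
      rw [mem_filter, mem_filter] at hp
      rw [mem_union, mem_Icc]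
      by_cases hpM : p ∣ M
      · exact Or.inr ⟨hp.2.one_le, Nat.le_of_dvd hM0 hpM⟩
      · left
        unfold PA
        rw [mem_filter, mem_filter]
        exact ⟨⟨hp.1.1, hp.1.2, (Nat.Prime.coprime_iff_not_dvd hp.2).mpr hpM⟩, hp.2⟩
    have h2 := (card_le_card h1).trans (card_union_le _ _)
    rw [Nat.card_Icc] at h2
    have h3 : (((Icc 1 X).filter
        (fun n : ℕ => (Nat.digits b n).reverse = Nat.digits b n)).filter Nat.Prime).card ≤
        ((PA b X).filter Nat.Prime).card + M := by omega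
    exact_mod_cast h3
  rw [hset]
  set A : ℝ := ((PA b X).card : ℝ) with hA
  have hA0 : 0 ≤ A := Nat.cast_nonneg _
  set E : ℝ := ∑ q ∈ (Ico 1 (ξ ^ 2)).filter (fun q => q.Coprime M),
        (q.divisors.card : ℝ) ^ 2 * RR b Λ q with hE
  -- main term
  have hmain : K * A / Real.log ξ ≤ c * K * A / Real.log x := by
    have h1 := aux_logC hθ0 hε hc hη hu hlogξ2 (by
      have : (c + L) * 8 ≤ Λ * (ε * θ * L) := g1
      linarith)
    have h2 : Real.log x ≤ c * Real.log ξ := hlogx1.trans h1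
    rw [div_le_div_iff₀ hlogξ0 hlogx0]
    have h3 : 0 ≤ K * A := by positivity
    calc K * A * Real.log x ≤ K * A * (c * Real.log ξ) :=
          mul_le_mul_of_nonneg_left h2 h3
      _ = _ := by ring
  -- error term
  have hbΛ : (0 : ℝ) < Real.sqrt ((b : ℝ) ^ Λ) := by positivity
  have hg : (Λ : ℝ) ^ 3 * Real.exp (-σ * Real.sqrt Λ) ≤ C3 := by
    refine (hexp1 Λ).trans ?_
    have h2 : Real.exp (-(σ / 2) * Real.sqrt Λ) ≤ 1 := by
      rw [Real.exp_le_one_iff, neg_mul, neg_nonpos]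
      positivity
    calc C3 * Real.exp (-(σ / 2) * Real.sqrt Λ) ≤ C3 * 1 := mul_le_mul_of_nonneg_left h2 hC3.le
      _ = C3 := mul_one _
  have hξM : ((ξ : ℝ) + M) * (Λ : ℝ) ^ 2 ≤ (1 + M) * C' * Real.sqrt ((b : ℝ) ^ Λ) := by
    have h1 : (ξ : ℝ) ≤ Real.exp (L * Λ / 4) := by
      refine hξle.trans (Real.exp_le_exp.mpr ?_)
      rw [hu]
      have h5 : 0 ≤ η * (L * (Λ : ℝ)) := by positivity
      have h6 : θ / 2 * (L * (Λ : ℝ)) ≤ 1 / 4 * (L * (Λ : ℝ)) :=
        mul_le_mul_of_nonneg_right (by linarith) (by positivity)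
      linarith
    have h2 : (M : ℝ) ≤ M * Real.exp (L * Λ / 4) := by
      have : 1 ≤ Real.exp (L * Λ / 4) := Real.one_le_exp (by positivity)
      exact le_mul_of_one_le_right hMr.le this
    have h3 : Real.sqrt ((b : ℝ) ^ Λ) = Real.exp (L * Λ / 2) := by
      rw [Real.sqrt_eq_iff_mul_self_eq_of_pos (Real.exp_pos _), ← Real.exp_add]
      have : L * Λ / 2 + L * Λ / 2 = (Λ : ℝ) * L := by ring
      rw [this, hLdef, ← Real.log_pow, Real.exp_log (by positivity)]
    have h4 : (Λ : ℝ) ^ 2 * Real.exp (-(L / 4) * Λ) ≤ C' := by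
      have h5 := hexp2 Λ
      have h6 : Real.exp (-(L / 4 / 2) * Λ) ≤ 1 := by
        rw [Real.exp_le_one_iff]
        have : 0 ≤ L / 4 / 2 * (Λ : ℝ) := by positivity
        linarith
      calc (Λ : ℝ) ^ 2 * Real.exp (-(L / 4) * Λ) ≤
            ((Λ : ℝ) + 1) ^ 2 * Real.exp (-(L / 4) * Λ) := by
            refine mul_le_mul_of_nonneg_right ?_ (Real.exp_pos _).le
            exact pow_le_pow_left₀ (Nat.cast_nonneg _) (by linarith) 2
        _ ≤ C' * Real.exp (-(L / 4 / 2) * Λ) := h5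
        _ ≤ C' * 1 := mul_le_mul_of_nonneg_left h6 hC'.le
        _ = C' := mul_one _
    have h5 : Real.exp (L * Λ / 4) = Real.exp (-(L / 4) * Λ) * Real.exp (L * Λ / 2) := by
      rw [← Real.exp_add]; congr 1; ring
    calc ((ξ : ℝ) + M) * (Λ : ℝ) ^ 2 ≤ ((1 + M) * Real.exp (L * Λ / 4)) * (Λ : ℝ) ^ 2 := by
          refine mul_le_mul_of_nonneg_right ?_ (by positivity)
          linarith
      _ = (1 + M) * ((Λ : ℝ) ^ 2 * Real.exp (-(L / 4) * Λ)) * Real.exp (L * Λ / 2) := by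
          rw [h5]; ring
      _ ≤ (1 + M) * C' * Real.exp (L * Λ / 2) := by
          refine mul_le_mul_of_nonneg_right ?_ (Real.exp_pos _).le
          exact mul_le_mul_of_nonneg_left h4 (by positivity)
      _ = _ := by rw [h3]
  have herr2 := aux_err hL (by linarith : (1 : ℝ) ≤ Λ) hC hMr.le hbΛ (Real.exp_pos _).le hε.le
    herr hg (by positivity : (0 : ℝ) < (b : ℝ) ^ 5) hξM (by linarith)
  have hE0 : 0 ≤ E := Finset.sum_nonneg fun q _ => mul_nonneg (by positivity) (RR_nonneg _ _ _)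
  have hEtot : E + ξ + M ≤ ε / 2 * K * A / Real.log x :=
    aux_tot hlogx0 (add_nonneg (add_nonneg hE0 (Nat.cast_nonneg _)) (Nat.cast_nonneg _)) hlogx1
      (by linarith) hL herr2 hPAge hK1 hε hA0
  have hfin : c * K * A / Real.log x + ε / 2 * K * A / Real.log x =
      (2 / θ + ε) * K * A / Real.log x := by
    rw [hc]; ring
  linarith

end Pool.Agent.PalL
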